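import Mathlib
import Pool.Agent.Q35.Col

/-!
Sections of `V A * g`, where `V A = ∑ n, ([z^n] A (1+z)^n) x^n` and `g` is the generating function
of the numbers `S 4 m n`.
-/

namespace Pool.Agent.Q40.CK

open PowerSeries Pool.Agent.Q35

/-- `[z^N] A (1+z)^N` -/
noncomputable def F (A : PowerSeries ℤ) (N : ℕ) : ℤ := coeff N (A * (1 + X) ^ N)

/-- the series with coefficients `F A N` -/
noncomputable def V (A : PowerSeries ℤ) : PowerSeries ℤ := mk (F A)

theorem coeff_V (A : PowerSeries ℤ) (N : ℕ) : coeff N (V A) = F A N := by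
  rw [V, coeff_mk]

theorem V_add (A B : PowerSeries ℤ) : V (A + B) = V A + V B := by
  ext N
  rw [map_add, coeff_V, coeff_V, coeff_V, F, F, F, add_mul, map_add]

theorem V_C_mul (c : ℤ) (A : PowerSeries ℤ) : V (C c * A) = C c * V A := by
  ext N
  rw [coeff_C_mul, coeff_V, coeff_V, F, F, mul_assoc, coeff_C_mul]

theorem V_X_mul (A : PowerSeries ℤ) : V (X * A) = X * U * V A := by
  have h : (1 - X) * V (X * A) = X * V A := by
    ext N
    rw [sub_mul, one_mul, map_sub, coeff_V]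
    rcases Nat.eq_zero_or_pos N with rfl | hN
    · rw [F, mul_assoc, coeff_zero_X_mul, coeff_zero_X_mul, coeff_zero_X_mul, sub_zero]
    · obtain ⟨n, rfl⟩ : ∃ n, N = n + 1 := ⟨N - 1, by omega⟩
      rw [coeff_succ_X_mul, coeff_succ_X_mul, coeff_V, coeff_V, F, F, F, mul_assoc,
        coeff_succ_X_mul, pow_succ, ← mul_assoc, mul_add, mul_one, map_add]
      rcases Nat.eq_zero_or_pos n with rfl | hn
      · simp
      · obtain ⟨k, rfl⟩ : ∃ k, n = k + 1 := ⟨n - 1, by omega⟩
        rw [coeff_succ_mul_X, mul_assoc X A, coeff_succ_X_mul]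
        ring
  calc V (X * A) = (U * (1 - X)) * V (X * A) := by rw [U_mul, one_mul]
    _ = U * ((1 - X) * V (X * A)) := by ring
    _ = _ := by rw [h]; ring

/-- `(1+z)^4 - z^4` -/
noncomputable def G : PowerSeries ℤ := 1 + 4 * X + 6 * X ^ 2 + 4 * X ^ 3

theorem G_eq : (1 + X : PowerSeries ℤ) ^ 4 = X ^ 4 + G := by
  rw [G]; ring

theorem V_ofNat_mul (c : ℕ) [c.AtLeastTwo] (A : PowerSeries ℤ) :
    V ((OfNat.ofNat c : PowerSeries ℤ) * A) = (OfNat.ofNat c : PowerSeries ℤ) * V A := by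
  have : (OfNat.ofNat c : PowerSeries ℤ) = C (OfNat.ofNat c : ℤ) := by
    rw [map_ofNat]
  rw [this, V_C_mul]

theorem V_X_pow_mul (k : ℕ) (A : PowerSeries ℤ) : V (X ^ k * A) = (X * U) ^ k * V A := by
  induction k with
  | zero => simp
  | succ k ih =>
    have e : X ^ (k + 1) * A = X * (X ^ k * A) := by ring
    rw [e, V_X_mul, ih]
    ring

theorem V_G_mul (A : PowerSeries ℤ) : V (G * A) = U ^ 4 * (1 - X ^ 4) * V A := by
  have e : G * A = A + 4 * (X ^ 1 * A) + 6 * (X ^ 2 * A) + 4 * (X ^ 3 * A) := by rw [G]; ring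
  rw [e, V_add, V_add, V_add, V_ofNat_mul, V_ofNat_mul, V_ofNat_mul, V_X_pow_mul, V_X_pow_mul,
    V_X_pow_mul]
  have h : (1 : PowerSeries ℤ) = U - X * U := by
    have := U_mul (R := ℤ)
    linear_combination -this
  have h2 : (1 + 4 * (X * U) + 6 * (X * U) ^ 2 + 4 * (X * U) ^ 3 : PowerSeries ℤ) =
      U ^ 4 * (1 - X ^ 4) := by
    have h3 : (1 + X * U : PowerSeries ℤ) = U := by
      have := U_mul (R := ℤ)
      linear_combination -this
    calc (1 + 4 * (X * U) + 6 * (X * U) ^ 2 + 4 * (X * U) ^ 3 : PowerSeries ℤ)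
        = (1 + X * U) ^ 4 - (X * U) ^ 4 := by ring
      _ = _ := by rw [h3]; ring
  rw [← h2]
  ring

theorem V_Gpow_mul (m : ℕ) (A : PowerSeries ℤ) :
    V (G ^ m * A) = (U ^ 4 * (1 - X ^ 4)) ^ m * V A := by
  induction m with
  | zero => simp
  | succ m ih =>
    have e : G ^ (m + 1) * A = G * (G ^ m * A) := by ring
    rw [e, V_G_mul, ih]
    ring

/-- section operator on coefficient data -/
noncomputable def sec (d : ℕ) (Q : PowerSeries ℤ) : PowerSeries ℤ :=
  mk fun r => coeff (4 * r + d) (Q * G ^ r * (1 + X) ^ d)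

theorem coeff_one_add_X_pow (n j : ℕ) : coeff j ((1 + X : PowerSeries ℤ) ^ n) = n.choose j := by
  have h : ((1 + X : PowerSeries ℤ) ^ n) = ((((1 : Polynomial ℤ) + Polynomial.X) ^ n :
      Polynomial ℤ) : PowerSeries ℤ) := by
    rw [Polynomial.coe_pow, Polynomial.coe_add, Polynomial.coe_one, Polynomial.coe_X]
  rw [h, Polynomial.coeff_coe, Polynomial.coeff_one_add_X_pow]

theorem F_sec (Q : PowerSeries ℤ) (n d : ℕ) : F Q (4 * n + d) = F (sec d Q) n := by
  have h1 : (1 + X : PowerSeries ℤ) ^ (4 * n + d) =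
      ∑ r ∈ Finset.range (n + 1), C ((n.choose r : ℕ) : ℤ) *
        (G ^ r * (1 + X) ^ d * X ^ (4 * (n - r))) := by
    rw [pow_add, pow_mul, G_eq, add_comm (X ^ 4) G, add_pow, Finset.sum_mul]
    apply Finset.sum_congr rfl
    intro r _
    rw [← pow_mul]
    have : ((n.choose r : ℕ) : PowerSeries ℤ) = C ((n.choose r : ℕ) : ℤ) := by
      rw [map_natCast]
    rw [this]
    ring
  rw [F, h1, Finset.mul_sum, map_sum, F, coeff_mul, Finset.Nat.sum_antidiagonal_eq_sum_range_succ
    (fun i j => coeff i (sec d Q) * coeff j ((1 + X : PowerSeries ℤ) ^ n))]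
  apply Finset.sum_congr rfl
  intro r hr
  have hr' : r ≤ n := by
    have := Finset.mem_range.mp hr
    omega
  have e1 : Q * (C ((n.choose r : ℕ) : ℤ) * (G ^ r * (1 + X) ^ d * X ^ (4 * (n - r)))) =
      C ((n.choose r : ℕ) : ℤ) * (Q * G ^ r * (1 + X) ^ d * X ^ (4 * (n - r))) := by ring
  have e2 : 4 * n + d = (4 * r + d) + 4 * (n - r) := by omega
  rw [e1, coeff_C_mul, e2, coeff_mul_X_pow, sec, coeff_mk, coeff_one_add_X_pow,
    Nat.choose_symm hr', mul_comm]

/-- coefficients of a product with an expanded series -/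
theorem coeff_mul_E (b : ℕ) [NeZero b] (f g : PowerSeries ℤ) (n d : ℕ) (hd : d < b) :
    coeff (b * n + d) (f * E b g) = coeff n (mk (fun i => coeff (b * i + d) f) * g) := by
  have hb : 0 < b := by omega
  rw [coeff_mul, coeff_mul]
  symm
  apply Finset.sum_bij_ne_zero (fun p _ _ => (b * p.1 + d, b * p.2))
  · intro p hp _
    rw [Finset.HasAntidiagonal.mem_antidiagonal] at hp ⊢
    rw [← hp]
    ring
  · intro p hp _ q hq _ h
    rw [Prod.mk.injEq] at h
    have h1 : p.1 = q.1 := by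
      have := h.1
      exact Nat.eq_of_mul_eq_mul_left hb (by omega)
    have h2 : p.2 = q.2 := Nat.eq_of_mul_eq_mul_left hb h.2
    exact Prod.ext h1 h2
  · intro q hq hne
    rw [Finset.HasAntidiagonal.mem_antidiagonal] at hq
    have hq2 : b ∣ q.2 := by
      by_contra h
      apply hne
      rw [coeff_E, if_neg h, mul_zero]
    obtain ⟨j, hj⟩ := hq2
    have hjn : j ≤ n := by
      by_contra h
      have h2 : b * (n + 1) ≤ b * j := Nat.mul_le_mul_left b (by omega)
      rw [mul_add, mul_one] at h2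
      omega
    have hq1 : q.1 = b * (n - j) + d := by
      have : b * n = b * (n - j) + b * j := by rw [← mul_add]; congr 1; omega
      omega
    refine ⟨(n - j, j), ?_, ?_, ?_⟩
    · rw [Finset.HasAntidiagonal.mem_antidiagonal]; omega
    · rw [coeff_mk]
      have h3 : coeff q.2 (E b g) = coeff j g := by
        rw [coeff_E, hj, if_pos (dvd_mul_right b j), Nat.mul_div_cancel_left j hb]
      rw [← h3]
      rw [← hq1]
      exact hne
    · exact Prod.ext hq1.symm hj.symm
  · intro p hp _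
    rw [coeff_mk, coeff_E, if_pos (dvd_mul_right b p.2), Nat.mul_div_cancel_left p.2 hb]

/-- the section operator for `V A * g` -/
noncomputable def T (m d : ℕ) (A : PowerSeries ℤ) : PowerSeries ℤ := sec d (G ^ m * A)

theorem coeff_T (m d r : ℕ) (A : PowerSeries ℤ) :
    coeff r (T m d A) = coeff (4 * r + d) (A * G ^ (m + r) * (1 + X) ^ d) := by
  have e : G ^ m * A * G ^ r * (1 + X) ^ d = A * G ^ (m + r) * (1 + X) ^ d := by
    rw [pow_add]; ring
  rw [T, sec, coeff_mk, e]

theorem rec_T (m : ℕ) (g : PowerSeries ℤ) (hg : g = (U ^ 4 * (1 - X ^ 4)) ^ m * E 4 g)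
    (A : PowerSeries ℤ) (n d : ℕ) (hd : d < 4) :
    coeff (4 * n + d) (V A * g) = coeff n (V (T m d A) * g) := by
  have h1 : V A * g = V (G ^ m * A) * E 4 g := by
    conv_lhs => rw [hg]
    rw [V_Gpow_mul]
    ring
  rw [h1, coeff_mul_E 4 _ _ n d hd]
  congr 2
  ext i
  rw [coeff_mk, coeff_V, coeff_V, F_sec, T]

/-- `1/(1+z)` -/
noncomputable def A0 : PowerSeries ℤ := mk fun n => (-1) ^ n

theorem A0_mul : A0 * (1 + X) = 1 := by
  ext n
  rw [mul_add, mul_one, map_add]
  rcases Nat.eq_zero_or_pos n with rfl | hn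
  · simp [A0]
  · obtain ⟨k, rfl⟩ : ∃ k, n = k + 1 := ⟨n - 1, by omega⟩
    rw [coeff_succ_mul_X, A0, coeff_mk, coeff_mk, coeff_one, if_neg (by omega), pow_succ]
    ring

theorem V_A0 : V A0 = 1 := by
  ext n
  rw [coeff_V, F]
  rcases Nat.eq_zero_or_pos n with rfl | hn
  · simp [A0]
  · obtain ⟨k, rfl⟩ : ∃ k, n = k + 1 := ⟨n - 1, by omega⟩
    have e : A0 * (1 + X) ^ (k + 1) = (1 + X) ^ k := by
      rw [pow_succ, mul_comm ((1 + X) ^ k) (1 + X), ← mul_assoc, A0_mul, one_mul]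
    rw [e, coeff_one_add_X_pow, Nat.choose_succ_self, coeff_one, if_neg (by omega)]
    rfl

/-- `A` describes the numbers with index `4^k n + r` -/
def Reach (g : PowerSeries ℤ) (k r : ℕ) (A : PowerSeries ℤ) : Prop :=
  ∀ n, coeff (4 ^ k * n + r) g = coeff n (V A * g)

theorem reach_zero (g : PowerSeries ℤ) : Reach g 0 0 A0 := by
  intro n
  rw [V_A0, one_mul, pow_zero, one_mul, add_zero]

theorem reach_step (m : ℕ) (g : PowerSeries ℤ) (hg : g = (U ^ 4 * (1 - X ^ 4)) ^ m * E 4 g)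
    (k r d : ℕ) (hd : d < 4) (A : PowerSeries ℤ) (h : Reach g k r A) :
    Reach g (k + 1) (4 ^ k * d + r) (T m d A) := by
  intro n
  have e : 4 ^ (k + 1) * n + (4 ^ k * d + r) = 4 ^ k * (4 * n + d) + r := by ring
  rw [← rec_T m g hg A n d hd, ← h (4 * n + d), e]

theorem reach_const (g : PowerSeries ℤ) (h0 : coeff 0 g = 1) (k r : ℕ) (A : PowerSeries ℤ)
    (h : Reach g k r A) : coeff r g = coeff 0 A := by
  have := h 0
  rw [mul_zero, zero_add, coeff_zero_eq_constantCoeff_apply, map_mul,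
    ← coeff_zero_eq_constantCoeff_apply, ← coeff_zero_eq_constantCoeff_apply, h0, mul_one,
    coeff_V, F, pow_zero, mul_one] at this
  exact this

end Pool.Agent.Q40.CK
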