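import Mathlib
import Pool.Agent.Q40.CK.Base

/-!
Divisibility estimates for the operator `T` and the step along a 2-adic root.
-/

namespace Pool.Agent.Q40.CK

open PowerSeries Pool.Agent.Q35

/-- a polynomial given by the list of its coefficients -/
noncomputable def toS : List ℤ → PowerSeries ℤ
  | [] => 0
  | a :: l => C a + X * toS l

theorem coeff_toS (l : List ℤ) : ∀ i, coeff i (toS l) = l.getD i 0 := by
  induction l with
  | nil => intro i; simp [toS]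
  | cons a l ih =>
    intro i
    rw [toS, map_add]
    cases i with
    | zero => simp
    | succ i =>
      rw [coeff_succ_X_mul, ih, coeff_C, if_neg (Nat.succ_ne_zero i), zero_add,
        List.getD_cons_succ]

/-- `2^(⌈i/2⌉ + c)` divides the `i`-th coefficient -/
def Hf (c : ℕ) (A : PowerSeries ℤ) : Prop := ∀ i, (2 : ℤ) ^ ((i + 1) / 2 + c) ∣ coeff i A

theorem Hf.mul {c d : ℕ} {A B : PowerSeries ℤ} (hA : Hf c A) (hB : Hf d B) : Hf (c + d) (A * B) := by
  intro n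
  rw [coeff_mul]
  apply Finset.dvd_sum
  intro p hp
  rw [Finset.HasAntidiagonal.mem_antidiagonal] at hp
  refine dvd_trans ?_ (mul_dvd_mul (hA p.1) (hB p.2))
  rw [← pow_add]
  apply pow_dvd_pow
  omega

theorem G_toS : G = toS [1, 4, 6, 4] := by
  simp only [toS, G]
  have h4 : (C 4 : PowerSeries ℤ) = 4 := rfl
  have h6 : (C 6 : PowerSeries ℤ) = 6 := rfl
  rw [h4, h6, map_one]
  ring

theorem Hf_G : Hf 0 G := by
  intro i
  rw [G_toS, coeff_toS]
  rcases lt_or_ge i 4 with h | h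
  · interval_cases i <;> simp
  · rw [List.getD_eq_default _ _ (by simpa using h)]
    exact dvd_zero _

theorem Hf_one : Hf 0 1 := by
  intro i
  rw [coeff_one]
  split_ifs with h
  · subst h; norm_num
  · exact dvd_zero _

theorem Hf_Gpow (e : ℕ) : Hf 0 (G ^ e) := by
  induction e with
  | zero => rw [pow_zero]; exact Hf_one
  | succ e ih =>
    rw [pow_succ]
    exact ih.mul Hf_G

/-- multiplication by `(1+X)^d` shifts divisibility by `d` -/
theorem dvd_one_add (t : ℤ) (B : PowerSeries ℤ) (N d : ℕ) (h : ∀ i, N ≤ i → t ∣ coeff i B) :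
    ∀ i, N + d ≤ i → t ∣ coeff i (B * (1 + X) ^ d) := by
  induction d with
  | zero => intro i hi; rw [pow_zero, mul_one]; exact h i (by omega)
  | succ d ih =>
    intro i hi
    obtain ⟨k, rfl⟩ : ∃ k, i = k + 1 := ⟨i - 1, by omega⟩
    rw [pow_succ, ← mul_assoc, mul_add, mul_one, map_add, coeff_succ_mul_X]
    exact dvd_add (ih (k + 1) (by omega)) (ih k (by omega))

/-- the set of states along the root -/
def Sig (A : PowerSeries ℤ) : Prop :=
  coeff 1 A % 2 = 1 ∧ ∀ j, 2 ≤ j → (2 : ℤ) ^ ((j + 1) / 2 + 1) ∣ coeff j A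

theorem G_four : G ^ 4 = 1 + C 8 * toS [0, 2, 15, 70, 227, 540, 968, 1320, 1362, 1040, 560, 192, 32] := by
  have h8 : (C 8 : PowerSeries ℤ) = 8 := rfl
  simp only [toS, G, eq_intCast, h8]
  push_cast
  ring

theorem G_two : G ^ 2 = 1 + C 4 * toS [0, 2, 7, 14, 17, 12, 4] := by
  have h8 : (C 4 : PowerSeries ℤ) = 4 := rfl
  simp only [toS, G, eq_intCast, h8]
  push_cast
  ring

theorem G_three_zero : G ^ 3 * (1 + X) ^ 0 = toS [1, 12, 66, 220, 492, 768, 840, 624, 288, 64] := by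
  simp only [toS, G, eq_intCast]
  push_cast
  ring

theorem G_three_one : G ^ 3 * (1 + X) ^ 1 = toS [1, 13, 78, 286, 712, 1260, 1608, 1464, 912, 352, 64] := by
  simp only [toS, G, eq_intCast]
  push_cast
  ring

theorem G_three_two : G ^ 3 * (1 + X) ^ 2 = toS [1, 14, 91, 364, 998, 1972, 2868, 3072, 2376, 1264, 416, 64] := by
  simp only [toS, G, eq_intCast]
  push_cast
  ring

theorem G_three_three : G ^ 3 * (1 + X) ^ 3 = toS [1, 15, 105, 455, 1362, 2970, 4840, 5940, 5448, 3640, 1680, 480, 64] := by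
  simp only [toS, G, eq_intCast]
  push_cast
  ring

/-- powers of `1 + c K` -/
theorem one_add_pow_form (c : ℤ) (K : PowerSeries ℤ) (s : ℕ) :
    ∃ K', (1 + C c * K) ^ s = 1 + C c * K' := by
  induction s with
  | zero => exact ⟨0, by simp⟩
  | succ s ih =>
    obtain ⟨K', hK⟩ := ih
    refine ⟨K' + K + C c * K' * K, ?_⟩
    rw [pow_succ, hK]
    ring

theorem G_even (m : ℕ) (hm : m % 2 = 0) : ∃ K, G ^ m = 1 + C 4 * K := by
  obtain ⟨s, rfl⟩ : ∃ s, m = 2 * s := ⟨m / 2, by omega⟩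
  rw [pow_mul, G_two]
  exact one_add_pow_form 4 _ s

theorem G_three_mod (m : ℕ) (hm : m % 4 = 3) : ∃ K, G ^ m = G ^ 3 + C 8 * K := by
  obtain ⟨s, rfl⟩ : ∃ s, m = 4 * s + 3 := ⟨m / 4, by omega⟩
  obtain ⟨K, hK⟩ := one_add_pow_form 8 (toS [0, 2, 15, 70, 227, 540, 968, 1320, 1362, 1040, 560, 192, 32]) s
  refine ⟨K * G ^ 3, ?_⟩
  rw [pow_add, pow_mul, G_four, hK]
  ring

/-- decomposition of a series -/
theorem decomp (A : PowerSeries ℤ) : ∃ A2 : PowerSeries ℤ,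
    A = C (coeff 0 A) + C (coeff 1 A) * X + A2 ∧ coeff 0 A2 = 0 ∧ coeff 1 A2 = 0 ∧
      ∀ j, 2 ≤ j → coeff j A2 = coeff j A := by
  refine ⟨A - C (coeff 0 A) - C (coeff 1 A) * X, by ring, ?_, ?_, ?_⟩
  · simp
  · rw [map_sub, map_sub, coeff_C, if_neg (by norm_num), coeff_C_mul, coeff_one_X]
    ring
  · intro j hj
    rw [map_sub, map_sub, coeff_C, if_neg (by omega), coeff_C_mul, coeff_X, if_neg (by omega)]
    ring

/-- the coefficients of `T m d A` for `A` with good higher coefficients -/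
theorem coeff_T_form (m d r : ℕ) (hr : 1 ≤ r) (A : PowerSeries ℤ)
    (hA : ∀ j, 2 ≤ j → (2 : ℤ) ^ ((j + 1) / 2 + 1) ∣ coeff j A) :
    ∃ k : ℤ, coeff r (T m d A) = coeff 0 A * coeff (4 * r + d) (G ^ (m + r) * (1 + X) ^ d) +
      coeff 1 A * coeff (4 * r + d - 1) (G ^ (m + r) * (1 + X) ^ d) + 2 ^ (2 * r + 1) * k := by
  obtain ⟨A2, hA2, h0, h1, h2⟩ := decomp A
  have hHf : Hf 1 A2 := by
    intro j
    rcases Nat.lt_or_ge j 2 with h | h
    · interval_cases j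
      · rw [h0]; exact dvd_zero _
      · rw [h1]; exact dvd_zero _
    · rw [h2 j h]; exact hA j h
  have h3 : (2 : ℤ) ^ (2 * r + 1) ∣ coeff (4 * r + d) (A2 * G ^ (m + r) * (1 + X) ^ d) := by
    apply dvd_one_add _ _ (4 * r) d _ _ le_rfl
    intro i hi
    refine dvd_trans (pow_dvd_pow 2 ?_) ((hHf.mul (Hf_Gpow (m + r))) i)
    omega
  obtain ⟨k, hk⟩ := h3
  refine ⟨k, ?_⟩
  rw [← hk, coeff_T]
  have e : A * G ^ (m + r) * (1 + X) ^ d = C (coeff 0 A) * (G ^ (m + r) * (1 + X) ^ d) +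
      C (coeff 1 A) * (X * (G ^ (m + r) * (1 + X) ^ d)) + A2 * G ^ (m + r) * (1 + X) ^ d := by
    conv_lhs => rw [hA2]
    ring
  rw [e, map_add, map_add, coeff_C_mul, coeff_C_mul]
  obtain ⟨l, hl⟩ : ∃ l, 4 * r + d = l + 1 := ⟨4 * r + d - 1, by omega⟩
  rw [hl, coeff_succ_X_mul, Nat.add_sub_cancel]

/-- coefficient estimate -/
theorem dvd_Gpow (e d r : ℕ) (hr : 1 ≤ r) :
    (2 : ℤ) ^ (2 * r) ∣ coeff (4 * r + d) (G ^ e * (1 + X) ^ d) ∧
    (2 : ℤ) ^ (2 * r) ∣ coeff (4 * r + d - 1) (G ^ e * (1 + X) ^ d) := by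
  constructor
  · apply dvd_one_add _ _ (4 * r) d _ _ le_rfl
    intro i hi
    refine dvd_trans (pow_dvd_pow 2 ?_) (Hf_Gpow e i)
    omega
  · apply dvd_one_add _ _ (4 * r - 1) d _ _ (by omega)
    intro i hi
    refine dvd_trans (pow_dvd_pow 2 ?_) (Hf_Gpow e i)
    omega

/-- the constants modulo `8` -/
theorem consts (m d : ℕ) (hm : m % 4 = 3) (hd : d < 4) : ∃ k l : ℤ,
    coeff (4 * 1 + d) (G ^ m * (1 + X) ^ d) = 4 + 8 * k ∧
    coeff (4 * 1 + d - 1) (G ^ m * (1 + X) ^ d) = (if d % 2 = 0 then 4 else 0) + 8 * l := by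
  obtain ⟨K, hK⟩ := G_three_mod m hm
  have e : G ^ m * (1 + X) ^ d = G ^ 3 * (1 + X) ^ d + C 8 * (K * (1 + X) ^ d) := by
    rw [hK]; ring
  have h1 : ∃ k l : ℤ, coeff (4 * 1 + d) (G ^ 3 * (1 + X) ^ d) = 4 + 8 * k ∧
    coeff (4 * 1 + d - 1) (G ^ 3 * (1 + X) ^ d) = (if d % 2 = 0 then 4 else 0) + 8 * l := by
    interval_cases d
    · rw [G_three_zero, coeff_toS, coeff_toS]
      exact ⟨61, 27, by simp, by simp⟩
    · rw [G_three_one, coeff_toS, coeff_toS]
      exact ⟨157, 89, by simp, by simp⟩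
    · rw [G_three_two, coeff_toS, coeff_toS]
      exact ⟨358, 246, by simp, by simp⟩
    · rw [G_three_three, coeff_toS, coeff_toS]
      exact ⟨742, 605, by simp, by simp⟩
  obtain ⟨k, l, hk, hl⟩ := h1
  refine ⟨k + coeff (4 * 1 + d) (K * (1 + X) ^ d), l + coeff (4 * 1 + d - 1) (K * (1 + X) ^ d),
    ?_, ?_⟩
  · rw [e, map_add, coeff_C_mul, hk]; ring
  · rw [e, map_add, coeff_C_mul, hl]; ring

/-- the constant term modulo `4` -/
theorem coeff_zero_T (m d : ℕ) (hm : m % 2 = 0) (hd : d < 4) (A : PowerSeries ℤ)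
    (hA : ∀ j, 2 ≤ j → (2 : ℤ) ^ ((j + 1) / 2 + 1) ∣ coeff j A) :
    ∃ k : ℤ, coeff 0 (T m d A) = coeff 0 A + d * coeff 1 A + 4 * k := by
  obtain ⟨K, hK⟩ := G_even m hm
  have e : A * G ^ (m + 0) * (1 + X) ^ d = A * (1 + X) ^ d + C 4 * (A * K * (1 + X) ^ d) := by
    rw [add_zero, hK]; ring
  rw [coeff_T, e, map_add, coeff_C_mul, Nat.mul_zero, Nat.zero_add]
  have h2 : ∃ k : ℤ, coeff 2 A = 4 * k := by
    obtain ⟨k, hk⟩ := hA 2 le_rfl
    exact ⟨k, by rw [hk]; norm_num⟩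
  have h3 : ∃ k : ℤ, coeff 3 A = 4 * k := by
    obtain ⟨k, hk⟩ := hA 3 (by norm_num)
    exact ⟨2 * k, by rw [hk]; norm_num; ring⟩
  obtain ⟨k2, h2⟩ := h2
  obtain ⟨k3, h3⟩ := h3
  have hX : ∀ (B : PowerSeries ℤ) (n : ℕ), coeff (n + 1) (B * (1 + X)) =
      coeff (n + 1) B + coeff n B := by
    intro B n
    rw [mul_add, mul_one, map_add, coeff_succ_mul_X]
  have hX0 : ∀ (B : PowerSeries ℤ), coeff 0 (B * (1 + X)) = coeff 0 B := by
    intro B
    rw [mul_add, mul_one, map_add]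
    simp
  have main : ∃ k : ℤ, coeff d (A * (1 + X) ^ d) = coeff 0 A + d * coeff 1 A + 4 * k := by
    interval_cases d
    · exact ⟨0, by simp⟩
    · refine ⟨0, ?_⟩
      rw [pow_one, hX A 0]
      push_cast
      ring
    · refine ⟨k2, ?_⟩
      rw [pow_succ, pow_one, ← mul_assoc, hX _ 1, hX A 1, hX A 0]
      norm_num
      linarith
    · refine ⟨k3 + 3 * k2, ?_⟩
      have e1 : coeff 3 (A * (1 + X) * (1 + X) * (1 + X)) = coeff 3 (A * (1 + X) * (1 + X)) +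
        coeff 2 (A * (1 + X) * (1 + X)) := hX _ 2
      have e2 : coeff 3 (A * (1 + X) * (1 + X)) = coeff 3 (A * (1 + X)) +
        coeff 2 (A * (1 + X)) := hX _ 2
      have e3 : coeff 2 (A * (1 + X) * (1 + X)) = coeff 2 (A * (1 + X)) +
        coeff 1 (A * (1 + X)) := hX _ 1
      have e4 : coeff 3 (A * (1 + X)) = coeff 3 A + coeff 2 A := hX _ 2
      have e5 : coeff 2 (A * (1 + X)) = coeff 2 A + coeff 1 A := hX _ 1
      have e6 : coeff 1 (A * (1 + X)) = coeff 1 A + coeff 0 A := hX _ 0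
      have e7 : A * (1 + X) ^ 3 = A * (1 + X) * (1 + X) * (1 + X) := by ring
      rw [e7]
      push_cast
      linarith
  obtain ⟨k, hk⟩ := main
  exact ⟨k + coeff d (A * K * (1 + X) ^ d), by rw [hk]; ring⟩

/-- the choice of the digit -/
theorem exists_digit (a b : ℤ) (hb : b % 2 = 1) : ∃ d : ℕ, d < 4 ∧ (a + d * b) % 4 = 0 := by
  have h : (a % 4 = 0 ∨ a % 4 = 1 ∨ a % 4 = 2 ∨ a % 4 = 3) ∧ (b % 4 = 1 ∨ b % 4 = 3) := by omega
  rcases h with ⟨h1 | h1 | h1 | h1, h2 | h2⟩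
  · exact ⟨0, by norm_num, by push_cast; omega⟩
  · exact ⟨0, by norm_num, by push_cast; omega⟩
  · exact ⟨3, by norm_num, by push_cast; omega⟩
  · exact ⟨1, by norm_num, by push_cast; omega⟩
  · exact ⟨2, by norm_num, by push_cast; omega⟩
  · exact ⟨2, by norm_num, by push_cast; omega⟩
  · exact ⟨1, by norm_num, by push_cast; omega⟩
  · exact ⟨3, by norm_num, by push_cast; omega⟩

/-- one step along the root -/
theorem step_root (m : ℕ) (hm : m % 4 = 2) (A : PowerSeries ℤ) (hA : Sig A) :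
    ∃ d : ℕ, d < 4 ∧ ∃ A' : PowerSeries ℤ, T m d A = C 4 * A' ∧ Sig A' := by
  obtain ⟨h1, hA2⟩ := hA
  obtain ⟨d, hd, hd2⟩ := exists_digit (coeff 0 A) (coeff 1 A) h1
  refine ⟨d, hd, ?_⟩
  obtain ⟨k0, hk0⟩ := coeff_zero_T m d (by omega) hd A hA2
  obtain ⟨k1, hk1⟩ := coeff_T_form m d 1 le_rfl A hA2
  obtain ⟨p, q, hp, hq⟩ := consts (m + 1) d (by omega) hd
  have hdiv : ∀ r, 1 ≤ r → (2 : ℤ) ^ (2 * r) ∣ coeff r (T m d A) := by
    intro r hr
    obtain ⟨k, hk⟩ := coeff_T_form m d r hr A hA2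
    obtain ⟨e1, e2⟩ := dvd_Gpow (m + r) d r hr
    rw [hk]
    refine dvd_add (dvd_add (dvd_mul_of_dvd_right e1 _) (dvd_mul_of_dvd_right e2 _)) ?_
    exact dvd_mul_of_dvd_left (pow_dvd_pow 2 (by omega)) k
  have h4 : ∀ r, (4 : ℤ) ∣ coeff r (T m d A) := by
    intro r
    rcases Nat.eq_zero_or_pos r with rfl | hr
    · rw [hk0]
      apply Int.dvd_of_emod_eq_zero
      omega
    · refine dvd_trans ?_ (hdiv r hr)
      have : (4 : ℤ) = 2 ^ 2 := by norm_num
      rw [this]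
      exact pow_dvd_pow 2 (by omega)
  choose f hf using h4
  refine ⟨mk f, ?_, ?_, ?_⟩
  · ext r
    rw [coeff_C_mul, coeff_mk, hf]
  · rw [coeff_mk]
    have e : 4 * f 1 = coeff 0 A * (4 + 8 * p) + coeff 1 A * ((if d % 2 = 0 then 4 else 0) + 8 * q) +
        2 ^ (2 * 1 + 1) * k1 := by
      rw [← hf 1, hk1, hp, hq]
    have e8 : (2 : ℤ) ^ (2 * 1 + 1) = 8 := by norm_num
    rw [e8] at e
    by_cases hpar : d % 2 = 0
    · rw [if_pos hpar] at e
      have h5 : f 1 = coeff 0 A + coeff 1 A + 2 * (coeff 0 A * p + coeff 1 A * q + k1) := by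
        linarith
      have h6 : (coeff 0 A) % 2 = 0 := by
        obtain ⟨s, hs⟩ : ∃ s, d = 2 * s := ⟨d / 2, by omega⟩
        rw [hs] at hd2
        push_cast at hd2
        have : (coeff 0 A + 2 * (s : ℤ) * coeff 1 A) = coeff 0 A + 2 * ((s : ℤ) * coeff 1 A) := by
          ring
        rw [this] at hd2
        omega
      rw [h5]
      omega
    · rw [if_neg hpar] at e
      have h5 : f 1 = coeff 0 A + 2 * (coeff 0 A * p + coeff 1 A * q + k1) := by
        linarith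
      have h6 : (coeff 0 A) % 2 = 1 := by
        obtain ⟨s, hs⟩ : ∃ s, d = 2 * s + 1 := ⟨d / 2, by omega⟩
        rw [hs] at hd2
        push_cast at hd2
        have : (coeff 0 A + (2 * (s : ℤ) + 1) * coeff 1 A) =
            coeff 0 A + coeff 1 A + 2 * ((s : ℤ) * coeff 1 A) := by
          ring
        rw [this] at hd2
        omega
      rw [h5]
      omega
  · intro j hj
    rw [coeff_mk]
    have e1 := hdiv j (by omega)
    rw [hf j] at e1
    have e2 : (2 : ℤ) ^ (2 * j) = 4 * 2 ^ (2 * j - 2) := by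
      have : 2 * j = (2 * j - 2) + 2 := by omega
      conv_lhs => rw [this, pow_add]
      ring
    rw [e2] at e1
    have e3 := (mul_dvd_mul_iff_left (by norm_num : (4 : ℤ) ≠ 0)).mp e1
    exact dvd_trans (pow_dvd_pow 2 (by omega)) e3

/-- the values along the root -/
theorem root_values (m : ℕ) (hm : m % 4 = 2) (g : PowerSeries ℤ)
    (hg : g = (U ^ 4 * (1 - X ^ 4)) ^ m * E 4 g) (c k r : ℕ)
    (A : PowerSeries ℤ) (hA : Sig A) (hR : Reach g k r (C (2 ^ c) * A)) (t : ℕ) :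
    ∃ k' r' : ℕ, ∃ A' : PowerSeries ℤ, Sig A' ∧ Reach g k' r' (C (2 ^ (c + 2 * t)) * A') := by
  induction t with
  | zero => exact ⟨k, r, A, hA, hR⟩
  | succ t ih =>
    obtain ⟨k', r', A', hA', hR'⟩ := ih
    obtain ⟨d, hd, A'', hA'', hS⟩ := step_root m hm A' hA'
    refine ⟨k' + 1, 4 ^ k' * d + r', A'', hS, ?_⟩
    have h := reach_step m g hg k' r' d hd _ hR'
    have e : T m d (C (2 ^ (c + 2 * t)) * A') = C (2 ^ (c + 2 * (t + 1))) * A'' := by
      have e1 : T m d (C (2 ^ (c + 2 * t)) * A') = C (2 ^ (c + 2 * t)) * T m d A' := by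
        ext i
        rw [coeff_C_mul, coeff_T, coeff_T, mul_assoc, mul_assoc, coeff_C_mul, mul_assoc]
      rw [e1, hA'', ← mul_assoc, ← map_mul]
      congr 2
      ring
    rw [e] at h
    exact h

end Pool.Agent.Q40.CK
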