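import Mathlib
import Pool.Agent.Q40.CK.Base
import Pool.Agent.Q40.CK.Step

/-!
Base two: sections of `V A * g`, where `g` is the generating function of the numbers `S 2 m n`.
-/

namespace Pool.Agent.Q40.CK.Two

open PowerSeries Pool.Agent.Q35 Pool.Agent.Q40.CK

/-- `(1+z)^2 - z^2` -/
noncomputable def G : PowerSeries ℤ := 1 + 2 * X

theorem G_eq : (1 + X : PowerSeries ℤ) ^ 2 = X ^ 2 + G := by
  rw [G]; ring

theorem V_G_mul (A : PowerSeries ℤ) : V (G * A) = U ^ 2 * (1 - X ^ 2) * V A := by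
  have e : G * A = A + 2 * (X ^ 1 * A) := by rw [G]; ring
  rw [e, V_add, V_ofNat_mul, V_X_pow_mul]
  have h2 : (1 + 2 * (X * U) : PowerSeries ℤ) = U ^ 2 * (1 - X ^ 2) := by
    have h3 := U_mul (R := ℤ)
    linear_combination (-(U * (1 + X) + 1)) * h3
  rw [← h2]
  ring

theorem V_Gpow_mul (m : ℕ) (A : PowerSeries ℤ) :
    V (G ^ m * A) = (U ^ 2 * (1 - X ^ 2)) ^ m * V A := by
  induction m with
  | zero => simp
  | succ m ih =>
    have e : G ^ (m + 1) * A = G * (G ^ m * A) := by ring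
    rw [e, V_G_mul, ih]
    ring

/-- section operator on coefficient data -/
noncomputable def sec (d : ℕ) (Q : PowerSeries ℤ) : PowerSeries ℤ :=
  mk fun r => coeff (2 * r + d) (Q * G ^ r * (1 + X) ^ d)

theorem F_sec (Q : PowerSeries ℤ) (n d : ℕ) : F Q (2 * n + d) = F (sec d Q) n := by
  have h1 : (1 + X : PowerSeries ℤ) ^ (2 * n + d) =
      ∑ r ∈ Finset.range (n + 1), C ((n.choose r : ℕ) : ℤ) *
        (G ^ r * (1 + X) ^ d * X ^ (2 * (n - r))) := by
    rw [pow_add, pow_mul, G_eq, add_comm (X ^ 2) G, add_pow, Finset.sum_mul]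
    apply Finset.sum_congr rfl
    intro r _
    rw [← pow_mul]
    have : ((n.choose r : ℕ) : PowerSeries ℤ) = C ((n.choose r : ℕ) : ℤ) := by
      rw [map_natCast]
    rw [this]
    ring
  rw [F, h1, Finset.mul_sum, map_sum, F, coeff_mul, Finset.Nat.sum_antidiagonal_eq_sum_range_succ
    (fun i j => coeff i (sec d Q) * coeff j ((1 + X : PowerSeries ℤ) ^ n))]
  apply Finset.sum_congr rfl
  intro r hr
  have hr' : r ≤ n := by
    have := Finset.mem_range.mp hr
    omega
  have e1 : Q * (C ((n.choose r : ℕ) : ℤ) * (G ^ r * (1 + X) ^ d * X ^ (2 * (n - r)))) =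
      C ((n.choose r : ℕ) : ℤ) * (Q * G ^ r * (1 + X) ^ d * X ^ (2 * (n - r))) := by ring
  have e2 : 2 * n + d = (2 * r + d) + 2 * (n - r) := by omega
  rw [e1, coeff_C_mul, e2, coeff_mul_X_pow, sec, coeff_mk, coeff_one_add_X_pow,
    Nat.choose_symm hr', mul_comm]

/-- the section operator for `V A * g` -/
noncomputable def T (m d : ℕ) (A : PowerSeries ℤ) : PowerSeries ℤ := sec d (G ^ m * A)

theorem coeff_T (m d r : ℕ) (A : PowerSeries ℤ) :
    coeff r (T m d A) = coeff (2 * r + d) (A * G ^ (m + r) * (1 + X) ^ d) := by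
  have e : G ^ m * A * G ^ r * (1 + X) ^ d = A * G ^ (m + r) * (1 + X) ^ d := by
    rw [pow_add]; ring
  rw [T, sec, coeff_mk, e]

theorem rec_T (m : ℕ) (g : PowerSeries ℤ) (hg : g = (U ^ 2 * (1 - X ^ 2)) ^ m * E 2 g)
    (A : PowerSeries ℤ) (n d : ℕ) (hd : d < 2) :
    coeff (2 * n + d) (V A * g) = coeff n (V (T m d A) * g) := by
  have h1 : V A * g = V (G ^ m * A) * E 2 g := by
    conv_lhs => rw [hg]
    rw [V_Gpow_mul]
    ring
  rw [h1, coeff_mul_E 2 _ _ n d hd]
  congr 2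
  ext i
  rw [coeff_mk, coeff_V, coeff_V, F_sec, T]

/-- `A` describes the numbers with index `2^k n + r` -/
def Reach (g : PowerSeries ℤ) (k r : ℕ) (A : PowerSeries ℤ) : Prop :=
  ∀ n, coeff (2 ^ k * n + r) g = coeff n (V A * g)

theorem reach_zero (g : PowerSeries ℤ) : Reach g 0 0 A0 := by
  intro n
  rw [V_A0, one_mul, pow_zero, one_mul, add_zero]

theorem reach_step (m : ℕ) (g : PowerSeries ℤ) (hg : g = (U ^ 2 * (1 - X ^ 2)) ^ m * E 2 g)
    (k r d : ℕ) (hd : d < 2) (A : PowerSeries ℤ) (h : Reach g k r A) :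
    Reach g (k + 1) (2 ^ k * d + r) (T m d A) := by
  intro n
  have e : 2 ^ (k + 1) * n + (2 ^ k * d + r) = 2 ^ k * (2 * n + d) + r := by ring
  rw [← rec_T m g hg A n d hd, ← h (2 * n + d), e]

theorem reach_const (g : PowerSeries ℤ) (h0 : coeff 0 g = 1) (k r : ℕ) (A : PowerSeries ℤ)
    (h : Reach g k r A) : coeff r g = coeff 0 A := by
  have := h 0
  rw [mul_zero, zero_add, coeff_zero_eq_constantCoeff_apply, map_mul,
    ← coeff_zero_eq_constantCoeff_apply, ← coeff_zero_eq_constantCoeff_apply, h0, mul_one,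
    coeff_V, F, pow_zero, mul_one] at this
  exact this

/-! ### divisibility -/

/-- `2^i` divides the `i`-th coefficient -/
def Dv (e : ℕ) (A : PowerSeries ℤ) : Prop := ∀ i, (2 : ℤ) ^ (e + i) ∣ coeff i A

theorem Dv.mul {c d : ℕ} {A B : PowerSeries ℤ} (hA : Dv c A) (hB : Dv d B) :
    Dv (c + d) (A * B) := by
  intro n
  rw [coeff_mul]
  apply Finset.dvd_sum
  intro p hp
  rw [Finset.HasAntidiagonal.mem_antidiagonal] at hp
  refine dvd_trans ?_ (mul_dvd_mul (hA p.1) (hB p.2))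
  rw [← pow_add]
  apply pow_dvd_pow
  omega

theorem Dv_one : Dv 0 1 := by
  intro i
  rw [coeff_one]
  split_ifs with h
  · subst h; norm_num
  · exact dvd_zero _

theorem Dv_G : Dv 0 G := by
  intro i
  have hG : G = toS [1, 2] := by
    simp only [toS, G]
    have h2 : (C 2 : PowerSeries ℤ) = 2 := rfl
    rw [h2, map_one]
    ring
  rw [hG, coeff_toS]
  rcases lt_or_ge i 2 with h | h
  · interval_cases i <;> simp
  · rw [List.getD_eq_default _ _ (by simpa using h)]
    exact dvd_zero _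

theorem Dv_Gpow (e : ℕ) : Dv 0 (G ^ e) := by
  induction e with
  | zero => rw [pow_zero]; exact Dv_one
  | succ e ih =>
    rw [pow_succ]
    exact ih.mul Dv_G

/-- coefficients of `T` -/
theorem T_dvd (m d : ℕ) {e : ℕ} {A : PowerSeries ℤ} (hA : Dv e A) (r : ℕ) :
    (2 : ℤ) ^ (e + 2 * r) ∣ coeff r (T m d A) := by
  rw [coeff_T]
  apply dvd_one_add _ _ (2 * r) d _ _ le_rfl
  intro i hi
  refine dvd_trans (pow_dvd_pow 2 ?_) ((hA.mul (Dv_Gpow (m + r))) i)
  omega

/-- good states -/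
def Good (A : PowerSeries ℤ) : Prop := coeff 0 A % 2 = 1 ∧ Dv 0 A

theorem coeff_zero_G : coeff 0 G = 1 := by
  rw [G]
  simp

theorem Good.T {A : PowerSeries ℤ} (hA : Good A) (m d : ℕ) (hd : d < 2) : Good (T m d A) := by
  refine ⟨?_, fun r => dvd_trans (pow_dvd_pow 2 (by omega)) (T_dvd m d hA.2 r)⟩
  have hc : ∀ k, coeff 0 (A * G ^ k) = coeff 0 A := by
    intro k
    have h1 := coeff_zero_G
    simp only [coeff_zero_eq_constantCoeff_apply, map_mul, map_pow] at h1 ⊢
    rw [h1]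
    ring
  have h1 : (2 : ℤ) ∣ coeff 1 (A * G ^ (m + 0)) := by
    have := (hA.2.mul (Dv_Gpow (m + 0))) 1
    norm_num at this ⊢
    exact this
  rw [coeff_T, mul_zero, zero_add]
  interval_cases d
  · rw [pow_zero, mul_one, hc]
    exact hA.1
  · rw [pow_one, mul_add, mul_one, map_add, show (1 : ℕ) = 0 + 1 from rfl, coeff_succ_mul_X, hc]
    have h2 := hA.1
    obtain ⟨k, hk⟩ := h1
    rw [show (0 + 1 : ℕ) = 1 from rfl, hk]
    omega

/-- nearly proportional states -/
def Pair (e : ℕ) (A B : PowerSeries ℤ) : Prop :=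
  ∀ r, (2 : ℤ) ^ (e + r) ∣ coeff 0 B * coeff (r + 1) A - coeff 0 A * coeff (r + 1) B

theorem Pair_one {A B : PowerSeries ℤ} (hA : Good A) (hB : Good B) : Pair 1 A B := by
  intro r
  have h1 := hA.2 (r + 1)
  have h2 := hB.2 (r + 1)
  have e : 0 + (r + 1) = 1 + r := by ring
  rw [e] at h1 h2
  exact dvd_sub (dvd_mul_of_dvd_right h1 _) (dvd_mul_of_dvd_right h2 _)

theorem T_add (m d : ℕ) (A B : PowerSeries ℤ) : T m d (A + B) = T m d A + T m d B := by
  ext r
  rw [map_add, coeff_T, coeff_T, coeff_T, add_mul, add_mul, map_add]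

theorem T_C_mul (m d : ℕ) (c : ℤ) (A : PowerSeries ℤ) : T m d (C c * A) = C c * T m d A := by
  ext r
  rw [coeff_C_mul, coeff_T, coeff_T, mul_assoc, mul_assoc, coeff_C_mul, mul_assoc]

theorem T_X_dvd (m d e : ℕ) (D : PowerSeries ℤ) (hD : Dv e D) (hd : d < 2) :
    (2 : ℤ) ^ e ∣ coeff 0 (T m d (X * D)) ∧
    ∀ r, 1 ≤ r → (2 : ℤ) ^ (e + 2 * r - 1) ∣ coeff r (T m d (X * D)) := by
  have key : ∀ r, 1 ≤ 2 * r + d → coeff r (T m d (X * D)) =
      coeff (2 * r + d - 1) (D * G ^ (m + r) * (1 + X) ^ d) := by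
    intro r hr
    rw [coeff_T]
    obtain ⟨k, hk⟩ : ∃ k, 2 * r + d = k + 1 := ⟨2 * r + d - 1, by omega⟩
    have e1 : X * D * G ^ (m + r) * (1 + X) ^ d = X * (D * G ^ (m + r) * (1 + X) ^ d) := by ring
    rw [hk, e1, coeff_succ_X_mul, Nat.add_sub_cancel]
  constructor
  · rcases Nat.eq_zero_or_pos d with rfl | h
    · rw [coeff_T]
      have : coeff (2 * 0 + 0) (X * D * G ^ (m + 0) * (1 + X) ^ 0) = 0 := by
        rw [mul_assoc, mul_assoc]
        simp
      rw [this]
      exact dvd_zero _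
    · rw [key 0 (by omega)]
      have : d = 1 := by omega
      subst this
      have h2 : coeff (2 * 0 + 1 - 1) (D * G ^ (m + 0) * (1 + X) ^ 1) = coeff 0 (D * G ^ (m + 0)) := by
        rw [pow_one, mul_add]
        simp
      rw [h2]
      have h3 := (hD.mul (Dv_Gpow (m + 0))) 0
      rw [add_zero, add_zero] at h3
      exact h3
  · intro r hr
    rw [key r (by omega)]
    apply dvd_one_add _ _ (2 * r - 1) d _ _ (by omega)
    intro i hi
    refine dvd_trans (pow_dvd_pow 2 ?_) ((hD.mul (Dv_Gpow (m + r))) i)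
    omega

theorem dvd_of_odd_mul (a x : ℤ) (n : ℕ) (ha : a % 2 = 1) (h : (2 : ℤ) ^ n ∣ a * x) :
    (2 : ℤ) ^ n ∣ x := by
  apply IsCoprime.dvd_of_dvd_mul_left _ h
  apply IsCoprime.pow_left
  rw [Int.isCoprime_iff_gcd_eq_one]
  have h2 : Int.gcd 2 a ∣ 2 := by exact_mod_cast Int.gcd_dvd_left 2 a
  rcases (Nat.dvd_prime Nat.prime_two).mp h2 with h3 | h3
  · exact h3
  · exfalso
    have h4 : (2 : ℤ) ∣ a := by
      have := Int.gcd_dvd_right 2 a
      rw [h3] at this
      exact_mod_cast this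
    omega

/-- the key step: proportionality improves and the ratio of the constants is stable -/
theorem Pair.step {e : ℕ} {A B : PowerSeries ℤ} (h : Pair e A B) (hB : Good B)
    (m d : ℕ) (hd : d < 2) : Pair (e + 1) (T m d A) (T m d B) ∧
      (2 : ℤ) ^ e ∣ coeff 0 (T m d A) * coeff 0 B - coeff 0 A * coeff 0 (T m d B) := by
  -- `D = b_0 A - a_0 B = X D'`
  have hD : ∃ D : PowerSeries ℤ, Dv e D ∧ C (coeff 0 B) * A = C (coeff 0 A) * B + X * D := by
    refine ⟨mk fun r => coeff 0 B * coeff (r + 1) A - coeff 0 A * coeff (r + 1) B, ?_, ?_⟩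
    · intro r
      rw [coeff_mk]
      exact h r
    · ext r
      rw [coeff_C_mul, map_add, coeff_C_mul]
      cases r with
      | zero => rw [coeff_zero_X_mul]; ring
      | succ r => rw [coeff_succ_X_mul, coeff_mk]; ring
  obtain ⟨D, hD1, hD2⟩ := hD
  obtain ⟨t0, t1⟩ := T_X_dvd m d e D hD1 hd
  have hT : C (coeff 0 B) * T m d A = C (coeff 0 A) * T m d B + T m d (X * D) := by
    rw [← T_C_mul, hD2, T_add, T_C_mul]
  have hTc : ∀ r, coeff 0 B * coeff r (T m d A) = coeff 0 A * coeff r (T m d B) +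
      coeff r (T m d (X * D)) := by
    intro r
    have := congrArg (coeff r) hT
    rw [map_add, coeff_C_mul, coeff_C_mul] at this
    exact this
  have hTB : ∀ r, (2 : ℤ) ^ (2 * r) ∣ coeff r (T m d B) := by
    intro r
    have := T_dvd m d hB.2 r
    rwa [zero_add] at this
  refine ⟨?_, ?_⟩
  · intro r
    have h1 := hTc (r + 1)
    have h2 := hTc 0
    -- multiply by `b_0`
    have h3 : coeff 0 B * (coeff 0 (T m d B) * coeff (r + 1) (T m d A) -
        coeff 0 (T m d A) * coeff (r + 1) (T m d B)) =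
        coeff 0 (T m d B) * coeff (r + 1) (T m d (X * D)) -
        coeff 0 (T m d (X * D)) * coeff (r + 1) (T m d B) := by
      linear_combination (coeff 0 (T m d B)) * h1 - (coeff (r + 1) (T m d B)) * h2
    have h4 : (2 : ℤ) ^ (e + 1 + r) ∣ coeff 0 B * (coeff 0 (T m d B) * coeff (r + 1) (T m d A) -
        coeff 0 (T m d A) * coeff (r + 1) (T m d B)) := by
      rw [h3]
      apply dvd_sub
      · exact dvd_mul_of_dvd_right (dvd_trans (pow_dvd_pow 2 (by omega)) (t1 (r + 1) (by omega))) _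
      · refine dvd_trans ?_ (mul_dvd_mul t0 (hTB (r + 1)))
        rw [← pow_add]
        exact pow_dvd_pow 2 (by omega)
    exact dvd_of_odd_mul _ _ _ hB.1 h4
  · have h2 := hTc 0
    have h6 : coeff 0 (T m d A) * coeff 0 B - coeff 0 A * coeff 0 (T m d B) =
        coeff 0 (T m d (X * D)) := by linarith
    rw [h6]
    exact t0

end Pool.Agent.Q40.CK.Two
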