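import Mathlib
import Pool.Agent.Q40.CK.Step

/-!
The initial states modulo `512`.
-/

namespace Pool.Agent.Q40.CK

open PowerSeries Pool.Agent.Q35

/-- the operator `T m 0` in terms of `B = A (1+z)` -/
noncomputable def TB (m : ℕ) (B : PowerSeries ℤ) : PowerSeries ℤ :=
  mk fun r => if r = 0 then coeff 0 B else coeff (4 * r) (B * (1 + X) ^ 3 * G ^ (m + r - 1))

theorem coeff_zero_G : coeff 0 G = 1 := by rw [G_toS, coeff_toS]; rfl

theorem coeff_zero_A0 : coeff 0 A0 = 1 := by rw [A0, coeff_mk, pow_zero]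

theorem T_zero (m : ℕ) (B : PowerSeries ℤ) : T m 0 (A0 * B) = A0 * TB m B := by
  have h : (1 + X) * T m 0 (A0 * B) = TB m B := by
    ext r
    rw [add_mul, one_mul, map_add, TB, coeff_mk]
    rcases Nat.eq_zero_or_pos r with rfl | hr
    · rw [if_pos rfl, coeff_zero_X_mul, add_zero, coeff_T, Nat.mul_zero, Nat.add_zero, pow_zero,
        mul_one]
      simp only [coeff_zero_eq_constantCoeff_apply, map_mul, map_pow]
      have h1 := coeff_zero_G
      have h2 := coeff_zero_A0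
      rw [coeff_zero_eq_constantCoeff_apply] at h1 h2
      rw [h1, h2]
      ring
    · obtain ⟨k, rfl⟩ : ∃ k, r = k + 1 := ⟨r - 1, by omega⟩
      rw [if_neg (by omega), coeff_succ_X_mul, coeff_T, coeff_T]
      have e1 : 4 * (k + 1) + 0 = (4 * k) + 4 := by ring
      have e2 : 4 * (k + 1) = (4 * k) + 4 := by ring
      have e3 : coeff (4 * k + 0) (A0 * B * G ^ (m + k) * (1 + X) ^ 0) =
          coeff (4 * k + 4) (A0 * B * G ^ (m + k) * X ^ 4) := by
        rw [coeff_mul_X_pow, pow_zero, mul_one, add_zero]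
      have e4 : m + (k + 1) - 1 = m + k := by omega
      rw [e3, e1, e2, ← map_add, e4]
      congr 1
      have e5 : (B : PowerSeries ℤ) = (A0 * (1 + X)) * B := by rw [A0_mul, one_mul]
      conv_rhs => rw [e5]
      have e6 := G_eq
      rw [show m + (k + 1) = m + k + 1 from rfl, pow_succ]
      linear_combination (-A0 * B * G ^ (m + k)) * e6
  calc T m 0 (A0 * B) = (A0 * (1 + X)) * T m 0 (A0 * B) := by rw [A0_mul, one_mul]
    _ = _ := by rw [mul_assoc, h]

theorem coeff_T_one (m r : ℕ) (B : PowerSeries ℤ) :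
    coeff r (T m 1 (A0 * B)) = coeff (4 * r + 1) (B * G ^ (m + r)) := by
  rw [coeff_T]
  congr 1
  calc A0 * B * G ^ (m + r) * (1 + X) ^ 1 = (A0 * (1 + X)) * (B * G ^ (m + r)) := by ring
    _ = _ := by rw [A0_mul, one_mul]

theorem TB_dvd (m : ℕ) (B : PowerSeries ℤ) (hB : Hf 0 B) (r : ℕ) (hr : 1 ≤ r) :
    (2 : ℤ) ^ (2 * r - 1) ∣ coeff r (TB m B) := by
  rw [TB, coeff_mk, if_neg (by omega)]
  have e : B * (1 + X) ^ 3 * G ^ (m + r - 1) = B * G ^ (m + r - 1) * (1 + X) ^ 3 := by ring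
  rw [e]
  apply dvd_one_add _ _ (4 * r - 3) 3 _ _ (by omega)
  intro i hi
  refine dvd_trans (pow_dvd_pow 2 ?_) ((hB.mul (Hf_Gpow (m + r - 1))) i)
  omega

theorem TB_Hf (m : ℕ) (B : PowerSeries ℤ) (hB : Hf 0 B) : Hf 0 (TB m B) := by
  intro r
  rcases Nat.eq_zero_or_pos r with rfl | hr
  · norm_num
  · exact dvd_trans (pow_dvd_pow 2 (by omega)) (TB_dvd m B hB r hr)

theorem T_one_dvd (m : ℕ) (B : PowerSeries ℤ) (hB : Hf 0 B) (r : ℕ) :
    (2 : ℤ) ^ (2 * r + 1) ∣ coeff r (T m 1 (A0 * B)) := by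
  rw [coeff_T_one]
  refine dvd_trans (pow_dvd_pow 2 ?_) ((hB.mul (Hf_Gpow (m + r))) (4 * r + 1))
  omega

/-! ### computation modulo 512 -/

/-- multiplication by `1 + p X + q X^2 + r X^3` -/
def mg (p q r : ℕ) : ℕ → ℕ → ℕ → List ℕ → List ℕ
  | _, _, _, [] => []
  | a, b, c, x :: l => ((x + p * a + q * b + r * c) % 512) :: mg p q r x a b l

/-- powers of `G` -/
def pw : ℕ → List ℕ
  | 0 => [1, 0, 0, 0, 0, 0, 0, 0, 0, 0, 0, 0, 0, 0, 0, 0, 0, 0]
  | e + 1 => mg 4 6 4 0 0 0 (pw e)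

/-- `(1+X)^3 G^e` -/
def q3 (e : ℕ) : List ℕ := mg 3 3 1 0 0 0 (pw e)

/-- convolution -/
def cv (B g : List ℕ) (n : ℕ) : ℕ → ℕ
  | 0 => 0
  | k + 1 => cv B g n k + B.getD k 0 * (if k ≤ n then g.getD (n - k) 0 else 0)

/-- `TB` on lists of length `5` -/
def tb (m : ℕ) (B : List ℕ) : List ℕ :=
  [B.getD 0 0, cv B (q3 m) 4 5 % 512, cv B (q3 (m + 1)) 8 5 % 512, cv B (q3 (m + 2)) 12 5 % 512,
    cv B (q3 (m + 3)) 16 5 % 512]

/-- coefficients of `T m 1` -/
def fi (m : ℕ) (B : List ℕ) (r : ℕ) : ℕ := cv B (pw (m + r)) (4 * r + 1) 5 % 512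

/-- the condition on the initial state -/
def gd (m : ℕ) (B : List ℕ) : Bool :=
  fi m B 0 % 64 == 0 && fi m B 1 % 128 == 64 && fi m B 2 % 256 == 0 && fi m B 3 == 0

theorem pw_256 : pw 256 = pw 0 := by decide +kernel

theorem chk1 : ∀ m < 16, gd (16 * m + 14) (tb (16 * m + 14) [1, 0, 0, 0, 0]) = true := by
  decide +kernel

theorem chk2 : ∀ m < 16, gd (16 * m + 6) (tb (16 * m + 6) (tb (16 * m + 6) [1, 0, 0, 0, 0])) =
    true := by
  decide +kernel

theorem mg_length (p q r : ℕ) (l : List ℕ) : ∀ a b c, (mg p q r a b c l).length = l.length := by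
  induction l with
  | nil => intro a b c; rfl
  | cons x l ih => intro a b c; simp [mg, ih]

theorem mg_getD (p q r : ℕ) : ∀ (i : ℕ) (l : List ℕ) (a b c : ℕ), i + 3 < l.length →
    (mg p q r a b c l).getD (i + 3) 0 = (l.getD (i + 3) 0 + p * l.getD (i + 2) 0 +
      q * l.getD (i + 1) 0 + r * l.getD i 0) % 512 := by
  intro i
  induction i with
  | zero =>
    intro l a b c h
    match l, h with
    | x0 :: x1 :: x2 :: x3 :: l, _ => simp [mg]
  | succ i ih =>
    intro l a b c h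
    match l, h with
    | x :: l, h =>
      simp only [mg]
      have := ih l x a b (by rw [List.length_cons] at h; omega)
      rw [show i + 1 + 3 = (i + 3) + 1 from rfl, show i + 1 + 2 = (i + 2) + 1 from rfl]
      simp only [List.getD_cons_succ]
      exact this

/-- coefficient modulo `512` -/
noncomputable def c5 (i : ℕ) (A : PowerSeries ℤ) : ZMod 512 := ((coeff i A : ℤ) : ZMod 512)

/-- the list describes the coefficients below `18` -/
def Rep (l : List ℕ) (A : PowerSeries ℤ) : Prop :=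
  l.length = 18 ∧ ∀ i, i < 18 → c5 i A = ((l.getD i 0 : ℕ) : ZMod 512)

theorem rep_mg (p q r : ℕ) (l : List ℕ) (A P : PowerSeries ℤ) (hP : P = toS [1, p, q, r])
    (h : Rep l A) : Rep (mg p q r 0 0 0 l) (A * P) := by
  obtain ⟨h1, h2⟩ := h
  refine ⟨by rw [mg_length, h1], ?_⟩
  intro i hi
  have hc : ∀ i, coeff i (A * P) = coeff i A + p * (if 1 ≤ i then coeff (i - 1) A else 0) +
      q * (if 2 ≤ i then coeff (i - 2) A else 0) + r * (if 3 ≤ i then coeff (i - 3) A else 0) := by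
    intro i
    have e : A * P = A + C (p : ℤ) * (A * X ^ 1) + C (q : ℤ) * (A * X ^ 2) +
        C (r : ℤ) * (A * X ^ 3) := by
      rw [hP]
      simp only [toS, map_one]
      ring
    rw [e]
    simp only [map_add, coeff_C_mul, coeff_mul_X_pow']
  unfold c5 at h2 ⊢
  rw [hc]
  rcases Nat.lt_or_ge i 3 with h3 | h3
  · match l, h1 with
    | x0 :: x1 :: x2 :: l, _ =>
      have g0 := h2 0 (by norm_num)
      have g1 := h2 1 (by norm_num)
      have g2 := h2 2 (by norm_num)
      simp only [List.getD_cons_zero, List.getD_cons_succ] at g0 g1 g2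
      interval_cases i
      · simp only [mg, List.getD_cons_zero]
        rw [ZMod.natCast_mod]
        push_cast
        rw [← g0]
      · simp only [mg, List.getD_cons_zero, List.getD_cons_succ]
        rw [ZMod.natCast_mod]
        push_cast
        rw [← g0, ← g1]
      · simp only [mg, List.getD_cons_zero, List.getD_cons_succ]
        rw [ZMod.natCast_mod]
        push_cast
        rw [← g0, ← g1, ← g2]
  · obtain ⟨k, rfl⟩ : ∃ k, i = k + 3 := ⟨i - 3, by omega⟩
    rw [mg_getD p q r k l 0 0 0 (by omega), ZMod.natCast_mod, if_pos (by omega), if_pos (by omega),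
      if_pos (by omega)]
    have g0 := h2 (k + 3) hi
    have g1 := h2 (k + 2) (by omega)
    have g2 := h2 (k + 1) (by omega)
    have g3 := h2 k (by omega)
    push_cast
    rw [← g0, ← g1, ← g2, ← g3]

theorem rep_pw (e : ℕ) : Rep (pw e) (G ^ e) := by
  induction e with
  | zero =>
    refine ⟨rfl, ?_⟩
    intro i hi
    unfold c5
    rw [pow_zero, coeff_one]
    interval_cases i <;> simp [pw]
  | succ e ih =>
    rw [pow_succ, pw]
    exact rep_mg 4 6 4 (pw e) (G ^ e) G (by rw [G_toS]; norm_num) ih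

theorem rep_q3 (e : ℕ) : Rep (q3 e) (G ^ e * (1 + X) ^ 3) := by
  apply rep_mg 3 3 1 (pw e) (G ^ e) _ _ (rep_pw e)
  simp only [toS, map_one, eq_intCast]
  push_cast
  ring

/-- short lists -/
def Rep5 (l : List ℕ) (B : PowerSeries ℤ) : Prop :=
  (∀ i, i < 5 → c5 i B = ((l.getD i 0 : ℕ) : ZMod 512)) ∧ ∀ i, 5 ≤ i → c5 i B = 0

theorem cv_spec (l g : List ℕ) (B A : PowerSeries ℤ) (hl : Rep5 l B) (hg : Rep g A) (n : ℕ)
    (hn : n < 18) : c5 n (B * A) = ((cv l g n 5 : ℕ) : ZMod 512) := by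
  have h1 : c5 n (B * A) = ∑ i ∈ Finset.range (n + 6), c5 i B * (if i ≤ n then c5 (n - i) A else 0) := by
    unfold c5
    rw [coeff_mul, Finset.Nat.sum_antidiagonal_eq_sum_range_succ
      (fun i j => coeff i B * coeff j A), Int.cast_sum]
    have e1 : n + 6 = (n + 1) + 5 := by ring
    rw [e1, Finset.sum_range_add _ (n + 1) 5]
    have e2 : ∑ x ∈ Finset.range 5, ((coeff (n + 1 + x) B : ℤ) : ZMod 512) *
        (if n + 1 + x ≤ n then ((coeff (n - (n + 1 + x)) A : ℤ) : ZMod 512) else 0) = 0 := by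
      apply Finset.sum_eq_zero
      intro x _
      rw [if_neg (by omega), mul_zero]
    rw [e2, add_zero]
    apply Finset.sum_congr rfl
    intro i hi
    have : i < n + 1 := Finset.mem_range.mp hi
    rw [if_pos (by omega)]
    push_cast
    rfl
  have h2 : ∑ i ∈ Finset.range (n + 6), c5 i B * (if i ≤ n then c5 (n - i) A else 0) =
      ∑ i ∈ Finset.range 5, c5 i B * (if i ≤ n then c5 (n - i) A else 0) := by
    have e1 : n + 6 = 5 + (n + 1) := by ring
    rw [e1, Finset.sum_range_add _ 5 (n + 1)]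
    have e2 : ∑ x ∈ Finset.range (n + 1), c5 (5 + x) B *
        (if 5 + x ≤ n then c5 (n - (5 + x)) A else 0) = 0 := by
      apply Finset.sum_eq_zero
      intro x _
      rw [hl.2 (5 + x) (by omega), zero_mul]
    rw [e2, add_zero]
  have h3 : ∀ k, k ≤ 5 → ((cv l g n k : ℕ) : ZMod 512) =
      ∑ i ∈ Finset.range k, c5 i B * (if i ≤ n then c5 (n - i) A else 0) := by
    intro k
    induction k with
    | zero => intro _; simp [cv]
    | succ k ih =>
      intro hk
      rw [Finset.sum_range_succ, ← ih (by omega), cv]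
      push_cast
      rw [hl.1 k (by omega)]
      congr 2
      split_ifs with h
      · rw [hg.2 (n - k) (by omega)]
      · rfl
  rw [h1, h2, h3 5 le_rfl]

theorem c5_zero_of_dvd (i : ℕ) (B : PowerSeries ℤ) (e : ℕ) (he : 9 ≤ e)
    (h : (2 : ℤ) ^ e ∣ coeff i B) : c5 i B = 0 := by
  unfold c5
  rw [ZMod.intCast_zmod_eq_zero_iff_dvd]
  refine dvd_trans ?_ h
  have : ((512 : ℕ) : ℤ) = 2 ^ 9 := by norm_num
  rw [this]
  exact pow_dvd_pow 2 he

theorem rep5_tb (m : ℕ) (l : List ℕ) (B : PowerSeries ℤ) (hl : Rep5 l B) (hB : Hf 0 B) :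
    Rep5 (tb m l) (TB m B) := by
  constructor
  · have key : ∀ r, r < 4 → c5 (r + 1) (TB m B) =
        ((cv l (q3 (m + r)) (4 * (r + 1)) 5 % 512 : ℕ) : ZMod 512) := by
      intro r hr
      rw [ZMod.natCast_mod]
      have e := cv_spec l (q3 (m + r)) B (G ^ (m + r) * (1 + X) ^ 3) hl (rep_q3 (m + r))
        (4 * (r + 1)) (by omega)
      have e5 : B * (1 + X) ^ 3 * G ^ (m + r) = B * (G ^ (m + r) * (1 + X) ^ 3) := by ring
      rw [← e]
      unfold c5
      rw [TB, coeff_mk, if_neg (by omega), show m + (r + 1) - 1 = m + r by omega, e5]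
    intro i hi
    interval_cases i
    · have : c5 0 (TB m B) = c5 0 B := by
        unfold c5
        rw [TB, coeff_mk, if_pos rfl]
      rw [this, hl.1 0 (by norm_num)]
      simp [tb]
    · exact key 0 (by norm_num)
    · exact key 1 (by norm_num)
    · exact key 2 (by norm_num)
    · exact key 3 (by norm_num)
  · intro i hi
    exact c5_zero_of_dvd i _ (2 * i - 1) (by omega) (TB_dvd m B hB i (by omega))

theorem rep5_one : Rep5 [1, 0, 0, 0, 0] 1 := by
  constructor
  · intro i hi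
    unfold c5
    rw [coeff_one]
    interval_cases i <;> simp
  · intro i hi
    unfold c5
    rw [coeff_one, if_neg (by omega)]
    simp

theorem emod_of_cast (x : ℤ) (y : ℕ) (h : (x : ZMod 512) = (y : ZMod 512)) :
    x % 512 = ((y % 512 : ℕ) : ℤ) := by
  have h1 : (x : ZMod 512) = ((y : ℤ) : ZMod 512) := by rw [h]; simp
  have h2 := (ZMod.intCast_eq_intCast_iff x (y : ℤ) 512).mp h1
  have h3 : x % ((512 : ℕ) : ℤ) = (y : ℤ) % ((512 : ℕ) : ℤ) := h2
  push_cast at h3 ⊢
  exact h3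

theorem init_of_gd (m : ℕ) (l : List ℕ) (B : PowerSeries ℤ) (hl : Rep5 l B) (hB : Hf 0 B)
    (h : gd m l = true) : ∃ A : PowerSeries ℤ, T m 1 (A0 * B) = C (2 ^ 6) * A ∧ Sig A := by
  have hf : ∀ r, r < 4 → coeff r (T m 1 (A0 * B)) % 512 = ((fi m l r : ℕ) : ℤ) := by
    intro r hr
    have e := cv_spec l (pw (m + r)) B (G ^ (m + r)) hl (rep_pw (m + r)) (4 * r + 1) (by omega)
    rw [coeff_T_one]
    exact emod_of_cast _ _ e
  simp only [gd, Bool.and_eq_true, beq_iff_eq] at h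
  obtain ⟨⟨⟨g0, g1⟩, g2⟩, g3⟩ := h
  have f0 := hf 0 (by norm_num)
  have f1 := hf 1 (by norm_num)
  have f2 := hf 2 (by norm_num)
  have f3 := hf 3 (by norm_num)
  have hdiv : ∀ r, (64 : ℤ) ∣ coeff r (T m 1 (A0 * B)) := by
    intro r
    rcases Nat.lt_or_ge r 4 with h4 | h4
    · interval_cases r
      · apply Int.dvd_of_emod_eq_zero; omega
      · apply Int.dvd_of_emod_eq_zero; omega
      · apply Int.dvd_of_emod_eq_zero; omega
      · apply Int.dvd_of_emod_eq_zero; omega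
    · refine dvd_trans ?_ (T_one_dvd m B hB r)
      have : (64 : ℤ) = 2 ^ 6 := by norm_num
      rw [this]
      exact pow_dvd_pow 2 (by omega)
  choose f hf2 using hdiv
  refine ⟨mk f, ?_, ?_, ?_⟩
  · ext r
    rw [coeff_C_mul, coeff_mk, hf2]
    norm_num
  · rw [coeff_mk]
    have := hf2 1
    omega
  · intro j hj
    rw [coeff_mk]
    rcases Nat.lt_or_ge j 4 with h4 | h4
    · have e := hf2 j
      interval_cases j
      · norm_num
        omega
      · norm_num
        omega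
    · have e1 := T_one_dvd m B hB j
      rw [hf2 j] at e1
      have e2 : (2 : ℤ) ^ (2 * j + 1) = 64 * 2 ^ (2 * j + 1 - 6) := by
        have : 2 * j + 1 = (2 * j + 1 - 6) + 6 := by omega
        conv_lhs => rw [this, pow_add]
        ring
      rw [e2] at e1
      have e3 := (mul_dvd_mul_iff_left (by norm_num : (64 : ℤ) ≠ 0)).mp e1
      exact dvd_trans (pow_dvd_pow 2 (by omega)) e3

theorem pw_add (e : ℕ) : pw (e + 256) = pw e := by
  induction e with
  | zero => rw [zero_add]; exact pw_256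
  | succ e ih =>
    rw [show e + 1 + 256 = (e + 256) + 1 by ring, pw, ih, pw]

theorem pw_add_mul (e t : ℕ) : pw (e + 256 * t) = pw e := by
  induction t with
  | zero => rw [mul_zero, add_zero]
  | succ t ih => rw [show e + 256 * (t + 1) = (e + 256 * t) + 256 by ring, pw_add, ih]

theorem q3_add_mul (e t : ℕ) : q3 (e + 256 * t) = q3 e := by
  rw [q3, pw_add_mul, q3]

theorem tb_add_mul (m t : ℕ) (l : List ℕ) : tb (m + 256 * t) l = tb m l := by
  have e : ∀ r, q3 (m + 256 * t + r) = q3 (m + r) := by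
    intro r
    rw [show m + 256 * t + r = (m + r) + 256 * t by ring, q3_add_mul]
  have e0 := q3_add_mul m t
  simp only [tb, e, e0]

theorem gd_add_mul (m t : ℕ) (l : List ℕ) : gd (m + 256 * t) l = gd m l := by
  have e : ∀ r, pw (m + 256 * t + r) = pw (m + r) := by
    intro r
    rw [show m + 256 * t + r = (m + r) + 256 * t by ring, pw_add_mul]
  simp only [gd, fi, e]

/-- the initial state -/
theorem exists_init (m : ℕ) (hm : m % 8 = 6) (g : PowerSeries ℤ)
    (hg : g = (U ^ 4 * (1 - X ^ 4)) ^ m * E 4 g) :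
    ∃ k r : ℕ, ∃ A : PowerSeries ℤ, Sig A ∧ Reach g k r (C (2 ^ 6) * A) := by
  have h0 : Reach g 0 0 (A0 * 1) := by rw [mul_one]; exact reach_zero g
  have h1 : Reach g 1 0 (A0 * TB m 1) := by
    have := reach_step m g hg 0 0 0 (by norm_num) _ h0
    rw [T_zero] at this
    simpa using this
  have h2 : Reach g 2 0 (A0 * TB m (TB m 1)) := by
    have := reach_step m g hg 1 0 0 (by norm_num) _ h1
    rw [T_zero] at this
    simpa using this
  have hH1 : Hf 0 (TB m 1) := TB_Hf m 1 Hf_one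
  have hH2 : Hf 0 (TB m (TB m 1)) := TB_Hf m _ hH1
  have hr1 : Rep5 (tb m [1, 0, 0, 0, 0]) (TB m 1) := rep5_tb m _ 1 rep5_one Hf_one
  have hr2 : Rep5 (tb m (tb m [1, 0, 0, 0, 0])) (TB m (TB m 1)) := rep5_tb m _ _ hr1 hH1
  have hm2 : m % 16 = 14 ∨ m % 16 = 6 := by omega
  rcases hm2 with h | h
  · obtain ⟨s, t, hs, hst⟩ : ∃ s t, s < 16 ∧ m = (16 * s + 14) + 256 * t :=
      ⟨m % 256 / 16, m / 256, by omega, by omega⟩
    have hc : gd m (tb m [1, 0, 0, 0, 0]) = true := by
      rw [hst, tb_add_mul, gd_add_mul]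
      exact chk1 s hs
    obtain ⟨A, hA, hS⟩ := init_of_gd m _ _ hr1 hH1 hc
    refine ⟨1 + 1, 4 ^ 1 * 1 + 0, A, hS, ?_⟩
    rw [← hA]
    exact reach_step m g hg 1 0 1 (by norm_num) _ h1
  · obtain ⟨s, t, hs, hst⟩ : ∃ s t, s < 16 ∧ m = (16 * s + 6) + 256 * t :=
      ⟨m % 256 / 16, m / 256, by omega, by omega⟩
    have hc : gd m (tb m (tb m [1, 0, 0, 0, 0])) = true := by
      rw [hst, tb_add_mul, tb_add_mul, gd_add_mul]
      exact chk2 s hs
    obtain ⟨A, hA, hS⟩ := init_of_gd m _ _ hr2 hH2 hc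
    refine ⟨2 + 1, 4 ^ 2 * 1 + 0, A, hS, ?_⟩
    rw [← hA]
    exact reach_step m g hg 2 0 1 (by norm_num) _ h2

/-- arbitrarily high powers of `4` divide some `S 4 m n` when `m ≡ 6 mod 8` -/
theorem unbounded (m : ℕ) (hm : m % 8 = 6) (B : ℕ) : ∃ n : ℕ, 4 ^ B ∣ S 4 m n := by
  obtain ⟨g, hg, h0⟩ := exists_S (R := ℤ) (b := 4) (by norm_num) m
  obtain ⟨k, r, A, hA, hR⟩ := exists_init m hm g hg
  obtain ⟨k', r', A', hA', hR'⟩ := root_values m (by omega) g hg 6 k r A hA hR B
  refine ⟨r', ?_⟩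
  have h1 := reach_const g h0 k' r' _ hR'
  rw [coeff_C_mul] at h1
  have h2 := S_spec (R := ℤ) (b := 4) (by norm_num) m g hg h0 r'
  rw [h1] at h2
  have h3 : (4 : ℤ) ^ B ∣ (S 4 m r' : ℤ) := by
    have h2' : (S 4 m r' : ℤ) = 2 ^ (6 + 2 * B) * coeff 0 A' := h2
    rw [h2']
    apply dvd_mul_of_dvd_left
    have : (4 : ℤ) ^ B = 2 ^ (2 * B) := by
      rw [pow_mul]; norm_num
    rw [this]
    exact pow_dvd_pow 2 (by omega)
  exact_mod_cast h3

/-- positivity -/
theorem S_pos (b m n : ℕ) (hm : 1 ≤ m) : 1 ≤ S b m n := by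
  have hP : ∀ k, 1 ≤ k → 1 ≤ coeff n ((mk fun _ => (1 : ℕ)) ^ k) := by
    intro k hk
    induction k, hk using Nat.le_induction with
    | base => simp
    | succ k hk ih =>
      rw [pow_succ, coeff_mul]
      refine le_trans ih ?_
      have hmem : (n, 0) ∈ Finset.HasAntidiagonal.antidiagonal n := by simp
      refine le_trans ?_ (Finset.single_le_sum (fun _ _ => Nat.zero_le _) hmem)
      simp
  rw [S, coeff_mul]
  have hmem : (n, 0) ∈ Finset.HasAntidiagonal.antidiagonal n := by simp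
  refine le_trans ?_ (Finset.single_le_sum (fun _ _ => Nat.zero_le _) hmem)
  have h0 : coeff 0 ((∏ i ∈ Finset.range (n + 1), mk fun j => if b ^ i ∣ j then (1 : ℕ) else 0) ^
      (m * (b - 1))) = 1 := by
    rw [coeff_zero_eq_constantCoeff_apply, map_pow, map_prod]
    have : ∀ i, constantCoeff (mk fun j => if b ^ i ∣ j then (1 : ℕ) else 0) = 1 := by
      intro i
      rw [← coeff_zero_eq_constantCoeff_apply, coeff_mk, if_pos (dvd_zero _)]
    simp [this]
  show 1 ≤ coeff n _ * coeff 0 _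
  rw [h0, mul_one]
  exact hP m hm

end Pool.Agent.Q40.CK
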