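import Mathlib
import Pool.Agent.Q35.Auto
import Pool.Agent.Q35.Four
import Pool.Agent.Q40.CK.Init

/-!
The 2-adic valuation of `S 4 m n` is bounded when `m` is not congruent to `6` modulo `8`.
-/

namespace Pool.Agent.Q40.CK

open PowerSeries Pool.Agent.Q35 Pool.Agent.Q35.Auto

/-! ### `m ≡ 1 mod 4` and `m ≡ 2 mod 8` -/

/-- residues occurring modulo 8 for `m = 1` -/
def good1 (v : ℕ) : Bool := [2, 4, 6].contains v

/-- residues occurring modulo 32 for `m = 2, 10` -/
def good2 (v : ℕ) : Bool := [4, 8, 12, 16, 20, 24, 28].contains v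

/-- states -/
def Z1 : List (List ℕ) := [[1], [7, 2]]

/-- states -/
def N1 : List (List ℕ) := [[0, 4], [0, 2], [0, 6]]

theorem check1 : check 8 4 1 4 good1 Z1 N1 = true := by decide +kernel

theorem res1 (n : ℕ) (hn : 1 ≤ n) : good1 (S 4 1 n % 8) = true := by
  obtain ⟨g, hg, h0⟩ := exists_S (R := ZMod 8) (b := 4) (by norm_num) 1
  have hA := ser_S (M := 8) (b := 4) (by norm_num) 1 g hg h0
  have hmem : [1] ∈ Z1 := by decide
  obtain ⟨v, hv, hv2⟩ := chkZ_all (M := 8) (b := 4) (by norm_num) hA (by norm_num) good1 Z1 N1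
    check1 n hn [1] hmem
  have h1 : evU 8 [1] = 1 := by simp [evU]
  rw [h1, one_mul, ← S_spec (R := ZMod 8) (b := 4) (by norm_num) 1 g hg h0 n] at hv2
  have h2 := (ZMod.natCast_eq_natCast_iff' _ _ 8).mp hv2
  rw [h2]
  have h3 : v < 8 := by
    by_contra hcon
    simp only [good1, List.contains_eq_mem, List.mem_cons, List.not_mem_nil, or_false,
      decide_eq_true_eq] at hv
    omega
  rw [Nat.mod_eq_of_lt h3]
  exact hv

/-- states -/
def Z2 : List (List ℕ) := [[1], [1, 24, 8]]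

/-- states -/
def N2 : List (List ℕ) := [[0, 8], [0, 28, 8], [0, 24], [0, 16], [0, 12, 8], [0, 20, 16], [0, 28, 16], [0, 4, 16], [0, 12, 16]]

theorem check2 : check 32 4 2 8 good2 Z2 N2 = true := by decide +kernel

theorem res2 (n : ℕ) (hn : 1 ≤ n) : good2 (S 4 2 n % 32) = true := by
  obtain ⟨g, hg, h0⟩ := exists_S (R := ZMod 32) (b := 4) (by norm_num) 2
  have hA := ser_S (M := 32) (b := 4) (by norm_num) 2 g hg h0
  have hmem : [1] ∈ Z2 := by decide
  obtain ⟨v, hv, hv2⟩ := chkZ_all (M := 32) (b := 4) (by norm_num) hA (by norm_num) good2 Z2 N2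
    check2 n hn [1] hmem
  have h1 : evU 32 [1] = 1 := by simp [evU]
  rw [h1, one_mul, ← S_spec (R := ZMod 32) (b := 4) (by norm_num) 2 g hg h0 n] at hv2
  have h2 := (ZMod.natCast_eq_natCast_iff' _ _ 32).mp hv2
  rw [h2]
  have h3 : v < 32 := by
    by_contra hcon
    simp only [good2, List.contains_eq_mem, List.mem_cons, List.not_mem_nil, or_false,
      decide_eq_true_eq] at hv
    omega
  rw [Nat.mod_eq_of_lt h3]
  exact hv

/-- states -/
def Z10 : List (List ℕ) := [[1], [1, 24, 8]]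

/-- states -/
def N10 : List (List ℕ) := [[0, 8], [0, 12, 8], [0, 24], [0, 16], [0, 28, 8], [0, 4, 16], [0, 12, 16], [0, 20, 16], [0, 28, 16]]

theorem check10 : check 32 4 10 40 good2 Z10 N10 = true := by decide +kernel

theorem res10 (n : ℕ) (hn : 1 ≤ n) : good2 (S 4 10 n % 32) = true := by
  obtain ⟨g, hg, h0⟩ := exists_S (R := ZMod 32) (b := 4) (by norm_num) 10
  have hA := ser_S (M := 32) (b := 4) (by norm_num) 10 g hg h0
  have hmem : [1] ∈ Z10 := by decide
  obtain ⟨v, hv, hv2⟩ := chkZ_all (M := 32) (b := 4) (by norm_num) hA (by norm_num) good2 Z10 N10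
    check10 n hn [1] hmem
  have h1 : evU 32 [1] = 1 := by simp [evU]
  rw [h1, one_mul, ← S_spec (R := ZMod 32) (b := 4) (by norm_num) 10 g hg h0 n] at hv2
  have h2 := (ZMod.natCast_eq_natCast_iff' _ _ 32).mp hv2
  rw [h2]
  have h3 : v < 32 := by
    by_contra hcon
    simp only [good2, List.contains_eq_mem, List.mem_cons, List.not_mem_nil, or_false,
      decide_eq_true_eq] at hv
    omega
  rw [Nat.mod_eq_of_lt h3]
  exact hv


theorem congr_pow (M : ℕ) (a c : ℕ) (h : ∀ n, 1 ≤ n → M ∣ S 4 c n) (t n : ℕ) :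
    ((S 4 (a + c * t) n : ℕ) : ZMod M) = ((S 4 a n : ℕ) : ZMod M) := by
  obtain ⟨f, hf, hf0⟩ := exists_S (R := ZMod M) (b := 4) (by norm_num) a
  obtain ⟨g, hg, hg0⟩ := exists_S (R := ZMod M) (b := 4) (by norm_num) c
  have hg1 : g = 1 := by
    ext n
    rcases Nat.eq_zero_or_pos n with rfl | hn
    · rw [hg0]; simp
    · rw [← S_spec (R := ZMod M) (b := 4) (by norm_num) c g hg hg0 n, coeff_one, if_neg (by omega)]
      exact (ZMod.natCast_eq_zero_iff _ _).mpr (h n hn)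
  have h1 : f = (U ^ 4 * (1 - X ^ 4)) ^ (a + c * t) * E 4 f := by
    have h2 : (U ^ 4 * (1 - X ^ 4) : PowerSeries (ZMod M)) ^ c = 1 := by
      rw [hg1, map_one, mul_one] at hg
      exact hg.symm
    rw [pow_add, pow_mul, h2, one_pow, mul_one]
    exact hf
  rw [S_spec (R := ZMod M) (b := 4) (by norm_num) (a + c * t) f h1 hf0 n,
    S_spec (R := ZMod M) (b := 4) (by norm_num) a f hf hf0 n]

theorem dvd_of_zmod (M x y : ℕ) (h : ((x : ℕ) : ZMod M) = ((y : ℕ) : ZMod M)) (hd : M ∣ x) :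
    M ∣ y := by
  have h1 : ((x : ℕ) : ZMod M) = 0 := (ZMod.natCast_eq_zero_iff _ _).mpr hd
  rw [h1] at h
  exact (ZMod.natCast_eq_zero_iff _ _).mp h.symm

theorem bdd_one (m n : ℕ) (hm : m % 4 = 1) (hn : 1 ≤ n) : ¬ 2 ^ 3 ∣ S 4 m n := by
  obtain ⟨t, rfl⟩ : ∃ t, m = 1 + 4 * t := ⟨m / 4, by omega⟩
  have hc := congr_pow 8 1 4 (by
    intro n hn
    obtain ⟨k, hk⟩ := S_four 0 1 n hn
    have : (8 : ℤ) ∣ (S 4 4 n : ℤ) := ⟨_, by
      rw [show (4 : ℕ) * (2 ^ 0 * 1) = 4 by norm_num] at hk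
      rw [hk]; norm_num; rfl⟩
    exact_mod_cast this) t n
  intro h
  have h2 := dvd_of_zmod 8 _ _ hc h
  have h3 := res1 n hn
  rw [Nat.mod_eq_zero_of_dvd h2] at h3
  exact absurd h3 (by decide)

theorem bdd_two (m n : ℕ) (hm : m % 8 = 2) (hn : 1 ≤ n) : ¬ 2 ^ 5 ∣ S 4 m n := by
  have h16 : ∀ n, 1 ≤ n → 32 ∣ S 4 16 n := by
    intro n hn
    obtain ⟨k, hk⟩ := S_four 2 1 n hn
    have : (32 : ℤ) ∣ (S 4 16 n : ℤ) := ⟨_, by
      rw [show (4 : ℕ) * (2 ^ 2 * 1) = 16 by norm_num] at hk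
      rw [hk]; norm_num; rfl⟩
    exact_mod_cast this
  have hm2 : m % 16 = 2 ∨ m % 16 = 10 := by omega
  intro h
  rcases hm2 with h3 | h3
  · obtain ⟨t, rfl⟩ : ∃ t, m = 2 + 16 * t := ⟨m / 16, by omega⟩
    have h2 := dvd_of_zmod 32 _ _ (congr_pow 32 2 16 h16 t n) h
    have h3 := res2 n hn
    rw [Nat.mod_eq_zero_of_dvd h2] at h3
    exact absurd h3 (by decide)
  · obtain ⟨t, rfl⟩ : ∃ t, m = 10 + 16 * t := ⟨m / 16, by omega⟩
    have h2 := dvd_of_zmod 32 _ _ (congr_pow 32 10 16 h16 t n) h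
    have h3 := res10 n hn
    rw [Nat.mod_eq_zero_of_dvd h2] at h3
    exact absurd h3 (by decide)

/-! ### `m ≡ 0 mod 4` -/

theorem bdd_four (m n : ℕ) (hm : m % 4 = 0) (h0 : m ≠ 0) (hn : 1 ≤ n) :
    ¬ 2 ^ (padicValNat 2 m + 3) ∣ S 4 m n := by
  have : Fact (Nat.Prime 2) := ⟨Nat.prime_two⟩
  have h2 : 2 ≤ padicValNat 2 m := by
    have : 2 ^ 2 ∣ m := Nat.dvd_of_mod_eq_zero (by norm_num; exact hm)
    exact (padicValNat_dvd_iff_le h0).mp this
  have h3 := val_S_four m n h0 h2 hn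
  have h4 := S_pos 4 m n (by omega)
  intro h
  have h5 := (padicValNat_dvd_iff_le (by omega)).mp h
  rw [h3] at h5
  split_ifs at h5 <;> omega

/-! ### `m ≡ 3 mod 4` -/

/-- coefficients of `(1 - X)^3` -/
def cc (d : ℕ) : ℤ := if d = 0 then 1 else if d = 1 then -3 else if d = 2 then 3 else
  if d = 3 then -1 else 0

theorem cube_eq : ((1 - X) ^ 3 : PowerSeries ℤ) = mk cc := by
  have h3 : (3 : PowerSeries ℤ) = C 3 := rfl
  have e : ((1 - X) ^ 3 : PowerSeries ℤ) = 1 - 3 * X + 3 * X ^ 2 - X ^ 3 := by ring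
  rw [e]
  ext n
  rw [h3]
  simp only [map_sub, map_add, coeff_C_mul, coeff_X_pow, coeff_X, coeff_one, coeff_mk, cc]
  rcases Nat.lt_or_ge n 4 with h | h
  · interval_cases n <;> norm_num
  · have g0 : ¬ n = 0 := by omega
    have g1 : ¬ n = 1 := by omega
    have g2 : ¬ n = 2 := by omega
    have g3 : ¬ n = 3 := by omega
    simp only [if_neg g0, if_neg g1, if_neg g2, if_neg g3]
    norm_num

theorem coeff_P (P : PowerSeries ℤ) (hP : P = (1 - X) ^ 3 * E 4 P) (q d : ℕ) (hd : d < 4) :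
    coeff (4 * q + d) P = cc d * coeff q P := by
  conv_lhs => rw [hP]
  rw [coeff_mul_E 4 _ _ q d hd, cube_eq]
  have : (mk fun i => coeff (4 * i + d) (mk cc)) = (C (cc d) : PowerSeries ℤ) := by
    ext i
    rw [coeff_mk, coeff_mk, coeff_C]
    split_ifs with h
    · subst h; rw [mul_zero, zero_add]
    · unfold cc
      rw [if_neg (by omega), if_neg (by omega), if_neg (by omega), if_neg (by omega)]
  rw [this, coeff_C_mul]

theorem P_odd (P : PowerSeries ℤ) (hP : P = (1 - X) ^ 3 * E 4 P) (h0 : coeff 0 P = 1) (n : ℕ) :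
    coeff n P % 2 = 1 := by
  induction n using Nat.strong_induction_on with
  | _ n ih =>
    rcases Nat.eq_zero_or_pos n with rfl | hn
    · rw [h0]; norm_num
    · have h := coeff_P P hP (n / 4) (n % 4) (Nat.mod_lt _ (by norm_num))
      rw [Nat.div_add_mod] at h
      have h2 := ih (n / 4) (by omega)
      have h3 : n % 4 < 4 := Nat.mod_lt _ (by norm_num)
      rw [h]
      have h4 : cc (n % 4) = 1 ∨ cc (n % 4) = -3 ∨ cc (n % 4) = 3 ∨ cc (n % 4) = -1 := by
        interval_cases n % 4 <;> simp [cc]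
      rcases h4 with h4 | h4 | h4 | h4 <;> rw [h4] <;> omega

/-- the two sequences `P_n - P_{n-1}` and `P_n + P_{n-1}` -/
theorem eta_prop (P : PowerSeries ℤ) (hP : P = (1 - X) ^ 3 * E 4 P) (h0 : coeff 0 P = 1) (n : ℕ) :
    1 ≤ n → ((coeff n P - coeff (n - 1) P) % 8 ≠ 0 ∨
      (coeff n P - coeff (n - 1) P = 0 ∧ lf n % 2 = 1)) := by
  induction n using Nat.strong_induction_on with
  | _ n ih =>
    intro hn
    have h3 : n % 4 < 4 := Nat.mod_lt _ (by norm_num)
    by_cases hd : n % 4 = 0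
    · -- `n = 4 q`
      obtain ⟨q, rfl⟩ : ∃ q, n = 4 * q := ⟨n / 4, by omega⟩
      have hq : 1 ≤ q := by omega
      have e1 := coeff_P P hP q 0 (by norm_num)
      have e2 := coeff_P P hP (q - 1) 3 (by norm_num)
      have e3 : 4 * q - 1 = 4 * (q - 1) + 3 := by omega
      rw [e3, e2]
      rw [add_zero] at e1
      rw [e1]
      have c0 : cc 0 = 1 := rfl
      have c3 : cc 3 = -1 := rfl
      rw [c0, c3]
      by_cases hd2 : q % 4 = 0
      · obtain ⟨s, rfl⟩ : ∃ s, q = 4 * s := ⟨q / 4, by omega⟩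
        have f1 := coeff_P P hP s 0 (by norm_num)
        have f2 := coeff_P P hP (s - 1) 3 (by norm_num)
        have f3 : 4 * s - 1 = 4 * (s - 1) + 3 := by omega
        rw [add_zero] at f1
        rw [f3, f2, f1, c0, c3, lf_mul_four, lf_mul_four]
        have e : (1 : ℤ) * (1 * coeff s P) - -1 * (-1 * coeff (s - 1) P) =
            coeff s P - coeff (s - 1) P := by ring
        rw [e]
        exact ih s (by omega) (by omega)
      · obtain ⟨s, d, hd4, hd0, rfl⟩ : ∃ s d, d < 4 ∧ 1 ≤ d ∧ q = 4 * s + d :=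
          ⟨q / 4, q % 4, by omega, by omega, by omega⟩
        have f1 := coeff_P P hP s d hd4
        have f2 := coeff_P P hP s (d - 1) (by omega)
        have f3 : 4 * s + d - 1 = 4 * s + (d - 1) := by omega
        rw [f3, f2, f1]
        have ho := P_odd P hP h0 s
        interval_cases d
        · left
          have c1 : cc 1 = -3 := rfl
          simp only [c1, c0, Nat.sub_self]
          omega
        · right
          have c1 : cc 1 = -3 := rfl
          have c2 : cc 2 = 3 := rfl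
          simp only [c1, c2, show 2 - 1 = 1 from rfl]
          refine ⟨by ring, ?_⟩
          have : Fact (Nat.Prime 2) := ⟨Nat.prime_two⟩
          rw [lf_mul_four]
          unfold lf
          rw [if_neg (by omega)]
          have hv : padicValNat 2 (4 * s + 2) = 1 := by
            rw [show 4 * s + 2 = 2 * (2 * s + 1) by ring, padicValNat.mul (by norm_num) (by omega),
              padicValNat.self (by norm_num), padicValNat.eq_zero_of_not_dvd (by omega)]
          rw [hv, if_neg (by norm_num)]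
          split_ifs <;> norm_num
        · left
          have c3 : cc 3 = -1 := rfl
          have c2 : cc 2 = 3 := rfl
          simp only [c3, c2, show 3 - 1 = 2 from rfl]
          omega
    · obtain ⟨s, d, hd4, hd0, rfl⟩ : ∃ s d, d < 4 ∧ 1 ≤ d ∧ n = 4 * s + d :=
        ⟨n / 4, n % 4, by omega, by omega, by omega⟩
      have f1 := coeff_P P hP s d hd4
      have f2 := coeff_P P hP s (d - 1) (by omega)
      have f3 : 4 * s + d - 1 = 4 * s + (d - 1) := by omega
      rw [f3, f2, f1]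
      have ho := P_odd P hP h0 s
      left
      have c0 : cc 0 = 1 := rfl
      have c1 : cc 1 = -3 := rfl
      have c2 : cc 2 = 3 := rfl
      have c3 : cc 3 = -1 := rfl
      interval_cases d
      · simp only [c1, c0, Nat.sub_self]; omega
      · simp only [c1, c2, show 2 - 1 = 1 from rfl]; omega
      · simp only [c3, c2, show 3 - 1 = 2 from rfl]; omega

theorem coeff_one_sub_X_mul (P : PowerSeries ℤ) (n : ℕ) (hn : 1 ≤ n) :
    coeff n ((1 - X) * P) = coeff n P - coeff (n - 1) P := by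
  obtain ⟨k, rfl⟩ : ∃ k, n = k + 1 := ⟨n - 1, by omega⟩
  rw [sub_mul, one_mul, map_sub, coeff_succ_X_mul, Nat.add_sub_cancel]

theorem bdd_three (m n : ℕ) (hm : m % 4 = 3) (hn : 1 ≤ n) :
    ¬ 2 ^ (padicValNat 2 (m + 1) + 3) ∣ S 4 m n := by
  have : Fact (Nat.Prime 2) := ⟨Nat.prime_two⟩
  -- write `m + 1 = 4 * (2^b * c)`
  have hm0 : m + 1 ≠ 0 := by omega
  obtain ⟨c0, hc0⟩ : 2 ^ padicValNat 2 (m + 1) ∣ m + 1 := pow_padicValNat_dvd
  have hodd : c0 % 2 = 1 := by
    by_contra h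
    have h3 : 2 ^ (padicValNat 2 (m + 1) + 1) ∣ m + 1 := by
      rw [pow_succ]
      conv_rhs => rw [hc0]
      exact mul_dvd_mul_left _ (by omega)
    exact pow_succ_padicValNat_not_dvd hm0 h3
  have h2 : 2 ≤ padicValNat 2 (m + 1) := by
    have : 2 ^ 2 ∣ m + 1 := Nat.dvd_of_mod_eq_zero (by norm_num; omega)
    exact (padicValNat_dvd_iff_le hm0).mp this
  obtain ⟨b, hb⟩ : ∃ b, padicValNat 2 (m + 1) = b + 2 := ⟨padicValNat 2 (m + 1) - 2, by omega⟩
  have ht4 : m + 1 = 4 * (2 ^ b * c0) := by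
    rw [hb, pow_add] at hc0
    rw [hc0]
    ring
  -- the series
  obtain ⟨g, hg, hg0⟩ := exists_S (R := ℤ) (b := 4) (by norm_num) (4 * (2 ^ b * c0))
  obtain ⟨P, hP, hP0⟩ := exists_func (R := ℤ) (b := 4) (by norm_num) ((1 - X) ^ 3) (by simp)
  have hk : ∀ n : ℕ, ∃ k : ℤ, coeff n g = coeff n (1 + C (2 ^ (b + 3)) * (C (c0 : ℤ) * L ℤ)) +
      2 ^ (b + 3) * (4 * k) := by
    intro n
    rcases Nat.eq_zero_or_pos n with rfl | hn
    · refine ⟨0, ?_⟩
      rw [hg0, map_add, coeff_C_mul, coeff_C_mul, L, coeff_mk]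
      simp [lf]
    · obtain ⟨k, hk⟩ := S_four b c0 n hn
      refine ⟨k, ?_⟩
      rw [← S_spec (R := ℤ) (b := 4) (by norm_num) _ g hg hg0 n, map_add, coeff_C_mul, coeff_C_mul,
        L, coeff_mk, coeff_one, if_neg (by omega)]
      rw [hk]
      simp only [Int.cast_id]
      ring
  choose kf hkf using hk
  have hgK : g = 1 + C (2 ^ (b + 3)) * (C (c0 : ℤ) * L ℤ + C 4 * mk kf) := by
    ext n
    rw [hkf]
    simp only [map_add, coeff_C_mul, mul_add, coeff_mk]
    ring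
  have hQ : g * ((1 - X) * P) = (U ^ 4 * (1 - X ^ 4)) ^ m * E 4 (g * ((1 - X) * P)) := by
    have hE : E 4 (1 - X : PowerSeries ℤ) = 1 - X ^ 4 := by rw [map_sub, map_one, E_X]
    have h1 : (1 - X) * P = (1 - X) ^ 4 * E 4 P := by
      conv_lhs => rw [hP]
      ring
    have hU4 : (U ^ 4 * (1 - X) ^ 4 : PowerSeries ℤ) = 1 := by rw [← mul_pow, U_mul, one_pow]
    have h5 : g * ((1 - X) * P) = (U ^ 4 * (1 - X ^ 4)) ^ (m + 1) * E 4 g *
        ((1 - X) ^ 4 * E 4 P) := by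
      rw [← h1]
      congr 1
      rw [ht4]
      exact hg
    calc g * ((1 - X) * P) = (U ^ 4 * (1 - X ^ 4)) ^ (m + 1) * E 4 g *
        ((1 - X) ^ 4 * E 4 P) := h5
      _ = (U ^ 4 * (1 - X ^ 4)) ^ m * (E 4 g * ((1 - X ^ 4) * E 4 P)) *
          (U ^ 4 * (1 - X) ^ 4) := by rw [pow_succ]; ring
      _ = _ := by rw [hU4, mul_one, map_mul, map_mul, hE]
  have hS := S_spec (R := ℤ) (b := 4) (by norm_num) m _ hQ (by
    rw [coeff_zero_eq_constantCoeff_apply, map_mul, map_mul]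
    rw [coeff_zero_eq_constantCoeff_apply] at hg0 hP0
    rw [hg0, hP0]
    simp) n
  -- expansion
  have hexp : coeff n (g * ((1 - X) * P)) = (coeff n P - coeff (n - 1) P) + 2 ^ (b + 3) *
      (c0 * coeff n ((1 - X) * P * L ℤ) + 4 * coeff n ((1 - X) * P * mk kf)) := by
    have e : g * ((1 - X) * P) = (1 - X) * P + C (2 ^ (b + 3)) *
        (C (c0 : ℤ) * ((1 - X) * P * L ℤ) + C 4 * ((1 - X) * P * mk kf)) := by
      rw [hgK]; ring
    rw [e, map_add, coeff_one_sub_X_mul P n hn, coeff_C_mul, map_add, coeff_C_mul, coeff_C_mul]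
  rw [hexp] at hS
  intro hdvd
  have hdvd2 : (2 : ℤ) ^ (b + 2 + 3) ∣ (S 4 m n : ℤ) := by
    rw [hb] at hdvd
    exact_mod_cast hdvd
  rw [hS] at hdvd2
  set K1 := coeff n ((1 - X) * P * L ℤ) with hK1
  set K2 := coeff n ((1 - X) * P * mk kf)
  rcases eta_prop P hP hP0 n hn with he | ⟨he, hlf⟩
  · apply he
    have h8 : (2 : ℤ) ^ 3 ∣ coeff n P - coeff (n - 1) P := by
      have h9 : (2 : ℤ) ^ 3 ∣ 2 ^ (b + 3) * (c0 * K1 + 4 * K2) :=
        dvd_mul_of_dvd_left (pow_dvd_pow 2 (by omega)) _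
      have h10 : (2 : ℤ) ^ 3 ∣ (coeff n P - coeff (n - 1) P) + 2 ^ (b + 3) * (c0 * K1 + 4 * K2) :=
        dvd_trans (pow_dvd_pow 2 (by omega)) hdvd2
      exact (dvd_add_left h9).mp h10
    have h8' : (8 : ℤ) ∣ coeff n P - coeff (n - 1) P := by norm_num at h8; exact h8
    exact Int.emod_eq_zero_of_dvd h8'
  · rw [he, zero_add] at hdvd2
    have e2 : (2 : ℤ) ^ (b + 2 + 3) = 2 ^ (b + 3) * 4 := by
      rw [show b + 2 + 3 = (b + 3) + 2 by ring, pow_add]; norm_num
    rw [e2] at hdvd2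
    have h4 := (mul_dvd_mul_iff_left (pow_ne_zero (b + 3) (by norm_num : (2 : ℤ) ≠ 0))).mp hdvd2
    have h5 : c0 * K1 % 2 = 0 := by
      have : (4 : ℤ) ∣ c0 * K1 := by
        have h6 : (4 : ℤ) ∣ 4 * K2 := dvd_mul_right 4 _
        exact (dvd_add_left h6).mp h4
      omega
    have h6 : K1 % 2 = 1 := by
      -- `(1 - X) P ≡ 1 mod 2`
      have hev : ∀ i, ∃ k : ℤ, coeff i ((1 - X) * P) = coeff i (1 : PowerSeries ℤ) + 2 * k := by
        intro i
        rcases Nat.eq_zero_or_pos i with rfl | hi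
        · refine ⟨0, ?_⟩
          rw [coeff_zero_eq_constantCoeff_apply, map_mul]
          rw [coeff_zero_eq_constantCoeff_apply] at hP0
          rw [hP0]
          simp
        · rw [coeff_one_sub_X_mul P i hi, coeff_one, if_neg (by omega)]
          have h7 := P_odd P hP hP0 i
          have h8 := P_odd P hP hP0 (i - 1)
          exact ⟨(coeff i P - coeff (i - 1) P) / 2, by omega⟩
      choose ef hef using hev
      have e3 : (1 - X) * P = 1 + C 2 * mk ef := by
        ext i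
        rw [hef, map_add, coeff_C_mul, coeff_mk]
      have e4 : K1 = lf n + 2 * coeff n (mk ef * L ℤ) := by
        rw [hK1, e3, add_mul, one_mul, map_add, L, coeff_mk, mul_assoc, coeff_C_mul]
        simp
      rw [e4]
      omega
    have h7 : (c0 : ℤ) % 2 = 1 := by omega
    rw [Int.mul_emod, h6, h7] at h5
    norm_num at h5

/-- boundedness -/
theorem bounded (m : ℕ) (h0 : 1 ≤ m) (hm : m % 8 ≠ 6) : ∃ e : ℕ, ∀ n, ¬ 2 ^ e ∣ S 4 m n := by
  have hS0 : ∀ e, 1 ≤ e → ¬ 2 ^ e ∣ S 4 m 0 := by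
    intro e he h
    have h1 : S 4 m 0 = 1 := by
      obtain ⟨g, hg, h0⟩ := exists_S (R := ℤ) (b := 4) (by norm_num) m
      have h1 := S_spec (R := ℤ) (b := 4) (by norm_num) m g hg h0 0
      rw [h0] at h1
      exact_mod_cast h1
    rw [h1] at h
    have h2 := Nat.le_of_dvd (by norm_num) h
    have h3 : 2 ^ 1 ≤ 2 ^ e := Nat.pow_le_pow_right (by norm_num) he
    omega
  have hm2 : m % 4 = 0 ∨ m % 4 = 1 ∨ m % 8 = 2 ∨ m % 4 = 3 := by omega
  have key : ∃ e, 1 ≤ e ∧ ∀ n, 1 ≤ n → ¬ 2 ^ e ∣ S 4 m n := by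
    rcases hm2 with h | h | h | h
    · exact ⟨_, by omega, fun n hn => bdd_four m n h (by omega) hn⟩
    · exact ⟨3, by omega, fun n hn => bdd_one m n h hn⟩
    · exact ⟨5, by omega, fun n hn => bdd_two m n h hn⟩
    · exact ⟨_, by omega, fun n hn => bdd_three m n h hn⟩
  obtain ⟨e, he, h⟩ := key
  refine ⟨e, fun n => ?_⟩
  rcases Nat.eq_zero_or_pos n with rfl | hn
  · exact hS0 e he
  · exact h n hn

end Pool.Agent.Q40.CK
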