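import Mathlib
import Pool.Agent.Q40.CK.Base

/-!
Colored binary partitions: congruences between `b_c(2^k n)` and `b_c(2^(k-1) n)`, `c = 2^m`.
-/

namespace Pool.Agent.Q40.CK.Bin

open PowerSeries Pool.Agent.Q35

/-- `E 2` -/
noncomputable abbrev E2 : PowerSeries ℤ →ₐ[ℤ] PowerSeries ℤ := E 2

/-- `2 X / (1 - X)` -/
noncomputable def w : PowerSeries ℤ := 2 * (X * U)

/-- `(1 + X) / (1 - X)` -/
noncomputable def G : PowerSeries ℤ := 1 + w

/-- `X / (1 - X)^2` -/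
noncomputable def ka : PowerSeries ℤ := X * U ^ 2

/-- `1 / G` -/
noncomputable def Gi : PowerSeries ℤ := 2 * E2 G - G

/-- the section operator -/
noncomputable def s0 (f : PowerSeries ℤ) : PowerSeries ℤ := mk fun n => coeff (2 * n) f

theorem hU : (U : PowerSeries ℤ) * (1 - X) = 1 := U_mul

theorem G_eq : G = (1 + X) * U := by
  have := hU
  rw [G, w]
  linear_combination -this

theorem E2_U : E2 U * (1 - X ^ 2) = (1 : PowerSeries ℤ) := by
  have : (1 - X ^ 2 : PowerSeries ℤ) = E2 (1 - X) := by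
    rw [map_sub, map_one, E_X]
  rw [this, ← map_mul, hU, map_one]

theorem U_eq : (U : PowerSeries ℤ) = (1 + X) * E2 U := by
  calc (U : PowerSeries ℤ) = U * (E2 U * (1 - X ^ 2)) := by rw [E2_U, mul_one]
    _ = (U * (1 - X)) * ((1 + X) * E2 U) := by ring
    _ = _ := by rw [hU, one_mul]

theorem E2_w : E2 w = 2 * (X ^ 2 * E2 U) := by
  rw [w, map_mul, map_mul, E_X]
  congr 1
  exact map_ofNat (E 2) 2

theorem w_sq : w ^ 2 = 2 * G * E2 w := by
  rw [E2_w, G_eq, w]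
  have h := U_eq
  calc (2 * (X * U)) ^ 2 = 4 * X ^ 2 * U * U := by ring
    _ = 4 * X ^ 2 * U * ((1 + X) * E2 U) := by rw [← h]
    _ = _ := by ring

theorem four_ka : 4 * ka = w * (w + 2) := by
  have h := hU
  rw [ka, w]
  linear_combination (4 * X * U) * h

theorem E2_ka : E2 ka = X ^ 2 * (E2 U) ^ 2 := by
  rw [ka, map_mul, map_pow, E_X]

theorem ka_sq : ka ^ 2 = G ^ 2 * E2 ka := by
  rw [E2_ka, G_eq, ka]
  have h := U_eq
  calc (X * U ^ 2) ^ 2 = X ^ 2 * U ^ 2 * U ^ 2 := by ring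
    _ = X ^ 2 * U ^ 2 * ((1 + X) * E2 U) ^ 2 := by rw [← h]
    _ = _ := by ring

theorem G_sq : G ^ 2 = 1 + 4 * ka := by
  rw [four_ka, G]; ring

theorem G_Gi : G * Gi = 1 := by
  have hE : E2 G = (1 + X ^ 2) * E2 U := by
    rw [G_eq, map_mul, map_add, map_one, E_X]
  have h1 := hU
  have h2 := U_eq
  have h3 : G * Gi = 2 * (1 + X ^ 2) * U * ((1 + X) * E2 U) - (1 + X) ^ 2 * U ^ 2 := by
    rw [Gi, hE, G_eq]; ring
  rw [h3, ← h2]
  have h4 : (2 * (1 + X ^ 2) * U * U - (1 + X) ^ 2 * U ^ 2 : PowerSeries ℤ) =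
      (U * (1 - X)) ^ 2 := by ring
  rw [h4, h1, one_pow]

theorem one_sub_sq : (1 - X : PowerSeries ℤ) ^ 2 = E2 (1 - X) * Gi := by
  have h : (1 - X : PowerSeries ℤ) ^ 2 * G = E2 (1 - X) := by
    rw [map_sub, map_one, E_X, G_eq]
    linear_combination ((1 - X) * (1 + X)) * hU
  rw [← h, mul_assoc, G_Gi, mul_one]

/-! ### the section operator -/

theorem s0_add (f g : PowerSeries ℤ) : s0 (f + g) = s0 f + s0 g := by
  ext n
  simp [s0]

theorem s0_sub (f g : PowerSeries ℤ) : s0 (f - g) = s0 f - s0 g := by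
  ext n
  simp [s0]

theorem s0_E_mul (g f : PowerSeries ℤ) : s0 (E2 g * f) = g * s0 f := by
  ext n
  have h := coeff_mul_E 2 f g n 0 (by norm_num)
  rw [add_zero] at h
  have e : E2 g * f = f * E 2 g := mul_comm _ _
  rw [s0, coeff_mk, e, h, mul_comm g]
  simp only [add_zero]
  rfl

theorem s0_one : s0 1 = 1 := by
  ext n
  rw [s0, coeff_mk, coeff_one, coeff_one]
  by_cases h : n = 0
  · subst h; simp
  · rw [if_neg h, if_neg (by omega)]

theorem s0_X : s0 X = 0 := by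
  ext n
  rw [s0, coeff_mk, coeff_X, if_neg (by omega), map_zero]

theorem s0_E (g : PowerSeries ℤ) : s0 (E2 g) = g := by
  have := s0_E_mul g 1
  rwa [mul_one, s0_one, mul_one] at this

theorem s0_E_X (g : PowerSeries ℤ) : s0 (E2 g * X) = 0 := by
  rw [s0_E_mul, s0_X, mul_zero]

theorem s0_C_mul (a : ℤ) (f : PowerSeries ℤ) : s0 (C a * f) = C a * s0 f := by
  have h : (C a : PowerSeries ℤ) = E2 (C a) := by rw [E_C]
  conv_lhs => rw [h]
  rw [s0_E_mul]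

/-- decomposition used for explicit computations -/
theorem s0_even_odd (a b : PowerSeries ℤ) : s0 (E2 a + E2 b * X) = a := by
  rw [s0_add, s0_E, s0_E_X, add_zero]

theorem E2_X : E2 X = X ^ 2 := E_X 2

theorem s0_w : s0 w = w := by
  have h : w = E2 (2 * X * U) + E2 (2 * U) * X := by
    have e2 : E2 (2 : PowerSeries ℤ) = 2 := map_ofNat (E 2) 2
    rw [map_mul, map_mul, map_mul, e2, E2_X, w]
    have h := U_eq
    linear_combination (2 * X) * h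
  have h2 := s0_even_odd (2 * X * U) (2 * U)
  rw [← h] at h2
  rw [h2, w]; ring

theorem s0_Xw : s0 (X * w) = w := by
  have h : X * w = E2 (2 * X * U) + E2 (2 * X * U) * X := by
    have e2 : E2 (2 : PowerSeries ℤ) = 2 := map_ofNat (E 2) 2
    rw [map_mul, map_mul, e2, E2_X, w]
    have h := U_eq
    linear_combination (2 * X ^ 2) * h
  have h2 := s0_even_odd (2 * X * U) (2 * X * U)
  rw [← h] at h2
  rw [h2, w]; ring

theorem s0_ka : s0 ka = 2 * ka := by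
  have h : ka = E2 (2 * X * U ^ 2) + E2 (U ^ 2 * (1 + X)) * X := by
    have e2 : E2 (2 : PowerSeries ℤ) = 2 := map_ofNat (E 2) 2
    rw [map_mul, map_mul, map_mul, map_pow, map_add, map_one, e2, E2_X, ka]
    have h := U_eq
    linear_combination (X * (U + (1 + X) * E2 U)) * h
  have h2 := s0_even_odd (2 * X * U ^ 2) (U ^ 2 * (1 + X))
  rw [← h] at h2
  rw [h2, ka]; ring

theorem s0_kaw : s0 (ka * w) = 2 * ka * (2 * G - 1) := by
  have h : ka * w = E2 (2 * X * (1 + 3 * X) * U ^ 3) + E2 (2 * X * (3 + X) * U ^ 3) * X := by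
    have e2 : E2 (2 : PowerSeries ℤ) = 2 := map_ofNat (E 2) 2
    have e3 : E2 (3 : PowerSeries ℤ) = 3 := map_ofNat (E 2) 3
    simp only [map_mul, map_pow, map_add, map_one, e2, e3, E2_X]
    have h := U_eq
    have h3 : (U : PowerSeries ℤ) ^ 3 = (1 + X) ^ 3 * (E2 U) ^ 3 := by
      conv_lhs => rw [h]
      ring
    rw [ka, w]
    linear_combination (2 * X ^ 2) * h3
  have h2 := s0_even_odd (2 * X * (1 + 3 * X) * U ^ 3) (2 * X * (3 + X) * U ^ 3)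
  rw [← h] at h2
  have h1 := hU
  have hG : 2 * G - 1 = (1 + 3 * X) * U := by
    rw [G_eq]
    linear_combination h1
  rw [h2, hG, ka]; ring

/-! ### the rings -/

/-- polynomials in `w` -/
noncomputable def W : Subalgebra ℤ (PowerSeries ℤ) := Algebra.adjoin ℤ {w}

theorem w_mem : w ∈ W := Algebra.subset_adjoin rfl

theorem G_mem : G ∈ W := W.add_mem W.one_mem w_mem

theorem nat_mem (n : ℕ) : (n : PowerSeries ℤ) ∈ W := natCast_mem W n

theorem two_mem : (2 : PowerSeries ℤ) ∈ W := by exact_mod_cast nat_mem 2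

/-- the ring `E(W) + E(W) w` -/
def Vm (f : PowerSeries ℤ) : Prop := ∃ a ∈ W, ∃ b ∈ W, f = E2 a + E2 b * w

theorem Vm.add {f g : PowerSeries ℤ} (hf : Vm f) (hg : Vm g) : Vm (f + g) := by
  obtain ⟨a, ha, b, hb, rfl⟩ := hf
  obtain ⟨c, hc, d, hd, rfl⟩ := hg
  exact ⟨a + c, W.add_mem ha hc, b + d, W.add_mem hb hd, by rw [map_add, map_add]; ring⟩

theorem Vm.mul {f g : PowerSeries ℤ} (hf : Vm f) (hg : Vm g) : Vm (f * g) := by
  obtain ⟨a, ha, b, hb, rfl⟩ := hf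
  obtain ⟨c, hc, d, hd, rfl⟩ := hg
  refine ⟨a * c + 2 * w * (b * d), ?_, a * d + b * c + 2 * w * (b * d), ?_, ?_⟩
  · exact W.add_mem (W.mul_mem ha hc) (W.mul_mem (W.mul_mem two_mem w_mem) (W.mul_mem hb hd))
  · exact W.add_mem (W.add_mem (W.mul_mem ha hd) (W.mul_mem hb hc))
      (W.mul_mem (W.mul_mem two_mem w_mem) (W.mul_mem hb hd))
  · have e2 : E2 (2 : PowerSeries ℤ) = 2 := map_ofNat (E 2) 2
    simp only [map_add, map_mul, e2]
    have h := w_sq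
    rw [G] at h
    linear_combination (E2 b * E2 d) * h

theorem Vm_E {a : PowerSeries ℤ} (ha : a ∈ W) : Vm (E2 a) :=
  ⟨a, ha, 0, W.zero_mem, by rw [map_zero]; ring⟩

theorem Vm_one : Vm 1 := ⟨1, W.one_mem, 0, W.zero_mem, by rw [map_zero, map_one]; ring⟩

theorem Vm_w : Vm w := ⟨0, W.zero_mem, 1, W.one_mem, by rw [map_zero, map_one]; ring⟩

theorem Vm_C (a : ℤ) : Vm (C a) := ⟨C a, W.algebraMap_mem a, 0, W.zero_mem, by
  rw [map_zero, E_C]; ring⟩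

theorem Vm_of_W {f : PowerSeries ℤ} (hf : f ∈ W) : Vm f := by
  refine Algebra.adjoin_induction (p := fun x _ => Vm x) ?_ ?_ ?_ ?_ hf
  · intro x hx
    rw [Set.mem_singleton_iff.mp hx]
    exact Vm_w
  · intro r
    exact Vm_C r
  · intro x y _ _ hx hy
    exact hx.add hy
  · intro x y _ _ hx hy
    exact hx.mul hy

theorem Vm_two : Vm 2 := by
  have : (2 : PowerSeries ℤ) = C 2 := rfl
  rw [this]
  exact Vm_C 2

theorem Vm_G : Vm G := Vm_of_W G_mem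

theorem Vm_Gi : Vm Gi := by
  have h : Gi = C 2 * E2 G + C (-1) * G := by
    have h2 : (C 2 : PowerSeries ℤ) = 2 := rfl
    have h1 : (C (-1) : PowerSeries ℤ) = -1 := by rw [map_neg, map_one]
    rw [Gi, h2, h1]; ring
  rw [h]
  exact ((Vm_C 2).mul (Vm_E G_mem)).add ((Vm_C (-1)).mul Vm_G)

theorem Vm.pow {f : PowerSeries ℤ} (hf : Vm f) (n : ℕ) : Vm (f ^ n) := by
  induction n with
  | zero => rw [pow_zero]; exact Vm_one
  | succ n ih => rw [pow_succ]; exact ih.mul hf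

theorem Vm_four_ka : Vm (4 * ka) := by
  rw [four_ka]
  exact Vm_w.mul (Vm_w.add Vm_two)

theorem Vm_four_Eka : Vm (4 * E2 ka) := by
  have h : 4 * E2 ka = E2 (w * (w + 2)) := by
    rw [← four_ka, map_mul]
    congr 1
    exact (map_ofNat (E 2) 4).symm
  rw [h]
  exact Vm_E (W.mul_mem w_mem (W.add_mem w_mem two_mem))

theorem s0_Vm {f : PowerSeries ℤ} (hf : Vm f) : s0 f ∈ W := by
  obtain ⟨a, ha, b, hb, rfl⟩ := hf
  rw [s0_add, s0_E, s0_E_mul, s0_w]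
  exact W.add_mem ha (W.mul_mem hb w_mem)

theorem s0_ka_Vm {f : PowerSeries ℤ} (hf : Vm f) : ∃ h ∈ W, s0 (ka * f) = 2 * ka * h := by
  obtain ⟨a, ha, b, hb, rfl⟩ := hf
  refine ⟨a + b * (2 * G - 1), ?_, ?_⟩
  · exact W.add_mem ha (W.mul_mem hb (W.sub_mem (W.mul_mem two_mem G_mem) W.one_mem))
  · have e : ka * (E2 a + E2 b * w) = E2 a * ka + E2 b * (ka * w) := by ring
    rw [e, s0_add, s0_E_mul, s0_E_mul, s0_ka, s0_kaw]
    ring

theorem s0_Eka_Vm {f : PowerSeries ℤ} (hf : Vm f) : ∃ h ∈ W, s0 (E2 ka * f) = ka * h :=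
  ⟨s0 f, s0_Vm hf, s0_E_mul ka f⟩

theorem s0_w_Vm {f : PowerSeries ℤ} (hf : Vm f) : ∃ h ∈ W, s0 (w * f) = w * h := by
  obtain ⟨a, ha, b, hb, rfl⟩ := hf
  refine ⟨a + 2 * b * G, ?_, ?_⟩
  · exact W.add_mem ha (W.mul_mem (W.mul_mem two_mem hb) G_mem)
  · have e2 : E2 (2 : PowerSeries ℤ) = 2 := map_ofNat (E 2) 2
    have e : w * (E2 a + E2 b * w) = E2 a * w + E2 (2 * b * w) * G := by
      rw [map_mul, map_mul, e2]
      have h := w_sq
      linear_combination (E2 b) * h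
    have hG : s0 G = G := by rw [G, s0_add, s0_one, s0_w]
    rw [e, s0_add, s0_E_mul, s0_E_mul, s0_w, hG]
    ring

theorem s0_two_X_Vm {f : PowerSeries ℤ} (hf : Vm f) : ∃ h ∈ W, s0 ((1 - X) * w * f) = w * h := by
  obtain ⟨a, ha, b, hb, rfl⟩ := hf
  refine ⟨2 * b, W.mul_mem two_mem hb, ?_⟩
  have e2 : E2 (2 : PowerSeries ℤ) = 2 := map_ofNat (E 2) 2
  have e : (1 - X) * w * (E2 a + E2 b * w) = E2 (2 * a) * X + E2 (2 * b) * (X * w) := by
    rw [map_mul, map_mul, e2]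
    have h1 : (1 - X) * w = 2 * X := by
      rw [w]
      linear_combination (2 * X) * hU
    rw [h1]; ring
  rw [e, s0_add, s0_E_X, s0_E_mul, s0_Xw]
  ring

theorem s0_one_sub_Vm {f : PowerSeries ℤ} (hf : Vm f) : s0 ((1 - X) * f) ∈ W := by
  obtain ⟨a, ha, b, hb, rfl⟩ := hf
  have e : (1 - X) * (E2 a + E2 b * w) = E2 a + E2 b * w - (E2 a * X + E2 b * (X * w)) := by ring
  rw [e, s0_sub, s0_add, s0_add, s0_E, s0_E_mul, s0_E_mul, s0_E_mul, s0_X, s0_w, s0_Xw]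
  have : a + b * w - (a * 0 + b * w) = a := by ring
  rw [this]
  exact ha

/-! ### powers of `G` -/

theorem G_pow_form (m : ℕ) (hm : 1 ≤ m) : ∃ a b : PowerSeries ℤ, Vm a ∧ Vm b ∧
    G ^ (2 ^ m) = 1 + 2 ^ (m + 1) * (ka * a) + 2 ^ (m + 2) * (E2 ka * b) := by
  induction m, hm using Nat.le_induction with
  | base =>
    refine ⟨1, 0, Vm_one, ⟨0, W.zero_mem, 0, W.zero_mem, by simp⟩, ?_⟩
    rw [pow_one, G_sq]; ring
  | succ m hm ih =>
    obtain ⟨a, b, ha, hb, h⟩ := ih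
    obtain ⟨k, rfl⟩ : ∃ k, m = k + 1 := ⟨m - 1, by omega⟩
    have hk : Vm (2 ^ k : PowerSeries ℤ) := Vm_two.pow k
    refine ⟨a, b + 2 ^ k * (G ^ 2 * a ^ 2) + 2 ^ k * ((4 * ka) * (a * b)) +
      2 ^ k * ((4 * E2 ka) * b ^ 2), ha, ?_, ?_⟩
    · have h1 : Vm (2 ^ k * (G ^ 2 * a ^ 2)) := hk.mul ((Vm_G.pow 2).mul (ha.pow 2))
      have h2 : Vm (2 ^ k * ((4 * ka) * (a * b))) := hk.mul (Vm_four_ka.mul (ha.mul hb))
      have h3 : Vm (2 ^ k * ((4 * E2 ka) * b ^ 2)) := hk.mul (Vm_four_Eka.mul (hb.pow 2))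
      exact ((hb.add h1).add h2).add h3
    · have e : (2 : ℕ) ^ (k + 1 + 1) = 2 ^ (k + 1) * 2 := by rw [pow_succ]
      rw [e, pow_mul, h]
      have h5 := ka_sq
      have h6 : (2 : PowerSeries ℤ) ^ (k + 1 + 1) = 4 * 2 ^ k := by
        rw [pow_succ, pow_succ]; ring
      have h7 : (2 : PowerSeries ℤ) ^ (k + 1 + 2) = 8 * 2 ^ k := by
        rw [pow_add, pow_succ]; ring
      have h9 : (2 : PowerSeries ℤ) ^ (k + 1 + 1 + 2) = 16 * 2 ^ k := by
        rw [pow_add, pow_succ, pow_succ]; ring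
      rw [h6, h7, h9]
      linear_combination (16 * (2 ^ k) ^ 2 * a ^ 2) * h5

/-- `f (G^c - 1)` under the section operator -/
theorem s0_delta (m : ℕ) (hm : 1 ≤ m) {f : PowerSeries ℤ} (hf : Vm f) :
    ∃ h ∈ W, s0 (f * G ^ (2 ^ m)) = s0 f + 2 ^ (m + 2) * (ka * h) := by
  obtain ⟨a, b, ha, hb, h⟩ := G_pow_form m hm
  obtain ⟨h1, hh1, e1⟩ := s0_ka_Vm (hf.mul ha)
  obtain ⟨h2, hh2, e2⟩ := s0_Eka_Vm (hf.mul hb)
  refine ⟨h1 + h2, W.add_mem hh1 hh2, ?_⟩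
  have e : f * G ^ (2 ^ m) = f + C (2 ^ (m + 1)) * (ka * (f * a)) +
      C (2 ^ (m + 2)) * (E2 ka * (f * b)) := by
    have c1 : (C (2 ^ (m + 1)) : PowerSeries ℤ) = 2 ^ (m + 1) := by rw [map_pow]; rfl
    have c2 : (C (2 ^ (m + 2)) : PowerSeries ℤ) = 2 ^ (m + 2) := by rw [map_pow]; rfl
    rw [h, c1, c2]; ring
  have c1 : (C (2 ^ (m + 1)) : PowerSeries ℤ) = 2 ^ (m + 1) := by rw [map_pow]; rfl
  have c2 : (C (2 ^ (m + 2)) : PowerSeries ℤ) = 2 ^ (m + 2) := by rw [map_pow]; rfl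
  rw [e, s0_add, s0_add, s0_C_mul, s0_C_mul, e1, e2, c1, c2]
  ring

/-- the operator -/
noncomputable def T (m : ℕ) (f : PowerSeries ℤ) : PowerSeries ℤ := s0 (f * G ^ (2 ^ m))

theorem T_add (m : ℕ) (f g : PowerSeries ℤ) : T m (f + g) = T m f + T m g := by
  rw [T, add_mul, s0_add, T, T]

theorem T_C_mul (m : ℕ) (a : ℤ) (f : PowerSeries ℤ) : T m (C a * f) = C a * T m f := by
  rw [T, mul_assoc, s0_C_mul, T]

theorem Vm_Gpow (n : ℕ) : Vm (G ^ n) := Vm_G.pow n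

/-- contraction on `ka * W` -/
theorem T_ka (m : ℕ) {h : PowerSeries ℤ} (hh : h ∈ W) : ∃ h' ∈ W, T m (ka * h) = 2 * (ka * h') := by
  obtain ⟨h1, hh1, e1⟩ := s0_ka_Vm ((Vm_of_W hh).mul (Vm_Gpow (2 ^ m)))
  refine ⟨h1, hh1, ?_⟩
  rw [T, mul_assoc, e1]; ring

theorem T_one (m : ℕ) (hm : 1 ≤ m) : ∃ h ∈ W, T m 1 = 1 + 2 ^ (m + 2) * (ka * h) := by
  obtain ⟨h, hh, e⟩ := s0_delta m hm Vm_one
  exact ⟨h, hh, by rw [T, e, s0_one]⟩

/-- `X U` -/
theorem T_z (m : ℕ) (hm : 1 ≤ m) : ∃ h ∈ W, T m (X * U) = X * U + 2 * (ka * h) := by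
  obtain ⟨h, hh, e⟩ := s0_delta m hm Vm_w
  refine ⟨2 ^ m * h, W.mul_mem (W.pow_mem two_mem m) hh, ?_⟩
  have h2 : C 2 * T m (X * U) = C 2 * (X * U + 2 * (ka * (2 ^ m * h))) := by
    rw [← T_C_mul]
    have c2 : (C 2 : PowerSeries ℤ) = 2 := rfl
    have e3 : C 2 * (X * U) = w := by rw [c2, w]
    rw [e3, T, e, s0_w, c2]
    have : (2 : PowerSeries ℤ) ^ (m + 2) = 4 * 2 ^ m := by rw [pow_add]; ring
    rw [this, w]; ring
  have h3 : (C 2 : PowerSeries ℤ) ≠ 0 := by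
    intro h
    have := congrArg (coeff 0) h
    rw [coeff_C, if_pos rfl, map_zero] at this
    norm_num at this
  exact mul_left_cancel₀ h3 h2

/-- every polynomial in `w` is an integer plus a multiple of `w + 2` -/
theorem W_decomp {f : PowerSeries ℤ} (hf : f ∈ W) :
    ∃ r : ℤ, ∃ h ∈ W, f = C r + (w + 2) * h := by
  refine Algebra.adjoin_induction
    (p := fun x _ => ∃ r : ℤ, ∃ h ∈ W, x = C r + (w + 2) * h) ?_ ?_ ?_ ?_ hf
  · intro x hx
    rw [Set.mem_singleton_iff.mp hx]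
    refine ⟨-2, 1, W.one_mem, ?_⟩
    have c2 : (C (-2) : PowerSeries ℤ) = -2 := by rw [map_neg]; rfl
    rw [c2]; ring
  · intro r
    exact ⟨r, 0, W.zero_mem, by rw [mul_zero, add_zero]; rfl⟩
  · rintro x y _ _ ⟨r, h, hh, rfl⟩ ⟨r', h', hh', rfl⟩
    exact ⟨r + r', h + h', W.add_mem hh hh', by rw [map_add]; ring⟩
  · rintro x y _ _ ⟨r, h, hh, rfl⟩ ⟨r', h', hh', rfl⟩
    refine ⟨r * r', C r * h' + C r' * h + (w + 2) * (h * h'), ?_, by rw [map_mul]; ring⟩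
    exact W.add_mem (W.add_mem (W.mul_mem (W.algebraMap_mem r) hh')
      (W.mul_mem (W.algebraMap_mem r') hh)) (W.mul_mem (W.add_mem w_mem two_mem) (W.mul_mem hh hh'))

theorem z_mul_w_add : X * U * (w + 2) = 2 * ka := by
  rw [w, ka]
  linear_combination (-2 * X * U) * hU

/-- `(T - 1)` on `z W` -/
theorem T_zW (m : ℕ) (hm : 1 ≤ m) {f : PowerSeries ℤ} (hf : f ∈ W) :
    ∃ h ∈ W, T m (X * U * f) = X * U * f + 2 * (ka * h) := by
  obtain ⟨r, g, hg, rfl⟩ := W_decomp hf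
  obtain ⟨h1, hh1, e1⟩ := T_z m hm
  obtain ⟨h2, hh2, e2⟩ := T_ka m hg
  refine ⟨C r * h1 + 2 * h2 - g, W.sub_mem (W.add_mem (W.mul_mem (W.algebraMap_mem r) hh1)
    (W.mul_mem two_mem hh2)) hg, ?_⟩
  have c2 : (C 2 : PowerSeries ℤ) = 2 := rfl
  have e : X * U * (C r + (w + 2) * g) = C r * (X * U) + C 2 * (ka * g) := by
    have h := z_mul_w_add
    rw [c2]
    linear_combination g * h
  rw [e, T_add, T_C_mul, T_C_mul, e1, e2, c2]
  ring

/-! ### the first `m + 1` steps -/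

/-- sections of `(1-X)^(2e)` times something -/
theorem s0_one_sub_pow (e : ℕ) (f : PowerSeries ℤ) :
    s0 ((1 - X) ^ (2 * e) * f) = (1 - X) ^ e * s0 (Gi ^ e * f) := by
  have h : (1 - X : PowerSeries ℤ) ^ (2 * e) * f = E2 ((1 - X) ^ e) * (Gi ^ e * f) := by
    rw [pow_mul, one_sub_sq, mul_pow, map_pow]; ring
  rw [h, s0_E_mul]

theorem coeff_iter_s0 (j : ℕ) (f : PowerSeries ℤ) (n : ℕ) :
    coeff n (s0^[j] f) = coeff (2 ^ j * n) f := by
  induction j generalizing n with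
  | zero => simp
  | succ j ih =>
    have e : 2 ^ j * (2 * n) = 2 ^ (j + 1) * n := by ring
    rw [Function.iterate_succ_apply', s0, coeff_mk, ih, e]

theorem iter_g (m : ℕ) (hm : 1 ≤ m) : s0^[m] ((1 - X) ^ (2 ^ m)) = 1 + X := by
  ext n
  rw [coeff_iter_s0]
  have h : ((1 - X : PowerSeries ℤ)) ^ (2 ^ m) =
      ((((1 : Polynomial ℤ) + Polynomial.C (-1) * Polynomial.X) ^ (2 ^ m) : Polynomial ℤ) :
        PowerSeries ℤ) := by
    rw [Polynomial.coe_pow, Polynomial.coe_add, Polynomial.coe_mul, Polynomial.coe_one,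
      Polynomial.coe_X, Polynomial.coe_C]
    congr 1
    simp [sub_eq_add_neg]
  have hc : ∀ k, coeff k ((1 - X : PowerSeries ℤ) ^ (2 ^ m)) = (-1) ^ k * ((2 ^ m).choose k : ℤ) := by
    intro k
    have h2 : (1 - X : PowerSeries ℤ) ^ (2 ^ m) = PowerSeries.rescale (-1 : ℤ) ((1 + X) ^ (2 ^ m)) := by
      rw [map_pow, map_add, map_one, rescale_neg_one_X]
      ring
    rw [h2, coeff_rescale, coeff_one_add_X_pow]
  rw [hc]
  have heven : Even (2 ^ m) := by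
    rw [Nat.even_pow]; exact ⟨even_two, by omega⟩
  have h1 : ((-1 : ℤ)) ^ (2 ^ m * n) = 1 := by
    rw [pow_mul, heven.neg_one_pow, one_pow]
  rw [h1, one_mul, map_add, coeff_one, coeff_X]
  rcases Nat.lt_or_ge n 2 with h3 | h3
  · interval_cases n
    · simp
    · simp
  · rw [Nat.choose_eq_zero_of_lt, if_neg (by omega), if_neg (by omega)]
    · simp
    · have : 2 ^ m * 1 < 2 ^ m * n := Nat.mul_lt_mul_of_pos_left (by omega) (by positivity)
      omega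

theorem steps (m : ℕ) (hm : 1 ≤ m) (j : ℕ) : ∀ i, i + j = m → ∃ u ∈ W, ∃ h ∈ W,
    s0^[j] ((1 - X) ^ (2 ^ m)) = (1 - X) ^ (2 ^ i) * u ∧
    (T m)^[j] ((1 - X) ^ (2 ^ m)) = (1 - X) ^ (2 ^ i) * u + 2 ^ m * ((1 - X) ^ (2 ^ i) * (w * h)) := by
  induction j with
  | zero =>
    intro i hi
    refine ⟨1, W.one_mem, 0, W.zero_mem, ?_, ?_⟩
    · have : i = m := by omega
      simp [this]
    · have : i = m := by omega
      simp [this]
  | succ j ih =>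
    intro i hi
    obtain ⟨u, hu, h, hh, e1, e2⟩ := ih (i + 1) (by omega)
    have hexp : 2 ^ (i + 1) = 2 * 2 ^ i := by rw [pow_succ]; ring
    have hGi : Vm (Gi ^ (2 ^ i)) := Vm_Gi.pow _
    obtain ⟨h1, hh1, e3⟩ := s0_delta m hm (hGi.mul (Vm_of_W hu))
    obtain ⟨h2, hh2, e4⟩ := s0_w_Vm ((hGi.mul (Vm_of_W hh)).mul (Vm_Gpow (2 ^ m)))
    refine ⟨s0 (Gi ^ (2 ^ i) * u), s0_Vm (hGi.mul (Vm_of_W hu)), (w + 2) * h1 + h2,
      W.add_mem (W.mul_mem (W.add_mem w_mem two_mem) hh1) hh2, ?_, ?_⟩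
    · rw [Function.iterate_succ_apply', e1, hexp, s0_one_sub_pow]
    · rw [Function.iterate_succ_apply', e2, T]
      have c : (C (2 ^ m) : PowerSeries ℤ) = 2 ^ m := by rw [map_pow]; rfl
      have e5 : ((1 - X) ^ (2 ^ (i + 1)) * u + 2 ^ m * ((1 - X) ^ (2 ^ (i + 1)) * (w * h))) *
          G ^ (2 ^ m) = (1 - X) ^ (2 * 2 ^ i) * (u * G ^ (2 ^ m)) +
          C (2 ^ m) * ((1 - X) ^ (2 * 2 ^ i) * (w * h * G ^ (2 ^ m))) := by
        rw [hexp, c]; ring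
      rw [e5, s0_add, s0_C_mul, s0_one_sub_pow, s0_one_sub_pow, c]
      have e6 : Gi ^ (2 ^ i) * (u * G ^ (2 ^ m)) = Gi ^ (2 ^ i) * u * G ^ (2 ^ m) := by ring
      have e7 : Gi ^ (2 ^ i) * (w * h * G ^ (2 ^ m)) = w * (Gi ^ (2 ^ i) * h * G ^ (2 ^ m)) := by ring
      rw [e6, e7, e3, e4]
      have h4 := four_ka
      have h5 : (2 : PowerSeries ℤ) ^ (m + 2) = 4 * 2 ^ m := by rw [pow_add]; ring
      rw [h5]
      linear_combination ((1 - X) ^ (2 ^ i) * 2 ^ m * h1) * h4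

/-- after `m + 1` steps -/
theorem step_last (m : ℕ) (hm : 1 ≤ m) : ∃ h ∈ W,
    (T m)^[m + 1] ((1 - X) ^ (2 ^ m)) = 1 + 2 ^ m * (w * h) := by
  obtain ⟨u, hu, h, hh, e1, e2⟩ := steps m hm m 0 (by omega)
  rw [iter_g m hm] at e1
  rw [← e1] at e2
  obtain ⟨a, b, ha, hb, hG⟩ := G_pow_form m hm
  -- the first part
  obtain ⟨h1, hh1, e3⟩ := s0_w_Vm (Vm_G.mul ha)
  have hh2 := s0_one_sub_Vm (Vm_G.mul hb)
  obtain ⟨h3, hh3, e4⟩ := s0_two_X_Vm ((Vm_of_W hh).mul (Vm_Gpow (2 ^ m)))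
  refine ⟨h1 + (w + 2) * s0 ((1 - X) * (G * b)) + h3, W.add_mem (W.add_mem hh1
    (W.mul_mem (W.add_mem w_mem two_mem) hh2)) hh3, ?_⟩
  have c : (C (2 ^ m) : PowerSeries ℤ) = 2 ^ m := by rw [map_pow]; rfl
  have c2 : (C (2 ^ (m + 2)) : PowerSeries ℤ) = 2 ^ (m + 2) := by rw [map_pow]; rfl
  have hX : (1 + X : PowerSeries ℤ) = (1 - X) * G := by
    rw [G_eq]
    linear_combination (-(1 + X)) * hU
  have hka : (1 - X) * ka * 2 = w := by
    rw [ka, w]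
    linear_combination (2 * X * U) * hU
  have e5 : (1 + X + 2 ^ m * ((1 - X) ^ (2 ^ 0) * (w * h))) * G ^ (2 ^ m) =
      1 + X + C (2 ^ m) * (w * (G * a)) + C (2 ^ (m + 2)) * (E2 ka * ((1 - X) * (G * b))) +
      C (2 ^ m) * ((1 - X) * w * (h * G ^ (2 ^ m))) := by
    have e6 : (1 + X) * G ^ (2 ^ m) = 1 + X + C (2 ^ m) * (w * (G * a)) +
        C (2 ^ (m + 2)) * (E2 ka * ((1 - X) * (G * b))) := by
      rw [hG, c, c2, ← hka]
      have h5 : (2 : PowerSeries ℤ) ^ (m + 1) = 2 * 2 ^ m := by rw [pow_add]; ring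
      rw [h5]
      linear_combination (2 * 2 ^ m * (ka * a) + 2 ^ (m + 2) * (E2 ka * b)) * hX
    rw [add_mul, e6, c, pow_zero, pow_one]
    ring
  rw [Function.iterate_succ_apply', e2, T, e5, s0_add, s0_add, s0_add, s0_add, s0_C_mul, s0_C_mul,
    s0_C_mul, s0_one, s0_X, e3, s0_E_mul, e4, c, c2]
  have h4 := four_ka
  have h5 : (2 : PowerSeries ℤ) ^ (m + 2) = 4 * 2 ^ m := by rw [pow_add]; ring
  rw [h5]
  linear_combination (2 ^ m * s0 ((1 - X) * (G * b))) * h4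

theorem T_sub (m : ℕ) (f g : PowerSeries ℤ) : T m (f - g) = T m f - T m g := by
  rw [T, sub_mul, s0_sub, T, T]

/-- differences of consecutive states -/
theorem diff_form (m : ℕ) (hm : 1 ≤ m) (t : ℕ) : ∃ h ∈ W,
    (T m)^[m + 1 + t + 1] ((1 - X) ^ (2 ^ m)) - (T m)^[m + 1 + t] ((1 - X) ^ (2 ^ m)) =
      2 ^ (m + 2 + t) * (ka * h) := by
  induction t with
  | zero =>
    obtain ⟨h, hh, e⟩ := step_last m hm
    obtain ⟨h1, hh1, e1⟩ := T_one m hm
    obtain ⟨h2, hh2, e2⟩ := T_zW m hm hh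
    refine ⟨h1 + h2, W.add_mem hh1 hh2, ?_⟩
    have c : (C (2 ^ (m + 1)) : PowerSeries ℤ) = 2 ^ (m + 1) := by rw [map_pow]; rfl
    have e3 : (1 + 2 ^ m * (w * h) : PowerSeries ℤ) = 1 + C (2 ^ (m + 1)) * (X * U * h) := by
      rw [c, w, pow_succ]; ring
    rw [add_zero, Function.iterate_succ_apply', e, e3, T_add, T_C_mul, e1, e2, c]
    rw [pow_add 2 m 2, pow_add 2 m 1]
    ring
  | succ t ih =>
    obtain ⟨h, hh, e⟩ := ih
    obtain ⟨h1, hh1, e1⟩ := T_ka m hh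
    refine ⟨h1, hh1, ?_⟩
    have c : (C (2 ^ (m + 2 + t)) : PowerSeries ℤ) = 2 ^ (m + 2 + t) := by rw [map_pow]; rfl
    have e2 : T m ((T m)^[m + 1 + t + 1] ((1 - X) ^ (2 ^ m)) -
        (T m)^[m + 1 + t] ((1 - X) ^ (2 ^ m))) = T m (C (2 ^ (m + 2 + t)) * (ka * h)) := by
      rw [e, c]
    rw [T_sub, T_C_mul, e1, c, ← Function.iterate_succ_apply' (T m),
      ← Function.iterate_succ_apply' (T m)] at e2
    have e3 : m + 1 + (t + 1) + 1 = (m + 1 + t + 1).succ := by omega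
    have e4 : m + 1 + (t + 1) = (m + 1 + t).succ := by omega
    rw [e3, e4, e2, show m + 2 + (t + 1) = (m + 2 + t) + 1 by ring, pow_succ]
    ring

/-! ### the partition numbers -/

/-- sections of the generating function -/
theorem iter_section (m : ℕ) (H : PowerSeries ℤ) (hH : H = G ^ (2 ^ m) * E2 H)
    (f : PowerSeries ℤ) (j : ℕ) : s0^[j] (f * H) = (T m)^[j] f * H := by
  induction j with
  | zero => rfl
  | succ j ih =>
    rw [Function.iterate_succ_apply', Function.iterate_succ_apply', ih]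
    have e : (T m)^[j] f * H = E2 H * ((T m)^[j] f * G ^ (2 ^ m)) := by
      conv_lhs => rw [hH]
      ring
    rw [e, s0_E_mul, T, mul_comm]

theorem main (m : ℕ) (hm : 1 ≤ m) (f : PowerSeries ℤ) (hf : f = U ^ (2 ^ m) * E2 f) (k n : ℕ)
    (hk : m + 2 ≤ k) : (2 : ℤ) ^ k ∣ coeff (2 ^ k * n) f - coeff (2 ^ (k - 1) * n) f := by
  obtain ⟨t, rfl⟩ : ∃ t, k = m + 2 + t := ⟨k - (m + 2), by omega⟩
  set H : PowerSeries ℤ := U ^ (2 ^ m) * f with hHdef
  have hfH : f = (1 - X) ^ (2 ^ m) * H := by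
    rw [hHdef, ← mul_assoc, ← mul_pow, mul_comm (1 - X) U, hU, one_pow, one_mul]
  have hH : H = G ^ (2 ^ m) * E2 H := by
    have h1 : E2 f = E2 ((1 - X) ^ (2 ^ m)) * E2 H := by rw [← map_mul, ← hfH]
    have h2 : H = U ^ (2 ^ m) * (U ^ (2 ^ m) * E2 f) := by rw [hHdef]; conv_lhs => rw [hf]
    have h3 : (U * U * E2 (1 - X) : PowerSeries ℤ) = G := by
      rw [map_sub, map_one, E_X, G_eq]
      linear_combination ((1 + X) * U) * hU
    have h4 : H = (U * U * E2 (1 - X)) ^ (2 ^ m) * E2 H := by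
      conv_lhs => rw [h2, h1]
      rw [map_pow, mul_pow, mul_pow]
      ring
    rw [h3] at h4
    exact h4
  obtain ⟨h, hh, e⟩ := diff_form m hm t
  have h1 : coeff (2 ^ (m + 2 + t) * n) f - coeff (2 ^ (m + 2 + t - 1) * n) f =
      coeff n (((T m)^[m + 1 + t + 1] ((1 - X) ^ (2 ^ m)) -
        (T m)^[m + 1 + t] ((1 - X) ^ (2 ^ m))) * H) := by
    rw [sub_mul, map_sub, ← iter_section m H hH, ← iter_section m H hH, coeff_iter_s0,
      coeff_iter_s0, ← hfH]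
    have e1 : m + 1 + t + 1 = m + 2 + t := by ring
    have e2 : m + 2 + t - 1 = m + 1 + t := by omega
    rw [e1, e2]
  rw [h1, e]
  have c : (C (2 ^ (m + 2 + t)) : PowerSeries ℤ) = 2 ^ (m + 2 + t) := by rw [map_pow]; rfl
  rw [← c, mul_assoc, coeff_C_mul]
  exact dvd_mul_right _ _

end Pool.Agent.Q40.CK.Bin
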