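import Mathlib
import Pool.Agent.Q40.CK.BaseTwo

/-!
The numbers `S 2 1023 n`: exact initial state and computation of states modulo `8192`.
-/

namespace Pool.Agent.Q40.CK.Two

open PowerSeries Pool.Agent.Q35 Pool.Agent.Q40.CK

/-! ### coefficients of `G^e (1+X)^d` -/

theorem coeff_Gpow (e i : ℕ) : coeff i (G ^ e) = (e.choose i : ℤ) * 2 ^ i := by
  have h : G = rescale (2 : ℤ) (1 + X) := by
    ext n
    rw [coeff_rescale, G, map_add, map_add]
    have h2 : (2 : PowerSeries ℤ) = C (2 : ℤ) := rfl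
    rw [h2, coeff_C_mul, coeff_X, coeff_one]
    rcases Nat.eq_zero_or_pos n with rfl | hn
    · simp
    · rw [if_neg (by omega)]
      split_ifs with h1
      · subst h1; norm_num
      · norm_num
  rw [h, ← map_pow, coeff_rescale, coeff_one_add_X_pow, mul_comm]

/-- a binomial coefficient -/
def ch (e i : ℕ) : ℕ := e.descFactorial i / i.factorial

theorem ch_eq (e i : ℕ) : ch e i = e.choose i :=
  (Nat.choose_eq_descFactorial_div_factorial e i).symm

/-- the coefficient of `z^i` in `(1+2z)^e (1+z)^d` -/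
def cf (e d i : ℕ) : ℕ :=
  ch e i * 2 ^ i + (if d = 1 ∧ 1 ≤ i then ch e (i - 1) * 2 ^ (i - 1) else 0)

theorem coeff_cf (e d i : ℕ) (hd : d < 2) :
    coeff i (G ^ e * (1 + X) ^ d) = ((cf e d i : ℕ) : ℤ) := by
  rw [cf, ch_eq, ch_eq]
  interval_cases d
  · rw [pow_zero, mul_one, coeff_Gpow, if_neg (by omega)]
    push_cast
    ring
  · rw [pow_one, mul_add, mul_one, map_add, coeff_Gpow]
    rcases Nat.eq_zero_or_pos i with rfl | hi
    · simp
    · obtain ⟨k, rfl⟩ : ∃ k, i = k + 1 := ⟨i - 1, by omega⟩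
      rw [coeff_succ_mul_X, coeff_Gpow, if_pos ⟨rfl, by omega⟩]
      push_cast
      simp

/-! ### the initial state -/

/-- the operator `T m 0` in terms of `B = A (1+z)` -/
noncomputable def TB (m : ℕ) (B : PowerSeries ℤ) : PowerSeries ℤ :=
  mk fun r => if r = 0 then coeff 0 B else coeff (2 * r) (B * (1 + X) * G ^ (m + r - 1))

theorem coeff_zero_A0 : coeff 0 A0 = 1 := by rw [A0, coeff_mk, pow_zero]

theorem T_zero (m : ℕ) (B : PowerSeries ℤ) : T m 0 (A0 * B) = A0 * TB m B := by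
  have h : (1 + X) * T m 0 (A0 * B) = TB m B := by
    ext r
    rw [add_mul, one_mul, map_add, TB, coeff_mk]
    rcases Nat.eq_zero_or_pos r with rfl | hr
    · rw [if_pos rfl, coeff_zero_X_mul, add_zero, coeff_T, Nat.mul_zero, Nat.add_zero, pow_zero,
        mul_one]
      simp only [coeff_zero_eq_constantCoeff_apply, map_mul, map_pow]
      have h1 := coeff_zero_G
      have h2 := coeff_zero_A0
      rw [coeff_zero_eq_constantCoeff_apply] at h1 h2
      rw [h1, h2]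
      ring
    · obtain ⟨k, rfl⟩ : ∃ k, r = k + 1 := ⟨r - 1, by omega⟩
      rw [if_neg (by omega), coeff_succ_X_mul, coeff_T, coeff_T]
      have e1 : 2 * (k + 1) + 0 = (2 * k) + 2 := by ring
      have e2 : 2 * (k + 1) = (2 * k) + 2 := by ring
      have e3 : coeff (2 * k + 0) (A0 * B * G ^ (m + k) * (1 + X) ^ 0) =
          coeff (2 * k + 2) (A0 * B * G ^ (m + k) * X ^ 2) := by
        rw [coeff_mul_X_pow, pow_zero, mul_one, add_zero]
      have e4 : m + (k + 1) - 1 = m + k := by omega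
      rw [e3, e1, e2, ← map_add, e4]
      congr 1
      have e5 : (B : PowerSeries ℤ) = (A0 * (1 + X)) * B := by rw [A0_mul, one_mul]
      conv_rhs => rw [e5]
      have e6 := G_eq
      rw [show m + (k + 1) = m + k + 1 from rfl, pow_succ]
      linear_combination (-A0 * B * G ^ (m + k)) * e6
  calc T m 0 (A0 * B) = (A0 * (1 + X)) * T m 0 (A0 * B) := by rw [A0_mul, one_mul]
    _ = _ := by rw [mul_assoc, h]

theorem coeff_T_one (m r : ℕ) (B : PowerSeries ℤ) :
    coeff r (T m 1 (A0 * B)) = coeff (2 * r + 1) (B * G ^ (m + r)) := by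
  rw [coeff_T]
  congr 1
  calc A0 * B * G ^ (m + r) * (1 + X) ^ 1 = (A0 * (1 + X)) * (B * G ^ (m + r)) := by ring
    _ = _ := by rw [A0_mul, one_mul]

/-- coefficients of `TB m 1` -/
def bx (m j : ℕ) : ℕ := if j = 0 then 1 else cf (m + j - 1) 1 (2 * j)

theorem coeff_TB_one (m j : ℕ) : coeff j (TB m 1) = ((bx m j : ℕ) : ℤ) := by
  rw [TB, coeff_mk, bx]
  split_ifs with h
  · simp
  · have e : (1 : PowerSeries ℤ) * (1 + X) * G ^ (m + j - 1) = G ^ (m + j - 1) * (1 + X) ^ 1 := by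
      ring
    rw [e, coeff_cf _ _ _ (by norm_num)]

theorem TB_Dv (m : ℕ) : Dv 0 (TB m 1) := by
  intro r
  rcases Nat.eq_zero_or_pos r with rfl | hr
  · norm_num
  · rw [TB, coeff_mk, if_neg (by omega)]
    have e : (1 : PowerSeries ℤ) * (1 + X) * G ^ (m + r - 1) = G ^ (m + r - 1) * (1 + X) ^ 1 := by
      ring
    rw [e]
    apply dvd_one_add _ _ (2 * r - 1) 1 _ _ (by omega)
    intro i hi
    exact dvd_trans (pow_dvd_pow 2 (by omega)) (Dv_Gpow (m + r - 1) i)

/-- convolution sums -/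
def sm (f : ℕ → ℕ) : ℕ → ℕ
  | 0 => 0
  | k + 1 => sm f k + f k

theorem sm_eq (f : ℕ → ℕ) (n : ℕ) : sm f n = ∑ i ∈ Finset.range n, f i := by
  induction n with
  | zero => rfl
  | succ n ih => rw [sm, Finset.sum_range_succ, ih]

/-- coefficients of the state for `n = 2` -/
def ax (m r : ℕ) : ℕ := sm (fun j => bx m j * cf (m + r) 0 (2 * r + 1 - j)) (2 * r + 2)

/-- the state for `n = 2` -/
noncomputable def S2 (m : ℕ) : PowerSeries ℤ := T m 1 (T m 0 A0)

theorem S2_eq (m : ℕ) : S2 m = T m 1 (A0 * TB m 1) := by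
  rw [S2]
  have h := T_zero m 1
  rw [mul_one] at h
  rw [h]

theorem coeff_S2 (m r : ℕ) : coeff r (S2 m) = ((ax m r : ℕ) : ℤ) := by
  rw [S2_eq, coeff_T_one, coeff_mul, Finset.Nat.sum_antidiagonal_eq_sum_range_succ
    (fun i j => coeff i (TB m 1) * coeff j (G ^ (m + r))), ax, sm_eq]
  push_cast
  apply Finset.sum_congr rfl
  intro j _
  rw [coeff_TB_one]
  have h := coeff_cf (m + r) 0 (2 * r + 1 - j) (by norm_num)
  rw [pow_zero, mul_one] at h
  rw [h]

theorem S2_dvd (m r : ℕ) : (2 : ℤ) ^ (2 * r + 1) ∣ coeff r (S2 m) := by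
  rw [S2_eq, coeff_T_one]
  have := ((TB_Dv m).mul (Dv_Gpow (m + r))) (2 * r + 1)
  exact dvd_trans (pow_dvd_pow 2 (by omega)) this

theorem ax_chk : ax 1023 0 % 4096 = 2048 ∧ ∀ r < 10, ax 1023 r % 2 ^ (11 + r) = 0 := by
  decide +kernel

/-- the normalised state for `n = 2` -/
noncomputable def N2 : PowerSeries ℤ := mk fun r => ((ax 1023 r / 2048 : ℕ) : ℤ)

theorem ax_dvd (r : ℕ) : 2 ^ (11 + r) ∣ ax 1023 r := by
  rcases Nat.lt_or_ge r 10 with h | h
  · exact Nat.dvd_of_mod_eq_zero (ax_chk.2 r h)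
  · have h1 := S2_dvd 1023 r
    rw [coeff_S2] at h1
    have h2 : 2 ^ (2 * r + 1) ∣ ax 1023 r := by exact_mod_cast h1
    exact dvd_trans (pow_dvd_pow 2 (by omega)) h2

theorem S2_N2 : S2 1023 = C (2048 : ℤ) * N2 := by
  ext r
  rw [coeff_C_mul, N2, coeff_mk, coeff_S2]
  have h : 2048 ∣ ax 1023 r := dvd_trans ⟨2 ^ r, by rw [pow_add]; norm_num⟩ (ax_dvd r)
  have h2 : ax 1023 r = 2048 * (ax 1023 r / 2048) := (Nat.mul_div_cancel' h).symm
  have h3 : ((ax 1023 r : ℕ) : ℤ) = 2048 * ((ax 1023 r / 2048 : ℕ) : ℤ) := by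
    exact_mod_cast h2
  exact h3

theorem N2_Good : Good N2 := by
  refine ⟨?_, ?_⟩
  · rw [N2, coeff_mk]
    have h := ax_chk.1
    have h1 : (ax 1023 0 / 2048) % 2 = 1 := by omega
    exact_mod_cast h1
  · intro r
    rw [N2, coeff_mk, zero_add]
    have h := ax_dvd r
    rw [pow_add] at h
    have h2 : 2 ^ r ∣ ax 1023 r / 2048 := by
      obtain ⟨k, hk⟩ := h
      refine ⟨k, ?_⟩
      rw [hk]
      have : 2 ^ 11 * 2 ^ r * k = 2048 * (2 ^ r * k) := by ring
      rw [this, Nat.mul_div_cancel_left _ (by norm_num)]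
    exact_mod_cast h2

/-! ### computation modulo `8192` -/

/-- matrix entries -/
def en (d r j : ℕ) : ℕ := if j ≤ 2 * r + d then cf (1023 + r) d (2 * r + d - j) % 8192 else 0

/-- the two tables -/
def tab (d : ℕ) : List (List ℕ) :=
  if d = 0 then 
    [[1, 0, 0, 0, 0, 0, 0, 0, 0, 0, 0, 0, 0],
    [6144, 2048, 1, 0, 0, 0, 0, 0, 0, 0, 0, 0, 0],
    [4096, 4096, 2048, 2050, 1, 0, 0, 0, 0, 0, 0, 0, 0],
    [0, 0, 4096, 0, 6148, 2052, 1, 0, 0, 0, 0, 0, 0],
    [0, 0, 0, 0, 4096, 4104, 2060, 2054, 1, 0, 0, 0, 0],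
    [0, 0, 0, 0, 0, 0, 4112, 32, 6168, 2056, 1, 0, 0],
    [0, 0, 0, 0, 0, 0, 0, 32, 4176, 4176, 2088, 2058, 1],
    [0, 0, 0, 0, 0, 0, 0, 0, 64, 192, 4336, 160, 6204],
    [0, 0, 0, 0, 0, 0, 0, 0, 0, 128, 448, 672, 4656],
    [0, 0, 0, 0, 0, 0, 0, 0, 0, 0, 256, 1024, 1792],
    [0, 0, 0, 0, 0, 0, 0, 0, 0, 0, 0, 512, 2304],
    [0, 0, 0, 0, 0, 0, 0, 0, 0, 0, 0, 0, 1024],
    [0, 0, 0, 0, 0, 0, 0, 0, 0, 0, 0, 0, 0]]
  else 
    [[2047, 1, 0, 0, 0, 0, 0, 0, 0, 0, 0, 0, 0],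
    [6144, 0, 2049, 1, 0, 0, 0, 0, 0, 0, 0, 0, 0],
    [4096, 0, 6144, 4098, 2051, 1, 0, 0, 0, 0, 0, 0, 0],
    [0, 0, 4096, 4096, 6148, 8, 2053, 1, 0, 0, 0, 0, 0],
    [0, 0, 0, 0, 4096, 8, 6164, 4114, 2055, 1, 0, 0, 0],
    [0, 0, 0, 0, 0, 0, 4112, 4144, 6200, 32, 2057, 1, 0],
    [0, 0, 0, 0, 0, 0, 0, 32, 4208, 160, 6264, 4146, 2059],
    [0, 0, 0, 0, 0, 0, 0, 0, 64, 256, 4528, 4496, 6364],
    [0, 0, 0, 0, 0, 0, 0, 0, 0, 128, 576, 1120, 5328],
    [0, 0, 0, 0, 0, 0, 0, 0, 0, 0, 256, 1280, 2816],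
    [0, 0, 0, 0, 0, 0, 0, 0, 0, 0, 0, 512, 2816],
    [0, 0, 0, 0, 0, 0, 0, 0, 0, 0, 0, 0, 1024],
    [0, 0, 0, 0, 0, 0, 0, 0, 0, 0, 0, 0, 0]]

theorem tab_chk : ∀ d < 2, ∀ r < 13, ∀ j < 13, ((tab d).getD r []).getD j 0 = en d r j := by
  decide +kernel

/-- scalar product -/
def dot : List ℕ → List ℕ → ℕ
  | a :: l, b :: k => a * b + dot l k
  | _, _ => 0

/-- one step -/
def mv (d : ℕ) (v : List ℕ) : List ℕ := (tab d).map fun row => dot row v % 8192

theorem dot_eq : ∀ (l k : List ℕ), dot l k = sm (fun i => l.getD i 0 * k.getD i 0) l.length := by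
  intro l
  induction l with
  | nil => intro k; rfl
  | cons a l ih =>
    intro k
    cases k with
    | nil =>
      rw [dot, sm_eq]
      · symm
        apply Finset.sum_eq_zero
        intro i _
        rw [List.getD_nil, mul_zero]
      · intro a l b k h; simp
    | cons b k =>
      rw [dot, ih, sm_eq, sm_eq, List.length_cons, Finset.sum_range_succ']
      simp only [List.getD_cons_succ, List.getD_cons_zero]
      ring

/-- coefficient modulo `8192` -/
noncomputable def c8 (i : ℕ) (A : PowerSeries ℤ) : ZMod 8192 := ((coeff i A : ℤ) : ZMod 8192)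

/-- the list describes the state modulo `8192` -/
def Rep (l : List ℕ) (A : PowerSeries ℤ) : Prop :=
  l.length = 13 ∧ ∀ i, i < 13 → c8 i A = ((l.getD i 0 : ℕ) : ZMod 8192)

theorem c8_zero (A : PowerSeries ℤ) (hA : Dv 0 A) (i : ℕ) (hi : 13 ≤ i) : c8 i A = 0 := by
  rw [c8, ZMod.intCast_zmod_eq_zero_iff_dvd]
  refine dvd_trans ?_ (hA i)
  have : ((8192 : ℕ) : ℤ) = 2 ^ 13 := by norm_num
  rw [this]
  exact pow_dvd_pow 2 (by omega)

theorem en_cast (d r j : ℕ) (hj : j ≤ 2 * r + d) :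
    ((en d r j : ℕ) : ZMod 8192) = ((cf (1023 + r) d (2 * r + d - j) : ℕ) : ZMod 8192) := by
  rw [en, if_pos hj, ZMod.natCast_mod]

theorem tab_len (d r : ℕ) (hd : d < 2) (hr : r < 13) : ((tab d).getD r []).length = 13 := by
  have : ∀ d < 2, ∀ r < 13, ((tab d).getD r []).length = 13 := by decide +kernel
  exact this d hd r hr

theorem tab_length (d : ℕ) (hd : d < 2) : (tab d).length = 13 := by
  have : ∀ d < 2, (tab d).length = 13 := by decide +kernel
  exact this d hd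

theorem Rep.step {l : List ℕ} {A : PowerSeries ℤ} (h : Rep l A) (hA : Dv 0 A) (d : ℕ)
    (hd : d < 2) : Rep (mv d l) (T 1023 d A) := by
  obtain ⟨h1, h2⟩ := h
  refine ⟨by rw [mv, List.length_map, tab_length d hd], ?_⟩
  intro r hr
  have hL : (mv d l).getD r 0 = dot ((tab d).getD r []) l % 8192 := by
    rw [mv]
    have hlen := tab_length d hd
    rw [List.getD_eq_getElem _ _ (by rw [List.length_map, hlen]; exact hr), List.getElem_map,
      List.getD_eq_getElem _ _ (by rw [hlen]; exact hr)]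
  rw [hL, ZMod.natCast_mod, dot_eq, sm_eq, tab_len d r hd hr]
  have hT : coeff r (T 1023 d A) = ∑ j ∈ Finset.range (2 * r + d + 1),
      coeff j A * ((cf (1023 + r) d (2 * r + d - j) : ℕ) : ℤ) := by
    rw [coeff_T, mul_assoc, coeff_mul, Finset.Nat.sum_antidiagonal_eq_sum_range_succ
      (fun i j => coeff i A * coeff j (G ^ (1023 + r) * (1 + X) ^ d))]
    apply Finset.sum_congr rfl
    intro j _
    rw [coeff_cf _ _ _ hd]
  rw [c8, hT]
  push_cast
  -- compare both with the sum over a large range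
  have key : ∀ N, ∑ j ∈ Finset.range N, ((coeff j A : ℤ) : ZMod 8192) *
      ((if j ≤ 2 * r + d then cf (1023 + r) d (2 * r + d - j) else 0 : ℕ) : ZMod 8192) =
      ∑ j ∈ Finset.range N, ((coeff j A : ℤ) : ZMod 8192) *
      ((if j ≤ 2 * r + d then cf (1023 + r) d (2 * r + d - j) else 0 : ℕ) : ZMod 8192) :=
    fun _ => rfl
  have e1 : ∑ j ∈ Finset.range (2 * r + d + 1), ((coeff j A : ℤ) : ZMod 8192) *
      ((cf (1023 + r) d (2 * r + d - j) : ℕ) : ZMod 8192) =
      ∑ j ∈ Finset.range (2 * r + d + 14), ((coeff j A : ℤ) : ZMod 8192) *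
      ((if j ≤ 2 * r + d then cf (1023 + r) d (2 * r + d - j) else 0 : ℕ) : ZMod 8192) := by
    symm
    rw [show 2 * r + d + 14 = (2 * r + d + 1) + 13 from rfl, Finset.sum_range_add]
    have z : ∑ j ∈ Finset.range 13, ((coeff (2 * r + d + 1 + j) A : ℤ) : ZMod 8192) *
      ((if 2 * r + d + 1 + j ≤ 2 * r + d then
        cf (1023 + r) d (2 * r + d - (2 * r + d + 1 + j)) else 0 : ℕ) : ZMod 8192) = 0 := by
      apply Finset.sum_eq_zero
      intro j _
      rw [if_neg (by omega), Nat.cast_zero, mul_zero]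
    rw [z, add_zero]
    apply Finset.sum_congr rfl
    intro j hj
    rw [Finset.mem_range] at hj
    rw [if_pos (by omega)]
  have e2 : ∑ j ∈ Finset.range 13, ((((tab d).getD r []).getD j 0 : ℕ) : ZMod 8192) *
      ((l.getD j 0 : ℕ) : ZMod 8192) =
      ∑ j ∈ Finset.range (2 * r + d + 14), ((coeff j A : ℤ) : ZMod 8192) *
      ((if j ≤ 2 * r + d then cf (1023 + r) d (2 * r + d - j) else 0 : ℕ) : ZMod 8192) := by
    symm
    rw [show 2 * r + d + 14 = 13 + (2 * r + d + 1) by ring, Finset.sum_range_add]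
    have z : ∑ j ∈ Finset.range (2 * r + d + 1), ((coeff (13 + j) A : ℤ) : ZMod 8192) *
      ((if 13 + j ≤ 2 * r + d then
        cf (1023 + r) d (2 * r + d - (13 + j)) else 0 : ℕ) : ZMod 8192) = 0 := by
      apply Finset.sum_eq_zero
      intro j _
      have := c8_zero A hA (13 + j) (by omega)
      rw [c8] at this
      rw [this, zero_mul]
    rw [z, add_zero]
    apply Finset.sum_congr rfl
    intro j hj
    rw [Finset.mem_range] at hj
    have h3 := h2 j hj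
    rw [c8] at h3
    rw [h3, tab_chk d hd r hr j hj, mul_comm]
    congr 1
    by_cases hc : j ≤ 2 * r + d
    · rw [if_pos hc, en_cast d r j hc]
    · rw [if_neg hc, en, if_neg hc]
  rw [e1, e2]

/-- the initial list -/
def l0 : List ℕ := [1023, 3686, 6840, 7888, 2432, 768, 3072, 2048, 0, 0, 0, 0, 0]

theorem l0_chk : ∀ r < 13, (ax 1023 r / 2048) % 8192 = l0.getD r 0 := by
  decide +kernel

theorem Rep_N2 : Rep l0 N2 := by
  refine ⟨rfl, ?_⟩
  intro i hi
  rw [c8, N2, coeff_mk, ← l0_chk i hi, ZMod.natCast_mod]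
  push_cast
  rfl

end Pool.Agent.Q40.CK.Two
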