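import Mathlib
import Pool.Agent.Q40.CK.Bdd

/-!
Finiteness of the 4-kernel of `S 4 m n` modulo a power of two.
-/

namespace Pool.Agent.Q40.CK

open PowerSeries Pool.Agent.Q35

/-- the 4-kernel of a sequence is finite -/
def Automatic4 {α : Type*} (e : ℕ → α) : Prop :=
  {s : ℕ → α | ∃ i j : ℕ, j < 4 ^ i ∧ s = fun n => e (4 ^ i * n + j)}.Finite

theorem Automatic4.comp {α β : Type*} {e : ℕ → α} (h : Automatic4 e) (f : α → β) :
    Automatic4 (fun n => f (e n)) := by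
  unfold Automatic4 at h ⊢
  apply Set.Finite.subset (h.image (fun s n => f (s n)))
  rintro s ⟨i, j, hj, rfl⟩
  exact ⟨fun n => e (4 ^ i * n + j), ⟨i, j, hj, rfl⟩, rfl⟩

/-- the operator `T m d` in terms of `B = A (1+z)` -/
noncomputable def TD (m d : ℕ) (B : PowerSeries ℤ) : PowerSeries ℤ := (1 + X) * T m d (A0 * B)

theorem T_TD (m d : ℕ) (B : PowerSeries ℤ) : T m d (A0 * B) = A0 * TD m d B := by
  rw [TD, ← mul_assoc, A0_mul, one_mul]

theorem coeff_TD_succ (m d k : ℕ) (B : PowerSeries ℤ) : coeff (k + 1) (TD m d B) =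
    coeff (4 * (k + 1) + d) (B * G ^ (m + k) * (1 + X) ^ (d + 3)) := by
  rw [TD, add_mul, one_mul, map_add, coeff_succ_X_mul, coeff_T, coeff_T]
  have e1 : 4 * (k + 1) + d = (4 * k + d) + 4 := by ring
  have e3 : coeff (4 * k + d) (A0 * B * G ^ (m + k) * (1 + X) ^ d) =
      coeff (4 * k + d + 4) (A0 * B * G ^ (m + k) * (1 + X) ^ d * X ^ 4) := by
    rw [coeff_mul_X_pow]
  rw [e3, e1, ← map_add]
  congr 1
  have e5 : (B : PowerSeries ℤ) = (A0 * (1 + X)) * B := by rw [A0_mul, one_mul]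
  conv_rhs => rw [e5]
  have e6 := G_eq
  rw [show m + (k + 1) = m + k + 1 from rfl, pow_succ, pow_add (1 + X) d 3]
  linear_combination (-A0 * B * G ^ (m + k) * (1 + X) ^ d) * e6

theorem TD_dvd (m d : ℕ) (B : PowerSeries ℤ) (hB : Hf 0 B) (r : ℕ) (hr : 1 ≤ r) :
    (2 : ℤ) ^ (2 * r - 1) ∣ coeff r (TD m d B) := by
  obtain ⟨k, rfl⟩ : ∃ k, r = k + 1 := ⟨r - 1, by omega⟩
  rw [coeff_TD_succ]
  apply dvd_one_add _ _ (4 * (k + 1) - 3) (d + 3) _ _ (by omega)
  intro i hi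
  refine dvd_trans (pow_dvd_pow 2 ?_) ((hB.mul (Hf_Gpow (m + k))) i)
  omega

/-- the higher coefficients are very divisible -/
def Hd (B : PowerSeries ℤ) : Prop := ∀ r, 1 ≤ r → (2 : ℤ) ^ (2 * r - 1) ∣ coeff r B

theorem Hd.hf {B : PowerSeries ℤ} (h : Hd B) : Hf 0 B := by
  intro r
  rcases Nat.eq_zero_or_pos r with rfl | hr
  · norm_num
  · exact dvd_trans (pow_dvd_pow 2 (by omega)) (h r hr)

theorem exists_state (m : ℕ) (g : PowerSeries ℤ)
    (hg : g = (U ^ 4 * (1 - X ^ 4)) ^ m * E 4 g) (i : ℕ) : ∀ j, j < 4 ^ i →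
    ∃ B : PowerSeries ℤ, Hd B ∧ Reach g i j (A0 * B) := by
  induction i with
  | zero =>
    intro j hj
    have : j = 0 := by simpa using hj
    subst this
    refine ⟨1, ?_, by rw [mul_one]; exact reach_zero g⟩
    intro r hr
    rw [coeff_one, if_neg (by omega)]
    exact dvd_zero _
  | succ i ih =>
    intro j hj
    have hpos : 0 < 4 ^ i := by positivity
    obtain ⟨B, hB, hR⟩ := ih (j % 4 ^ i) (Nat.mod_lt _ hpos)
    have hd : j / 4 ^ i < 4 := by
      rw [Nat.div_lt_iff_lt_mul hpos]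
      rw [pow_succ] at hj
      omega
    have h := reach_step m g hg i (j % 4 ^ i) (j / 4 ^ i) hd _ hR
    rw [Nat.div_add_mod, T_TD] at h
    exact ⟨TD m (j / 4 ^ i) B, fun r hr => TD_dvd m _ B hB.hf r hr, h⟩

/-- sequences described by finitely many residues -/
noncomputable def Ph (g : PowerSeries ℤ) (e : ℕ) (c : Fin e → ZMod (2 ^ e)) (n : ℕ) :
    ZMod (2 ^ e) :=
  ((coeff n (V (A0 * mk fun r => if h : r < e then ((c ⟨r, h⟩).val : ℤ) else 0) * g) : ℤ) :
    ZMod (2 ^ e))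

theorem seq_eq (g : PowerSeries ℤ) (e : ℕ) (he : 1 ≤ e) (B : PowerSeries ℤ) (hB : Hd B) (n : ℕ) :
    ((coeff n (V (A0 * B) * g) : ℤ) : ZMod (2 ^ e)) =
      Ph g e (fun i => ((coeff (i : ℕ) B : ℤ) : ZMod (2 ^ e))) n := by
  have hne : NeZero (2 ^ e) := ⟨by positivity⟩
  set P : PowerSeries ℤ := mk fun r => if h : r < e then
    ((((coeff r B : ℤ) : ZMod (2 ^ e))).val : ℤ) else 0 with hP
  have hk : ∀ r, ∃ k : ℤ, coeff r B = coeff r P + 2 ^ e * k := by
    intro r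
    have h1 : (2 : ℤ) ^ e ∣ coeff r B - coeff r P := by
      rw [hP, coeff_mk]
      split_ifs with h
      · have h2 : ((2 ^ e : ℕ) : ℤ) ∣ coeff r B - ((((coeff r B : ℤ) : ZMod (2 ^ e))).val : ℤ) := by
          rw [← ZMod.intCast_zmod_eq_zero_iff_dvd]
          push_cast
          rw [ZMod.natCast_val, ZMod.cast_id', id, sub_self]
        exact_mod_cast h2
      · rw [sub_zero]
        exact dvd_trans (pow_dvd_pow 2 (by omega)) (hB r (by omega))
    obtain ⟨k, hk⟩ := h1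
    exact ⟨k, by linarith⟩
  choose f hf using hk
  have hBP : B = P + C (2 ^ e) * mk f := by
    ext r
    have h1 : coeff r (mk f) = f r := coeff_mk r f
    rw [hf, map_add, coeff_C_mul, h1]
  have h2 : V (A0 * B) * g = V (A0 * P) * g + C (2 ^ e) * (V (A0 * mk f) * g) := by
    rw [hBP, mul_add, V_add]
    have : A0 * (C (2 ^ e) * mk f) = C (2 ^ e) * (A0 * mk f) := by ring
    rw [this, V_C_mul]
    ring
  rw [h2, map_add, coeff_C_mul, Ph]
  push_cast
  have h3 : (2 : ZMod (2 ^ e)) ^ e = 0 := by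
    have : ((2 ^ e : ℕ) : ZMod (2 ^ e)) = 0 := ZMod.natCast_self _
    push_cast at this
    exact this
  rw [h3, zero_mul, add_zero]

theorem automatic_mod (m e : ℕ) (he : 1 ≤ e) :
    Automatic4 (fun n => ((S 4 m n : ℕ) : ZMod (2 ^ e))) := by
  have hne : NeZero (2 ^ e) := ⟨by positivity⟩
  obtain ⟨g, hg, h0⟩ := exists_S (R := ℤ) (b := 4) (by norm_num) m
  unfold Automatic4
  apply Set.Finite.subset (Set.finite_range (Ph g e))
  rintro s ⟨i, j, hj, rfl⟩
  obtain ⟨B, hB, hR⟩ := exists_state m g hg i j hj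
  refine ⟨fun i => ((coeff (i : ℕ) B : ℤ) : ZMod (2 ^ e)), ?_⟩
  ext n
  rw [← seq_eq g e he B hB n, ← hR n, ← S_spec (R := ℤ) (b := 4) (by norm_num) m g hg h0]
  simp

theorem emult_mod (e x : ℕ) (hx : ¬ 2 ^ e ∣ x) :
    emultiplicity 4 x = emultiplicity 4 (((x : ℕ) : ZMod (2 ^ e)).val) := by
  have hne : NeZero (2 ^ e) := ⟨by positivity⟩
  rw [ZMod.val_natCast, emultiplicity_eq_emultiplicity_iff]
  intro s
  have h4 : (4 : ℕ) ^ s = 2 ^ (2 * s) := by rw [pow_mul]; norm_num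
  rw [h4]
  rcases Nat.lt_or_ge (2 * s) e with h | h
  · exact (Nat.dvd_mod_iff (pow_dvd_pow 2 h.le)).symm
  · constructor
    · intro h2
      exact absurd (dvd_trans (pow_dvd_pow 2 h) h2) hx
    · intro h2
      exfalso
      apply hx
      have h3 := dvd_trans (pow_dvd_pow 2 h) h2
      have h5 : x % 2 ^ e < 2 ^ e := Nat.mod_lt _ (by positivity)
      have h6 : x % 2 ^ e = 0 := Nat.eq_zero_of_dvd_of_lt h3 h5
      exact Nat.dvd_of_mod_eq_zero h6

/-- for `m` not congruent to `6` modulo `8` the sequence `φ_4(S 4 m n)` is automatic -/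
theorem automatic_main (m : ℕ) (h0 : 1 ≤ m) (hm : m % 8 ≠ 6) :
    Automatic4 (fun n => emultiplicity 4 (S 4 m n)) := by
  obtain ⟨e, he⟩ := bounded m h0 hm
  have he1 : 1 ≤ e := by
    rcases Nat.eq_zero_or_pos e with rfl | h
    · exact absurd (by simp) (he 0)
    · exact h
  have h := (automatic_mod m e he1).comp (fun z => emultiplicity 4 z.val)
  have h2 : (fun n => emultiplicity 4 (S 4 m n)) =
      fun n => emultiplicity 4 (((S 4 m n : ℕ) : ZMod (2 ^ e)).val) := by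
    ext n
    rw [← emult_mod e (S 4 m n) (he n)]
  rw [h2]
  exact h

end Pool.Agent.Q40.CK
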