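import Mathlib
import Pool.Agent.Q40.CK.Digit

/-!
The periodic word `0, 1, 1` and the unboundedness for `m = 1023`.
-/

namespace Pool.Agent.Q40.CK.Two

open PowerSeries Pool.Agent.Q35 Pool.Agent.Q40.CK

/-! ### arithmetic -/

theorem pow_form (u : ℤ) (hu : ∃ k, u = 1 + 4096 + 8192 * k) (i : ℕ) :
    ∃ k, u ^ 2 ^ i = 1 + 2 ^ (12 + i) + 2 ^ (13 + i) * k := by
  induction i with
  | zero =>
    obtain ⟨k, hk⟩ := hu
    exact ⟨k, by rw [pow_zero, pow_one, hk]; norm_num⟩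
  | succ i ih =>
    obtain ⟨k, hk⟩ := ih
    refine ⟨k + 2 ^ (10 + i) * (1 + 2 * k) ^ 2, ?_⟩
    rw [pow_succ, pow_mul, hk]
    have e1 : (2 : ℤ) ^ (12 + i) = 4096 * 2 ^ i := by rw [pow_add]; norm_num
    have e2 : (2 : ℤ) ^ (13 + i) = 8192 * 2 ^ i := by rw [pow_add]; norm_num
    have e3 : (2 : ℤ) ^ (12 + (i + 1)) = 8192 * 2 ^ i := by
      rw [show 12 + (i + 1) = 13 + i by ring]; exact e2
    have e4 : (2 : ℤ) ^ (13 + (i + 1)) = 16384 * 2 ^ i := by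
      rw [show 13 + (i + 1) = 14 + i by ring, pow_add]; norm_num
    have e5 : (2 : ℤ) ^ (10 + i) = 1024 * 2 ^ i := by rw [pow_add]; norm_num
    rw [e1, e2, e3, e4, e5]
    ring

theorem hensel (y u : ℤ) (hy : ∃ k, y = 1 + 4096 * k) (hu : ∃ k, u = 1 + 4096 + 8192 * k)
    (B : ℕ) : ∃ t k, y * u ^ t = 1 + 2 ^ (12 + B) * k := by
  induction B with
  | zero =>
    obtain ⟨k, hk⟩ := hy
    exact ⟨0, k, by rw [hk]; norm_num⟩
  | succ B ih =>
    obtain ⟨t, k, hk⟩ := ih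
    rcases Int.even_or_odd' k with ⟨l, hl | hl⟩
    · refine ⟨t, l, ?_⟩
      rw [hk, hl, show 12 + (B + 1) = (12 + B) + 1 by ring, pow_succ]
      ring
    · obtain ⟨j, hj⟩ := pow_form u hu B
      refine ⟨t + 2 ^ B, l + 1 + j + (2 ^ (11 + B)) * (2 * l + 1) * (1 + 2 * j), ?_⟩
      rw [pow_add, ← mul_assoc, hk, hj, hl]
      have e1 : (2 : ℤ) ^ (12 + B) = 4096 * 2 ^ B := by rw [pow_add]; norm_num
      have e2 : (2 : ℤ) ^ (13 + B) = 8192 * 2 ^ B := by rw [pow_add]; norm_num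
      have e3 : (2 : ℤ) ^ (12 + (B + 1)) = 8192 * 2 ^ B := by
        rw [show 12 + (B + 1) = 13 + B by ring]; exact e2
      have e5 : (2 : ℤ) ^ (11 + B) = 2048 * 2 ^ B := by rw [pow_add]; norm_num
      rw [e1, e2, e3, e5]
      ring

/-- a sequence of odd numbers with slowly varying ratios -/
theorem seq_hits (c : ℕ → ℤ) (hodd : ∀ s, c s % 2 = 1)
    (hr : ∀ s, (2 : ℤ) ^ (1 + s) ∣ c (s + 4) * c s - c (s + 3) * c (s + 1))
    (h12 : ∃ k, c 12 = 1 + 4096 * k) (h15 : ∃ k, c 15 = c 12 * (1 + 4096) + 8192 * k) (B : ℕ) :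
    ∃ s, (2 : ℤ) ^ B ∣ c s - 1 := by
  -- the ratio `c (s+3) = (1 + 4096) c s` modulo `8192` for `s ≥ 12`
  have cancel : ∀ (n : ℕ) (a x : ℤ), a % 2 = 1 → (2 : ℤ) ^ n ∣ a * x → (2 : ℤ) ^ n ∣ x :=
    fun n a x ha h => dvd_of_odd_mul a x n ha h
  have gen : ∀ (n s0 : ℕ) (u : ℤ), n ≤ 1 + s0 → (2 : ℤ) ^ n ∣ c (s0 + 3) - u * c s0 →
      ∀ i, (2 : ℤ) ^ n ∣ c (s0 + i + 3) - u * c (s0 + i) := by
    intro n s0 u hn h0 i
    induction i with
    | zero => exact h0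
    | succ i ih =>
      apply cancel n (c (s0 + i)) _ (hodd _)
      have h1 : (2 : ℤ) ^ n ∣ c (s0 + i + 4) * c (s0 + i) - c (s0 + i + 3) * c (s0 + i + 1) :=
        dvd_trans (pow_dvd_pow 2 (by omega)) (hr (s0 + i))
      have e : c (s0 + i) * (c (s0 + (i + 1) + 3) - u * c (s0 + (i + 1))) =
          (c (s0 + i + 4) * c (s0 + i) - c (s0 + i + 3) * c (s0 + i + 1)) +
          (c (s0 + i + 3) - u * c (s0 + i)) * c (s0 + i + 1) := by
        rw [show s0 + (i + 1) + 3 = s0 + i + 4 by ring, show s0 + (i + 1) = s0 + i + 1 by ring]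
        ring
      rw [e]
      exact dvd_add h1 (dvd_mul_of_dvd_left ih _)
  have h13 : ∀ i, (2 : ℤ) ^ 13 ∣ c (12 + i + 3) - (1 + 4096) * c (12 + i) := by
    apply gen 13 12 (1 + 4096) (by norm_num)
    obtain ⟨k, hk⟩ := h15
    exact ⟨k, by rw [show 12 + 3 = 15 from rfl, hk]; ring⟩
  have h1 : ∀ j, ∃ k, c (12 + 3 * j) = 1 + 4096 * k := by
    intro j
    induction j with
    | zero => exact h12
    | succ j ih =>
      obtain ⟨k, hk⟩ := ih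
      obtain ⟨l, hl⟩ := h13 (3 * j)
      refine ⟨k + (1 + 4096 * k) + 2 * l, ?_⟩
      have e : 12 + 3 * (j + 1) = 12 + 3 * j + 3 := by ring
      rw [hk] at hl
      rw [e]
      have : c (12 + 3 * j + 3) = (1 + 4096) * (1 + 4096 * k) + 2 ^ 13 * l := by linarith
      rw [this]
      ring
  -- the base point
  obtain ⟨j, hj⟩ : ∃ j, 12 + 3 * j = 12 + 3 * B := ⟨B, rfl⟩
  obtain ⟨w, hw⟩ : ∃ w : ℤ, (2 : ℤ) ^ (13 + B) ∣ w * c (12 + 3 * B) - 1 := by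
    have hc := hodd (12 + 3 * B)
    have hcop : IsCoprime (c (12 + 3 * B)) ((2 : ℤ) ^ (13 + B)) := by
      apply IsCoprime.pow_right
      obtain ⟨q, hq⟩ : ∃ q, c (12 + 3 * B) = 2 * q + 1 := ⟨c (12 + 3 * B) / 2, by omega⟩
      exact ⟨1, -q, by rw [hq]; ring⟩
    obtain ⟨a, b, hab⟩ := hcop
    exact ⟨a, -b, by linarith⟩
  have hu0 : (2 : ℤ) ^ (13 + B) ∣ c (12 + 3 * B + 3) - (c (12 + 3 * B + 3) * w) * c (12 + 3 * B) := by
    obtain ⟨k, hk⟩ := hw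
    exact ⟨-(c (12 + 3 * B + 3)) * k, by linear_combination (-(c (12 + 3 * B + 3))) * hk⟩
  have hun : ∃ k, c (12 + 3 * B + 3) * w = 1 + 4096 + 8192 * k := by
    obtain ⟨a, ha⟩ := h13 (3 * B)
    have hw13 : (2 : ℤ) ^ 13 ∣ w * c (12 + 3 * B) - 1 :=
      dvd_trans (pow_dvd_pow 2 (by omega)) hw
    obtain ⟨b, hb⟩ := hw13
    refine ⟨a * w + (1 + 4096) * b, ?_⟩
    linear_combination w * ha + (1 + 4096) * hb
  have hfin : ∀ t, (2 : ℤ) ^ (13 + B) ∣ c (12 + 3 * B + 3 * t) -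
      (c (12 + 3 * B + 3) * w) ^ t * c (12 + 3 * B) := by
    intro t
    induction t with
    | zero => simp
    | succ t ih =>
      have h2 := gen (13 + B) (12 + 3 * B) _ (by omega) hu0 (3 * t)
      have e : c (12 + 3 * B + 3 * (t + 1)) -
          (c (12 + 3 * B + 3) * w) ^ (t + 1) * c (12 + 3 * B) =
          (c (12 + 3 * B + 3 * t + 3) - (c (12 + 3 * B + 3) * w) * c (12 + 3 * B + 3 * t)) +
          (c (12 + 3 * B + 3) * w) * (c (12 + 3 * B + 3 * t) -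
            (c (12 + 3 * B + 3) * w) ^ t * c (12 + 3 * B)) := by
        rw [show 12 + 3 * B + 3 * (t + 1) = 12 + 3 * B + 3 * t + 3 by ring]
        ring
      rw [e]
      exact dvd_add h2 (dvd_mul_of_dvd_right ih _)
  obtain ⟨t, k, hk⟩ := hensel _ _ (h1 B) hun B
  refine ⟨12 + 3 * B + 3 * t, ?_⟩
  have h3 : (2 : ℤ) ^ B ∣ c (12 + 3 * B + 3 * t) -
      (c (12 + 3 * B + 3) * w) ^ t * c (12 + 3 * B) :=
    dvd_trans (pow_dvd_pow 2 (by omega)) (hfin t)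
  have h4 : (2 : ℤ) ^ B ∣ c (12 + 3 * B) * (c (12 + 3 * B + 3) * w) ^ t - 1 := by
    rw [hk]
    refine dvd_trans (pow_dvd_pow 2 (show B ≤ 12 + B by omega)) ⟨k, by ring⟩
  have e : c (12 + 3 * B + 3 * t) - 1 = (c (12 + 3 * B + 3 * t) -
      (c (12 + 3 * B + 3) * w) ^ t * c (12 + 3 * B)) +
      (c (12 + 3 * B) * (c (12 + 3 * B + 3) * w) ^ t - 1) := by ring
  rw [e]
  exact dvd_add h3 h4

/-! ### the word -/

/-- the digits `0, 1, 1, 0, 1, 1, ...` -/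
def wd (s : ℕ) : ℕ := if s % 3 = 0 then 0 else 1

theorem wd_lt (s : ℕ) : wd s < 2 := by unfold wd; split_ifs <;> norm_num

theorem wd_add (s : ℕ) : wd (s + 3) = wd s := by
  unfold wd
  rw [show (s + 3) % 3 = s % 3 by omega]

/-- the states -/
noncomputable def Ws : ℕ → PowerSeries ℤ
  | 0 => T 1023 1 (T 1023 0 (T 1023 0 (T 1023 0 N2)))
  | s + 1 => T 1023 (wd s) (Ws s)

theorem Ws_Good (s : ℕ) : Good (Ws s) := by
  induction s with
  | zero =>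
    exact (((N2_Good.T 1023 0 (by norm_num)).T 1023 0 (by norm_num)).T 1023 0
      (by norm_num)).T 1023 1 (by norm_num)
  | succ s ih => exact ih.T 1023 (wd s) (wd_lt s)

theorem Ws_Pair (s : ℕ) : Pair (1 + s) (Ws (s + 3)) (Ws s) := by
  induction s with
  | zero => exact Pair_one (Ws_Good 3) (Ws_Good 0)
  | succ s ih =>
    have h := (ih.step (Ws_Good s) 1023 (wd s) (wd_lt s)).1
    have e : Ws (s + 1 + 3) = T 1023 (wd s) (Ws (s + 3)) := by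
      rw [← wd_add s]; rfl
    rw [e]
    exact h

theorem Ws_ratio (s : ℕ) : (2 : ℤ) ^ (1 + s) ∣ coeff 0 (Ws (s + 4)) * coeff 0 (Ws s) -
    coeff 0 (Ws (s + 3)) * coeff 0 (Ws (s + 1)) := by
  have h := ((Ws_Pair s).step (Ws_Good s) 1023 (wd s) (wd_lt s)).2
  have e : Ws (s + 4) = T 1023 (wd s) (Ws (s + 3)) := by
    rw [← wd_add s]; rfl
  rw [e]
  exact h

/-- the list of states -/
def ls : ℕ → List ℕ
  | 0 => mv 1 (mv 0 (mv 0 (mv 0 l0)))
  | s + 1 => mv (wd s) (ls s)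

theorem Ws_Rep (s : ℕ) : Rep (ls s) (Ws s) := by
  induction s with
  | zero =>
    have h1 := Rep_N2.step N2_Good.2 0 (by norm_num)
    have g1 := N2_Good.T 1023 0 (by norm_num)
    have h2 := h1.step g1.2 0 (by norm_num)
    have g2 := g1.T 1023 0 (by norm_num)
    have h3 := h2.step g2.2 0 (by norm_num)
    have g3 := g2.T 1023 0 (by norm_num)
    exact h3.step g3.2 1 (by norm_num)
  | succ s ih => exact ih.step (Ws_Good s).2 (wd s) (wd_lt s)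

theorem ls_chk : (ls 12).getD 0 0 = 1 ∧ (ls 15).getD 0 0 = 4097 := by decide +kernel

theorem Ws_12 : ∃ k, coeff 0 (Ws 12) = 1 + 8192 * k := by
  have h := (Ws_Rep 12).2 0 (by norm_num)
  rw [c8, ls_chk.1] at h
  have h2 : ((coeff 0 (Ws 12) - 1 : ℤ) : ZMod 8192) = 0 := by
    push_cast
    rw [h]
    simp
  rw [ZMod.intCast_zmod_eq_zero_iff_dvd] at h2
  obtain ⟨k, hk⟩ := h2
  exact ⟨k, by push_cast at hk; linarith⟩

theorem Ws_15 : ∃ k, coeff 0 (Ws 15) = 4097 + 8192 * k := by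
  have h := (Ws_Rep 15).2 0 (by norm_num)
  rw [c8, ls_chk.2] at h
  have h2 : ((coeff 0 (Ws 15) - 4097 : ℤ) : ZMod 8192) = 0 := by
    push_cast at h ⊢
    rw [h]
    ring
  rw [ZMod.intCast_zmod_eq_zero_iff_dvd] at h2
  obtain ⟨k, hk⟩ := h2
  exact ⟨k, by push_cast at hk; linarith⟩

theorem Ws_hits (B : ℕ) : ∃ s, (2 : ℤ) ^ B ∣ coeff 0 (Ws s) - 1 := by
  obtain ⟨k, hk⟩ := Ws_12
  obtain ⟨l, hl⟩ := Ws_15
  apply seq_hits (fun s => coeff 0 (Ws s)) (fun s => (Ws_Good s).1) Ws_ratio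
  · exact ⟨2 * k, by show coeff 0 (Ws 12) = _; rw [hk]; ring⟩
  · exact ⟨l - k * 4097, by
      show coeff 0 (Ws 15) = coeff 0 (Ws 12) * _ + _
      rw [hk, hl]; ring⟩

theorem Ws_Reach (g : PowerSeries ℤ) (hg : g = (U ^ 2 * (1 - X ^ 2)) ^ 1023 * E 2 g) (s : ℕ) :
    ∃ k r, 1 ≤ r ∧ Reach g k r (C (2048 : ℤ) * Ws s) := by
  induction s with
  | zero =>
    have h0 := reach_zero g
    have h1 := reach_step 1023 g hg 0 0 0 (by norm_num) _ h0
    have h2 := reach_step 1023 g hg _ _ 1 (by norm_num) _ h1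
    have e : T 1023 1 (T 1023 0 A0) = C (2048 : ℤ) * N2 := S2_N2
    rw [e] at h2
    have h3 := reach_step 1023 g hg _ _ 0 (by norm_num) _ h2
    have h4 := reach_step 1023 g hg _ _ 0 (by norm_num) _ h3
    have h5 := reach_step 1023 g hg _ _ 0 (by norm_num) _ h4
    have h6 := reach_step 1023 g hg _ _ 1 (by norm_num) _ h5
    rw [T_C_mul, T_C_mul, T_C_mul, T_C_mul] at h6
    exact ⟨_, _, by norm_num, h6⟩
  | succ s ih =>
    obtain ⟨k, r, hr, h⟩ := ih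
    have h1 := reach_step 1023 g hg _ _ (wd s) (wd_lt s) _ h
    rw [T_C_mul] at h1
    exact ⟨_, _, by omega, h1⟩

/-- the numbers `S 2 1023 n` with `n ≥ 1` have the form `2^11 q` with `q` odd and arbitrarily
close to `1` -/
theorem hits (B : ℕ) : ∃ n q : ℕ, 1 ≤ n ∧ q % 2 = 1 ∧ S 2 1023 n = 2 ^ 11 * q ∧
    (2 : ℤ) ^ B ∣ (q : ℤ) - 1 := by
  obtain ⟨g, hg, h0⟩ := exists_S (R := ℤ) (b := 2) (by norm_num) 1023
  obtain ⟨s, hs⟩ := Ws_hits B
  obtain ⟨k, r, hr, hR⟩ := Ws_Reach g hg s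
  have h1 := reach_const g h0 k r _ hR
  have h2 := S_spec (R := ℤ) (b := 2) (by norm_num) 1023 g hg h0 r
  rw [h1, coeff_C_mul] at h2
  have hpos : 0 ≤ coeff 0 (Ws s) := by
    have : (0 : ℤ) ≤ (S 2 1023 r : ℤ) := by positivity
    rw [show ((S 2 1023 r : ℕ) : ℤ) = 2048 * coeff 0 (Ws s) from h2] at this
    linarith
  obtain ⟨q, hq⟩ := Int.eq_ofNat_of_zero_le hpos
  have hodd := (Ws_Good s).1
  rw [hq] at hs hodd h2
  refine ⟨r, q, hr, ?_, ?_, hs⟩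
  · exact_mod_cast hodd
  · have : ((S 2 1023 r : ℕ) : ℤ) = ((2 ^ 11 * q : ℕ) : ℤ) := by
      rw [show ((S 2 1023 r : ℕ) : ℤ) = 2048 * (q : ℤ) from h2]
      push_cast
      norm_num
    exact_mod_cast this

end Pool.Agent.Q40.CK.Two
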